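import Mathlib

/-!
Analytic tools: division of entire functions by orders, zero-free entire functions, functions with
finitely many zeros, polynomial growth.
-/

set_option autoImplicit false

open Complex Filter Topology

namespace Pool.Agent.BcfFin

theorem entire_zero {f : ℂ → ℂ} (hf : Differentiable ℂ f) {z₀ : ℂ}
    (h : ∀ᶠ z in 𝓝 z₀, f z = 0) : ∀ z, f z = 0 := by
  have h1 : AnalyticOnNhd ℂ f Set.univ := fun z _ => hf.analyticAt z
  have h2 := h1.eqOn_zero_of_preconnected_of_eventuallyEq_zero isPreconnected_univ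
    (Set.mem_univ z₀) h
  exact fun z => h2 (Set.mem_univ z)

theorem ord_ne_top {f : ℂ → ℂ} (hf : Differentiable ℂ f) (h0 : ∃ z, f z ≠ 0) (z : ℂ) :
    analyticOrderAt f z ≠ ⊤ := by
  intro h
  rw [analyticOrderAt_eq_top] at h
  obtain ⟨w, hw⟩ := h0
  exact hw (entire_zero hf h w)

theorem ne_near {B : ℂ → ℂ} (hB : Differentiable ℂ B) (hB0 : ∃ z, B z ≠ 0) (z₀ : ℂ) :
    ∀ᶠ z in 𝓝[≠] z₀, B z ≠ 0 := by
  rcases (hB.analyticAt z₀).eventually_eq_zero_or_eventually_ne_zero with h1 | h1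
  · exact absurd (analyticOrderAt_eq_top.mpr h1) (ord_ne_top hB hB0 z₀)
  · exact h1

/-- Division of entire functions. -/
theorem div_entire {A B : ℂ → ℂ} (hA : Differentiable ℂ A) (hB : Differentiable ℂ B)
    (hB0 : ∃ z, B z ≠ 0) (h : ∀ z, analyticOrderAt B z ≤ analyticOrderAt A z) :
    ∃ H : ℂ → ℂ, Differentiable ℂ H ∧ ∀ z, A z = H z * B z := by
  have loc : ∀ z₀ : ℂ, ∃ k : ℂ → ℂ, AnalyticAt ℂ k z₀ ∧ ∀ᶠ z in 𝓝 z₀, A z = k z * B z := by
    intro z₀
    have hBa : AnalyticAt ℂ B z₀ := hB.analyticAt z₀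
    have hAa : AnalyticAt ℂ A z₀ := hA.analyticAt z₀
    have htop := ord_ne_top hB hB0 z₀
    have hBn : analyticOrderAt B z₀ = (analyticOrderNatAt B z₀ : ℕ∞) :=
      (Nat.cast_analyticOrderNatAt htop).symm
    obtain ⟨b, hb, hb0, hBb⟩ := (hBa.analyticOrderAt_eq_natCast).mp hBn
    obtain ⟨a, ha, hAaa⟩ := (natCast_le_analyticOrderAt hAa).mp (hBn ▸ h z₀)
    refine ⟨fun z => a z / b z, ha.div hb hb0, ?_⟩
    filter_upwards [hBb, hAaa, hb.continuousAt.eventually_ne hb0] with z h1 h2 h3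
    rw [h1, h2]
    simp only [smul_eq_mul]
    field_simp
  choose k hk hkA using loc
  have heq : ∀ z₀ : ℂ, (fun z => k z z) =ᶠ[𝓝 z₀] k z₀ := by
    intro z₀
    have h1 := ((hkA z₀).and (hk z₀).eventually_analyticAt).eventually_nhds
    filter_upwards [h1] with w hw
    have h2 : AnalyticAt ℂ (k z₀) w := hw.self_of_nhds.2
    have h3 : k w =ᶠ[𝓝[≠] w] k z₀ := by
      filter_upwards [nhdsWithin_le_nhds hw, nhdsWithin_le_nhds (hkA w), ne_near hB hB0 w]
        with z h4 h5 h6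
      have := h4.1
      rw [h5] at this
      exact mul_right_cancel₀ h6 this
    exact (((hk w).continuousAt.eventuallyEq_nhds_iff_eventuallyEq_nhdsNE h2.continuousAt).mp
      h3).self_of_nhds
  refine ⟨fun z => k z z, fun z => ?_, fun z => (hkA z).self_of_nhds⟩
  exact ((hk z).differentiableAt).congr_of_eventuallyEq (heq z)

theorem exists_log' (H : ℂ → ℂ) (hH : Differentiable ℂ H) (h : ∀ z, H z ≠ 0) :
    ∃ φ : ℂ → ℂ, Differentiable ℂ φ ∧ ∀ z, H z = Complex.exp (φ z) := by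
  have h1 : Differentiable ℂ (fun z => deriv H z / H z) :=
    hH.contDiff.differentiable_deriv_two.div hH h
  obtain ⟨φ, hφ0, hφ⟩ := h1.isExactOn_univ.with_val_at 0 (Complex.log (H 0))
  have hφd : Differentiable ℂ φ := fun z => (hφ z (Set.mem_univ z)).differentiableAt
  have h2 : Differentiable ℂ (fun z => H z * Complex.exp (-φ z)) := hH.mul (hφd.neg.cexp)
  have h3 : ∀ z, deriv (fun z => H z * Complex.exp (-φ z)) z = 0 := by
    intro z
    have h4 : HasDerivAt (fun z => Complex.exp (-φ z)) (Complex.exp (-φ z) * (-(deriv H z / H z))) z :=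
      (hφ z (Set.mem_univ z)).neg.cexp
    have h5 := ((hH z).hasDerivAt.mul h4).deriv
    have h6 : deriv (fun z => H z * Complex.exp (-φ z)) z =
        deriv H z * Complex.exp (-φ z) + H z * (Complex.exp (-φ z) * (-(deriv H z / H z))) := h5
    rw [h6]
    have := h z
    field_simp
    ring
  refine ⟨φ, hφd, fun z => ?_⟩
  have h5 : H z * Complex.exp (-φ z) = 1 := by
    have h5 := is_const_of_deriv_eq_zero h2 h3 z 0
    rw [h5, hφ0, Complex.exp_neg, Complex.exp_log (h 0)]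
    exact mul_inv_cancel₀ (h 0)
  rw [Complex.exp_neg] at h5
  have h6 := Complex.exp_ne_zero (φ z)
  field_simp at h5
  exact h5

/-- Entire functions with the same zeros differ by a factor `exp φ`. -/
theorem div_unit {A B : ℂ → ℂ} (hA : Differentiable ℂ A) (hB : Differentiable ℂ B)
    (hB0 : ∃ z, B z ≠ 0) (h : ∀ z, analyticOrderAt A z = analyticOrderAt B z) :
    ∃ φ : ℂ → ℂ, Differentiable ℂ φ ∧ ∀ z, A z = Complex.exp (φ z) * B z := by
  obtain ⟨H, hH, hAH⟩ := div_entire hA hB hB0 (fun z => (h z).ge)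
  have hH0 : ∀ z, H z ≠ 0 := by
    intro z
    have h1 : analyticOrderAt A z = analyticOrderAt H z + analyticOrderAt B z := by
      have : A = H * B := funext hAH
      rw [this, analyticOrderAt_mul (hH.analyticAt z) (hB.analyticAt z)]
    have h2 : analyticOrderAt H z = 0 := by
      have h3 := ord_ne_top hB hB0 z
      rw [h z] at h1
      have h4 : 0 + analyticOrderAt B z = analyticOrderAt H z + analyticOrderAt B z := by
        rw [zero_add]; exact h1
      exact (ENat.add_left_injective_of_ne_top h3 h4).symm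
    exact ((hH.analyticAt z).analyticOrderAt_eq_zero).mp h2
  obtain ⟨φ, hφ, hHφ⟩ := exists_log' H hH hH0
  exact ⟨φ, hφ, fun z => by rw [hAH, hHφ]⟩

/-- polynomial with prescribed zeros -/
noncomputable def zpol (S : Finset ℂ) (m : ℂ → ℕ) : Polynomial ℂ :=
  ∏ s ∈ S, (Polynomial.X - Polynomial.C s) ^ m s

theorem zpol_ne (S : Finset ℂ) (m : ℂ → ℕ) : zpol S m ≠ 0 :=
  Finset.prod_ne_zero_iff.mpr (fun s _ => pow_ne_zero _ (Polynomial.X_sub_C_ne_zero s))

theorem poly_diff (P : Polynomial ℂ) : Differentiable ℂ (fun z => P.eval z) := P.differentiable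

theorem zpol_ord_not_mem {S : Finset ℂ} {m : ℂ → ℕ} {z : ℂ} (hz : z ∉ S) :
    analyticOrderAt (fun z => (zpol S m).eval z) z = 0 := by
  rw [AnalyticAt.analyticOrderAt_eq_zero ((poly_diff _).analyticAt z)]
  unfold zpol
  rw [Polynomial.eval_prod]
  refine Finset.prod_ne_zero_iff.mpr (fun s hs => ?_)
  simp only [Polynomial.eval_pow, Polynomial.eval_sub, Polynomial.eval_X, Polynomial.eval_C]
  apply pow_ne_zero
  rw [sub_ne_zero]
  rintro rfl
  exact hz hs

theorem zpol_ord_mem {S : Finset ℂ} {m : ℂ → ℕ} {z : ℂ} (hz : z ∈ S) :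
    analyticOrderAt (fun z => (zpol S m).eval z) z = m z := by
  rw [AnalyticAt.analyticOrderAt_eq_natCast ((poly_diff _).analyticAt z)]
  refine ⟨fun w => (zpol (S.erase z) m).eval w, (poly_diff _).analyticAt z, ?_, ?_⟩
  · have h1 := zpol_ord_not_mem (S := S.erase z) (m := m) (z := z) (by simp)
    exact ((poly_diff _).analyticAt z).analyticOrderAt_eq_zero.mp h1
  · refine Filter.Eventually.of_forall (fun w => ?_)
    have h1 : zpol S m = (Polynomial.X - Polynomial.C z) ^ m z * zpol (S.erase z) m := by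
      unfold zpol
      rw [Finset.mul_prod_erase S (fun s => (Polynomial.X - Polynomial.C s) ^ m s) hz]
    rw [h1]
    simp

/-- Same zeros up to finitely many: the quotient is rational times `exp φ`. -/
theorem exists_ratio {U V : ℂ → ℂ} (hU : Differentiable ℂ U) (hV : Differentiable ℂ V)
    (hU0 : ∃ z, U z ≠ 0) (hV0 : ∃ z, V z ≠ 0) {S : Set ℂ} (hS : S.Finite)
    (h : ∀ z, z ∉ S → analyticOrderAt U z = analyticOrderAt V z) :
    ∃ P Q : Polynomial ℂ, P ≠ 0 ∧ Q ≠ 0 ∧ ∃ φ : ℂ → ℂ, Differentiable ℂ φ ∧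
      ∀ z, P.eval z * U z = Q.eval z * Complex.exp (φ z) * V z := by
  classical
  set S' := hS.toFinset with hS'
  have hmem : ∀ z, z ∈ S' ↔ z ∈ S := fun z => by simp [hS']
  set P := zpol S' (fun z => analyticOrderNatAt V z) with hP
  set Q := zpol S' (fun z => analyticOrderNatAt U z) with hQ
  have hUn : ∀ z, analyticOrderAt U z = (analyticOrderNatAt U z : ℕ∞) := fun z =>
    (Nat.cast_analyticOrderNatAt (ord_ne_top hU hU0 z)).symm
  have hVn : ∀ z, analyticOrderAt V z = (analyticOrderNatAt V z : ℕ∞) := fun z =>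
    (Nat.cast_analyticOrderNatAt (ord_ne_top hV hV0 z)).symm
  have hPd := poly_diff P
  have hQd := poly_diff Q
  have hQV0 : ∃ z, (fun z => Q.eval z * V z) z ≠ 0 := by
    by_contra hcon
    push Not at hcon
    obtain ⟨z₁, hz₁⟩ := hV0
    have h1 : ∀ᶠ z in 𝓝 z₁, Q.eval z = 0 := by
      filter_upwards [hV.continuous.continuousAt.eventually_ne hz₁] with z hz
      exact (mul_eq_zero.mp (hcon z)).resolve_right hz
    have h2 : ∀ z, Q.eval z = 0 := entire_zero hQd h1
    exact zpol_ne _ _ (Polynomial.funext (fun z => by rw [h2 z, Polynomial.eval_zero]))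
  have hord : ∀ z, analyticOrderAt (fun z => P.eval z * U z) z =
      analyticOrderAt (fun z => Q.eval z * V z) z := by
    intro z
    have e1 : analyticOrderAt (fun z => P.eval z * U z) z =
        analyticOrderAt (fun z => P.eval z) z + analyticOrderAt U z :=
      analyticOrderAt_mul (hPd.analyticAt z) (hU.analyticAt z)
    have e2 : analyticOrderAt (fun z => Q.eval z * V z) z =
        analyticOrderAt (fun z => Q.eval z) z + analyticOrderAt V z :=
      analyticOrderAt_mul (hQd.analyticAt z) (hV.analyticAt z)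
    rw [e1, e2]
    by_cases hz : z ∈ S'
    · rw [hP, hQ, zpol_ord_mem hz, zpol_ord_mem hz, hUn z, hVn z, add_comm]
    · rw [hP, hQ, zpol_ord_not_mem hz, zpol_ord_not_mem hz, h z (fun h1 => hz ((hmem z).mpr h1))]
  obtain ⟨φ, hφ, hφe⟩ := div_unit (hPd.mul hU) (hQd.mul hV) hQV0 hord
  refine ⟨P, Q, zpol_ne _ _, zpol_ne _ _, φ, hφ, fun z => ?_⟩
  have h1 : P.eval z * U z = Complex.exp (φ z) * (Q.eval z * V z) := hφe z
  rw [h1]; ring

/-- an entire quotient of polynomials is a polynomial -/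
theorem poly_of_mul {q : ℂ → ℂ} (hq : Continuous q) : ∀ (n : ℕ) (a b : Polynomial ℂ),
    a.natDegree = n → a ≠ 0 → (∀ z, a.eval z * q z = b.eval z) →
    ∃ p : Polynomial ℂ, ∀ z, q z = p.eval z := by
  intro n
  induction n with
  | zero =>
    intro a b ha ha0 h
    rw [Polynomial.natDegree_eq_zero] at ha
    obtain ⟨c, rfl⟩ := ha
    have hc : c ≠ 0 := by rintro rfl; simp at ha0
    refine ⟨Polynomial.C c⁻¹ * b, fun z => ?_⟩
    have := h z
    rw [Polynomial.eval_C] at this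
    rw [Polynomial.eval_mul, Polynomial.eval_C, ← this]
    field_simp
  | succ n ih =>
    intro a b ha ha0 h
    have hdeg : a.degree ≠ 0 := by
      intro h0
      have h1 : a.natDegree = 0 := Polynomial.natDegree_eq_of_degree_eq_some h0
      omega
    obtain ⟨z₀, hz₀⟩ := IsAlgClosed.exists_root a hdeg
    obtain ⟨a', ha'⟩ := Polynomial.dvd_iff_isRoot.mpr hz₀
    have hb0 : b.IsRoot z₀ := by
      have := h z₀
      rw [Polynomial.IsRoot.def] at hz₀
      rw [hz₀, zero_mul] at this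
      exact this.symm
    obtain ⟨b', hb'⟩ := Polynomial.dvd_iff_isRoot.mpr hb0
    have ha'0 : a' ≠ 0 := by rintro rfl; rw [mul_zero] at ha'; exact ha0 ha'
    have hn : a'.natDegree = n := by
      have := Polynomial.natDegree_mul (Polynomial.X_sub_C_ne_zero z₀) ha'0
      rw [← ha', ha, Polynomial.natDegree_X_sub_C] at this
      omega
    apply ih a' b' hn ha'0
    have hd : Dense ({z₀}ᶜ : Set ℂ) := dense_compl_singleton z₀
    have hc1 : Continuous (fun z => a'.eval z * q z) := a'.continuous.mul hq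
    have hc2 : Continuous (fun z => b'.eval z) := b'.continuous
    have := Continuous.ext_on hd hc1 hc2 (fun z hz => by
      have h1 := h z
      rw [ha', hb', Polynomial.eval_mul, Polynomial.eval_mul] at h1
      have h2 : (Polynomial.X - Polynomial.C z₀).eval z ≠ 0 := by
        rw [Polynomial.eval_sub, Polynomial.eval_X, Polynomial.eval_C, sub_ne_zero]
        exact hz
      apply mul_left_cancel₀ h2
      rw [← mul_assoc]; exact h1)
    exact fun z => congrFun this z

/-- polynomial growth -/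
def PG (f : ℂ → ℝ) : Prop := ∃ C : ℝ, ∃ k : ℕ, 0 ≤ C ∧ ∀ z, f z ≤ C * (1 + ‖z‖) ^ k

theorem PG.poly (p : Polynomial ℂ) : PG (fun z => ‖p.eval z‖) := by
  induction p using Polynomial.induction_on' with
  | add p q hp hq =>
    obtain ⟨C, k, hC, h1⟩ := hp
    obtain ⟨C', k', hC', h2⟩ := hq
    refine ⟨C + C', k + k', by linarith, fun z => ?_⟩
    have hz : (1:ℝ) ≤ 1 + ‖z‖ := by linarith [norm_nonneg z]
    have e1 : (1 + ‖z‖) ^ k ≤ (1 + ‖z‖) ^ (k + k') := pow_le_pow_right₀ hz (by omega)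
    have e2 : (1 + ‖z‖) ^ k' ≤ (1 + ‖z‖) ^ (k + k') := pow_le_pow_right₀ hz (by omega)
    change ‖(p + q).eval z‖ ≤ _
    rw [Polynomial.eval_add]
    calc ‖p.eval z + q.eval z‖ ≤ ‖p.eval z‖ + ‖q.eval z‖ := norm_add_le _ _
      _ ≤ C * (1 + ‖z‖) ^ k + C' * (1 + ‖z‖) ^ k' := add_le_add (h1 z) (h2 z)
      _ ≤ C * (1 + ‖z‖) ^ (k + k') + C' * (1 + ‖z‖) ^ (k + k') :=
          add_le_add (mul_le_mul_of_nonneg_left e1 hC) (mul_le_mul_of_nonneg_left e2 hC')
      _ = _ := by ring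
  | monomial n a =>
    refine ⟨‖a‖, n, norm_nonneg _, fun z => ?_⟩
    change ‖(Polynomial.monomial n a).eval z‖ ≤ _
    rw [Polynomial.eval_monomial, norm_mul, norm_pow]
    exact mul_le_mul_of_nonneg_left
      (pow_le_pow_left₀ (norm_nonneg _) (by linarith) n) (norm_nonneg _)

theorem PG.sum {ι : Type*} (s : Finset ι) {f : ι → ℂ → ℝ} (h : ∀ i ∈ s, PG (f i)) :
    PG (fun z => ∑ i ∈ s, f i z) := by
  classical
  induction s using Finset.induction_on with
  | empty => exact ⟨0, 0, le_rfl, fun z => by simp⟩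
  | insert i s hi ih =>
    obtain ⟨C, k, hC, h1⟩ := h i (Finset.mem_insert_self i s)
    obtain ⟨C', k', hC', h2⟩ := ih (fun j hj => h j (Finset.mem_insert_of_mem hj))
    refine ⟨C + C', k + k', by linarith, fun z => ?_⟩
    have hz : (1:ℝ) ≤ 1 + ‖z‖ := by linarith [norm_nonneg z]
    have e1 : (1 + ‖z‖) ^ k ≤ (1 + ‖z‖) ^ (k + k') := pow_le_pow_right₀ hz (by omega)
    have e2 : (1 + ‖z‖) ^ k' ≤ (1 + ‖z‖) ^ (k + k') := pow_le_pow_right₀ hz (by omega)
    change ∑ i ∈ insert i s, f i z ≤ _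
    rw [Finset.sum_insert hi]
    calc f i z + ∑ j ∈ s, f j z ≤ C * (1 + ‖z‖) ^ k + C' * (1 + ‖z‖) ^ k' :=
          add_le_add (h1 z) (h2 z)
      _ ≤ C * (1 + ‖z‖) ^ (k + k') + C' * (1 + ‖z‖) ^ (k + k') :=
          add_le_add (mul_le_mul_of_nonneg_left e1 hC) (mul_le_mul_of_nonneg_left e2 hC')
      _ = _ := by ring

theorem PG.const (c : ℝ) (hc : 0 ≤ c) : PG (fun _ => c) := ⟨c, 0, hc, fun z => by simp⟩

theorem PG.add {f g : ℂ → ℝ} (hf : PG f) (hg : PG g) : PG (fun z => f z + g z) := by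
  have := PG.sum (Finset.univ : Finset (Fin 2)) (f := ![f, g]) (by
    intro i _
    fin_cases i
    · exact hf
    · exact hg)
  simpa [Fin.sum_univ_two] using this

/-- an entire function of polynomial growth is a polynomial -/
theorem poly_of_growth : ∀ (k : ℕ) (H : ℂ → ℂ), Differentiable ℂ H → ∀ C : ℝ, 0 ≤ C →
    (∀ z, ‖H z‖ ≤ C * (1 + ‖z‖) ^ k) → ∃ p : Polynomial ℂ, ∀ z, H z = p.eval z := by
  intro k
  induction k with
  | zero =>
    intro H hH C hC h
    have hb : Bornology.IsBounded (Set.range H) := by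
      rw [isBounded_iff_forall_norm_le]
      exact ⟨C, by rintro _ ⟨z, rfl⟩; simpa using h z⟩
    refine ⟨Polynomial.C (H 0), fun z => ?_⟩
    rw [Polynomial.eval_C]
    exact hH.apply_eq_apply_of_bounded hb z 0
  | succ k ih =>
    intro H hH C hC h
    have hd : Differentiable ℂ (dslope H 0) := by
      rw [← differentiableOn_univ] at hH ⊢
      exact (Complex.differentiableOn_dslope (by simp)).mpr hH
    obtain ⟨D, hD⟩ := (isCompact_closedBall (0:ℂ) 1).exists_bound_of_continuousOn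
      hd.continuous.continuousOn
    have hD0 : 0 ≤ D := (norm_nonneg _).trans (hD 0 (by simp))
    obtain ⟨p, hp⟩ := ih (dslope H 0) hd (D + 4 * C) (by linarith) (by
      intro z
      have hz1 : (1:ℝ) ≤ 1 + ‖z‖ := by linarith [norm_nonneg z]
      have hz2 : (1:ℝ) ≤ (1 + ‖z‖) ^ k := one_le_pow₀ hz1
      rcases le_or_gt ‖z‖ 1 with hz | hz
      · calc ‖dslope H 0 z‖ ≤ D := hD z (by simpa using hz)
          _ ≤ (D + 4 * C) * 1 := by linarith
          _ ≤ _ := mul_le_mul_of_nonneg_left hz2 (by linarith)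
      · have hz0 : z ≠ 0 := by
          rintro rfl
          simp at hz
          linarith
        rw [dslope_of_ne _ hz0, slope_def_field, sub_zero, norm_div]
        have h0 : ‖H 0‖ ≤ C := by simpa using h 0
        have h1 : ‖H z - H 0‖ ≤ 2 * (C * (1 + ‖z‖) ^ (k+1)) := by
          have h2 : (1:ℝ) ≤ (1 + ‖z‖) ^ (k+1) := one_le_pow₀ hz1
          have h3 : C ≤ C * (1 + ‖z‖) ^ (k+1) := by nlinarith
          calc ‖H z - H 0‖ ≤ ‖H z‖ + ‖H 0‖ := norm_sub_le _ _
            _ ≤ C * (1 + ‖z‖) ^ (k+1) + C := add_le_add (h z) h0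
            _ ≤ _ := by linarith
        rw [div_le_iff₀ (by linarith)]
        refine h1.trans ?_
        have h4 : 1 + ‖z‖ ≤ 2 * ‖z‖ := by linarith
        have h5 : 0 ≤ C * (1 + ‖z‖) ^ k := by positivity
        calc 2 * (C * (1 + ‖z‖) ^ (k+1)) = 2 * (C * (1 + ‖z‖) ^ k) * (1 + ‖z‖) := by ring
          _ ≤ 2 * (C * (1 + ‖z‖) ^ k) * (2 * ‖z‖) :=
              mul_le_mul_of_nonneg_left h4 (by linarith)
          _ = 4 * C * (1 + ‖z‖) ^ k * ‖z‖ := by ring
          _ ≤ (D + 4 * C) * (1 + ‖z‖) ^ k * ‖z‖ := by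
              have : 0 ≤ D * (1 + ‖z‖) ^ k * ‖z‖ := by positivity
              nlinarith)
    refine ⟨Polynomial.C (H 0) + Polynomial.X * p, fun z => ?_⟩
    rw [Polynomial.eval_add, Polynomial.eval_C, Polynomial.eval_mul, Polynomial.eval_X, ← hp z]
    have := sub_smul_dslope H 0 z
    rw [smul_eq_mul, sub_zero] at this
    rw [this]; ring

/-- bound implies order -/
theorem ord_le_of_bound {A B : ℂ → ℂ} {z₀ : ℂ} (hA : AnalyticAt ℂ A z₀) (hB : AnalyticAt ℂ B z₀)
    (hBtop : analyticOrderAt B z₀ ≠ ⊤) (C : ℝ) (h : ∀ᶠ z in 𝓝 z₀, ‖A z‖ ≤ C * ‖B z‖) :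
    analyticOrderAt B z₀ ≤ analyticOrderAt A z₀ := by
  by_contra hlt
  push Not at hlt
  have hAtop : analyticOrderAt A z₀ ≠ ⊤ := (lt_of_lt_of_le hlt le_top).ne
  have hBn : analyticOrderAt B z₀ = (analyticOrderNatAt B z₀ : ℕ∞) :=
    (Nat.cast_analyticOrderNatAt hBtop).symm
  have hAn : analyticOrderAt A z₀ = (analyticOrderNatAt A z₀ : ℕ∞) :=
    (Nat.cast_analyticOrderNatAt hAtop).symm
  rw [hAn, hBn, Nat.cast_lt] at hlt
  obtain ⟨a, ha, ha0, hAa⟩ := (hA.analyticOrderAt_eq_natCast).mp hAn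
  obtain ⟨b, hb, hb0, hBb⟩ := (hB.analyticOrderAt_eq_natCast).mp hBn
  set m := analyticOrderNatAt A z₀ with hm
  set n := analyticOrderNatAt B z₀ with hn
  obtain ⟨d, hd⟩ : ∃ d, n = m + (d + 1) := ⟨n - m - 1, by omega⟩
  have h1 : ∀ᶠ z in 𝓝[≠] z₀, ‖a z‖ ≤ C * (‖z - z₀‖ ^ (d+1) * ‖b z‖) := by
    filter_upwards [nhdsWithin_le_nhds h, nhdsWithin_le_nhds hAa, nhdsWithin_le_nhds hBb,
      self_mem_nhdsWithin] with z h2 h3 h4 h5
    rw [h3, h4, smul_eq_mul, smul_eq_mul, norm_mul, norm_mul, norm_pow, norm_pow, hd,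
      pow_add] at h2
    have h6 : 0 < ‖z - z₀‖ ^ m := pow_pos (norm_pos_iff.mpr (sub_ne_zero.mpr h5)) m
    have h7 : ‖z - z₀‖ ^ m * ‖a z‖ ≤ ‖z - z₀‖ ^ m * (C * (‖z - z₀‖ ^ (d+1) * ‖b z‖)) := by
      calc _ ≤ _ := h2
        _ = _ := by ring
    exact le_of_mul_le_mul_left h7 h6
  have hlim1 : Tendsto (fun z => ‖a z‖) (𝓝[≠] z₀) (𝓝 ‖a z₀‖) :=
    (ha.continuousAt.norm).tendsto.mono_left nhdsWithin_le_nhds
  have hlim2 : Tendsto (fun z => C * (‖z - z₀‖ ^ (d+1) * ‖b z‖)) (𝓝[≠] z₀) (𝓝 0) := by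
    have h8 : ContinuousAt (fun z => C * (‖z - z₀‖ ^ (d+1) * ‖b z‖)) z₀ := by
      have := hb.continuousAt
      fun_prop
    have h9 := h8.tendsto.mono_left (nhdsWithin_le_nhds (s := {z₀}ᶜ))
    simpa using h9
  have := le_of_tendsto_of_tendsto hlim1 hlim2 h1
  exact ha0 (norm_le_zero_iff.mp this)

/-- A quotient of entire functions bounded by a polynomial is a polynomial. -/
theorem poly_quot {A B : ℂ → ℂ} (hA : Differentiable ℂ A) (hB : Differentiable ℂ B)
    (hB0 : ∃ z, B z ≠ 0) {M : ℂ → ℝ} (hM : PG M) (hM0 : Continuous M)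
    (h : ∀ z, ‖A z‖ ≤ M z * ‖B z‖) : ∃ p : Polynomial ℂ, ∀ z, A z = p.eval z * B z := by
  have hord : ∀ z, analyticOrderAt B z ≤ analyticOrderAt A z := by
    intro z
    apply ord_le_of_bound (hA.analyticAt z) (hB.analyticAt z) (ord_ne_top hB hB0 z) (M z + 1)
    filter_upwards [hM0.continuousAt.eventually_lt (continuousAt_const (y := M z + 1))
      (by linarith)] with w hw
    exact (h w).trans (mul_le_mul_of_nonneg_right hw.le (norm_nonneg _))
  obtain ⟨H, hH, hAH⟩ := div_entire hA hB hB0 hord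
  obtain ⟨C, k, hC, hMC⟩ := hM
  have hbd : ∀ z, ‖H z‖ ≤ M z := by
    intro z
    have h1 : ∀ᶠ w in 𝓝[≠] z, ‖H w‖ ≤ M w := by
      filter_upwards [ne_near hB hB0 z] with w hw
      have h2 := h w
      rw [hAH, norm_mul] at h2
      exact le_of_mul_le_mul_right h2 (norm_pos_iff.mpr hw)
    exact le_of_tendsto_of_tendsto
      ((hH.continuous.continuousAt.norm).tendsto.mono_left nhdsWithin_le_nhds)
      (hM0.continuousAt.tendsto.mono_left nhdsWithin_le_nhds) h1
  obtain ⟨p, hp⟩ := poly_of_growth k H hH C hC (fun z => (hbd z).trans (hMC z))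
  exact ⟨p, fun z => by rw [hAH, hp]⟩

/-- antiderivatives of polynomials -/
theorem exists_antideriv (p : Polynomial ℂ) : ∃ P : Polynomial ℂ, Polynomial.derivative P = p := by
  induction p using Polynomial.induction_on' with
  | add p q hp hq =>
    obtain ⟨P, rfl⟩ := hp
    obtain ⟨Q, rfl⟩ := hq
    exact ⟨P + Q, Polynomial.derivative_add⟩
  | monomial n a =>
    refine ⟨Polynomial.monomial (n+1) (a / (n+1)), ?_⟩
    rw [Polynomial.derivative_monomial, Nat.add_sub_cancel]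
    congr 1
    push_cast
    have : (n:ℂ) + 1 ≠ 0 := by exact_mod_cast Nat.succ_ne_zero n
    field_simp

theorem poly_of_deriv {f : ℂ → ℂ} (hf : Differentiable ℂ f) {p : Polynomial ℂ}
    (h : ∀ z, deriv f z = p.eval z) : ∃ P : Polynomial ℂ, ∀ z, f z = P.eval z := by
  obtain ⟨P, hP⟩ := exists_antideriv p
  have h1 : Differentiable ℂ (fun z => f z - P.eval z) := hf.sub (poly_diff P)
  have h2 : ∀ z, deriv (fun z => f z - P.eval z) z = 0 := by
    intro z
    have h3 : deriv (fun z => f z - P.eval z) z = deriv f z - deriv (fun z => P.eval z) z :=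
      deriv_sub (hf z) (poly_diff P z)
    rw [h3, Polynomial.deriv, hP, h, sub_self]
  refine ⟨P + Polynomial.C (f 0 - P.eval 0), fun z => ?_⟩
  have := is_const_of_deriv_eq_zero h1 h2 z 0
  rw [Polynomial.eval_add, Polynomial.eval_C]
  linear_combination this

end Pool.Agent.BcfFin
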