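import Pool.Agent.Hhelper32.Bcf.Final
import Pool.Agent.BcfFin.An

/-!
Functions algebraic over `ℂ(z)` and the two windows.
-/

set_option autoImplicit false
set_option linter.unusedSectionVars false
set_option linter.unusedVariables false

open Complex
open Pool.Agent.Hhelper32.Bcf

namespace Pool.Agent.BcfFin

/-- polynomials as entire functions -/
noncomputable def pE : Polynomial ℂ →ₐ[ℂ] Ent := Polynomial.aeval idE

theorem pE_apply (p : Polynomial ℂ) (z : ℂ) : (pE p).1 z = p.eval z := by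
  induction p using Polynomial.induction_on' with
  | add p q hp hq =>
    rw [map_add, Polynomial.eval_add, ← hp, ← hq]
    rfl
  | monomial n a =>
    rw [Polynomial.eval_monomial]
    have h1 : pE (Polynomial.monomial n a) = cst a * idE ^ n := by
      unfold pE
      rw [Polynomial.aeval_monomial]
      rfl
    rw [h1]
    have h2 : (cst a * idE ^ n : Ent).1 = fun z => a * z ^ n := by
      funext w
      change (cst a).1 w * ((idE ^ n : Ent) : ℂ → ℂ) w = _
      rw [SubmonoidClass.coe_pow]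
      rfl
    rw [h2]

theorem pE_inj : Function.Injective pE := by
  intro p q h
  apply Polynomial.funext
  intro z
  rw [← pE_apply, ← pE_apply, h]

theorem pE_ne {p : Polynomial ℂ} (h : p ≠ 0) : pE p ≠ 0 := fun h0 =>
  h (pE_inj (by rw [h0, map_zero]))

theorem pE_C (c : ℂ) : pE (Polynomial.C c) = cst c := Ent.ext (fun z => by
  rw [pE_apply, Polynomial.eval_C, cst_apply])

theorem dEnt_pE (p : Polynomial ℂ) : dEnt (pE p) = pE (Polynomial.derivative p) := by
  unfold pE
  rw [Derivation.map_aeval, dEnt_id]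
  simp

theorem pE_mem (φ : Type*) [Fintype φ] (f : φ → Ent) (p : Polynomial ℂ) : jj (pE p) ∈ Rphi f := by
  apply mem_Rphi
  have h1 : idE ∈ GBsub f := GB.id Aphi_ge
  have h2 : pE p ∈ GBsub f := by
    have h3 : Algebra.adjoin ℂ {idE} ≤ GBsub f := Algebra.adjoin_le (by rintro x rfl; exact h1)
    exact h3 (Polynomial.aeval_mem_adjoin_singleton ℂ idE)
  exact h2

/-- the ring of polynomials in `Om` -/
noncomputable def Cz : Subring Om := (jj.comp (pE : Polynomial ℂ →+* Ent)).range

theorem mem_Cz (p : Polynomial ℂ) : jj (pE p) ∈ Cz := ⟨p, rfl⟩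

theorem Cz_good : GoodR DOm Cz := by
  refine ⟨?_, ?_⟩
  · rintro x ⟨p, rfl⟩
    change DOm (jj (pE p)) ∈ _
    rw [D_jj, dEnt_pE]
    exact mem_Cz _
  · intro x hx
    obtain ⟨c, rfl⟩ := Om_const' hx
    rw [← pE_C]
    exact mem_Cz _

theorem Cz_le {ι : Type*} [Fintype ι] (f : ι → Ent) : acl Cz ≤ acl (Rphi f) := by
  apply acl_mono
  rintro x ⟨p, rfl⟩
  exact le_acl _ (pE_mem ι f p)

/-- exponentials of entire functions algebraic over `C(z)` are constant. -/
theorem exp_notMem {φ : Ent} (h : jj (expE φ) ∈ acl Cz) : dEnt φ = 0 := by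
  have := F1 (fun _ : Fin 1 => φ) (fun i => Cz_le _ h) 0
  exact this

theorem expid_notMem : jj (expE idE) ∉ acl Cz := by
  intro h
  have h1 := exp_notMem h
  rw [dEnt_id] at h1
  exact one_ne_zero h1

/-- the field `C(z)^alg` with its derivation and the exponential `e^z`. -/
theorem isT_exp : IsT (dext DOm Cz Cz_good) (jj (expE idE)) (1 : acl Cz) := by
  refine ⟨?_, ?_⟩
  · change DOm (jj (expE idE)) = _
    rw [D_jj, dEnt_exp, dEnt_id, map_mul, map_one]
    rfl
  · intro c hc
    apply expid_notMem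
    rw [← hc]
    exact c.2

/-- **Part 0 over `C(z)`.** -/
theorem part0_Cz {L M : ℕ → Om} (L0 : ∀ n ≤ 5, L n ≠ 0) (M0 : ∀ n ≤ 5, M n ≠ 0)
    (ne : ∀ n ≤ 5, M n ≠ L n) (Ls : ∀ n < 5, L (n+1) = L n + ld DOm (L n))
    (Ms : ∀ n < 5, M (n+1) = M n + ld DOm (M n)) (hE : ∀ n ≤ 5, M n / L n ∈ acl Cz) :
    M 0 - L 0 ∈ acl Cz := by
  classical
  set c : ℕ → acl Cz := fun n => if h : M n / L n ∈ acl Cz then ⟨M n / L n, h⟩ else 0 with hc
  have hcn : ∀ n ≤ 5, (c n : Om) = M n / L n := by
    intro n hn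
    simp only [hc, dif_pos (hE n hn)]
  have hseq : Seq (dext DOm Cz Cz_good) 5 L M := ⟨L0, M0, ne, Ls, Ms⟩
  have hed : EData (jj (expE idE)) 5 L M c (fun _ => 0) := by
    refine ⟨fun n hn h0 => ?_, fun n hn => ?_⟩
    · have h1 := hcn n hn
      rw [h0] at h1
      exact div_ne_zero (M0 n hn) (L0 n hn) h1.symm
    · have h1 : algebraMap (acl Cz) Om (c n) = M n / L n := hcn n hn
      have h2 := L0 n hn
      rw [h1, zpow_zero]
      field_simp
  obtain ⟨α, hα⟩ := part0 isT_exp hseq hed le_rfl (fun n _ => rfl)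
    (z := ⟨jj idE, le_acl _ (by
      have := mem_Cz Polynomial.X
      have h2 : pE Polynomial.X = idE := Polynomial.aeval_X idE
      rw [h2] at this
      exact this)⟩) (Subtype.ext (by
      change DOm (jj idE) = 1
      rw [D_jj, dEnt_id, map_one]))
  rw [← hα]
  exact α.2

/-- The data: `F`, `G` sequences of derivatives, the quotients of the logarithmic derivatives are
rational times `exp φ n`. -/
structure DatR (F G : ℕ → Ent) (P Q : ℕ → Polynomial ℂ) (φ : ℕ → Ent) : Prop where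
  hF : ∀ n, dEnt (F n) = F (n+1)
  hG : ∀ n, dEnt (G n) = G (n+1)
  hF0 : ∀ n ≤ 14, F n ≠ 0
  hG0 : ∀ n ≤ 14, G n ≠ 0
  hP : ∀ n ≤ 13, P n ≠ 0
  hQ : ∀ n ≤ 13, Q n ≠ 0
  rel : ∀ n ≤ 13, pE (P n) * (F (n+1) * G n) = pE (Q n) * expE (φ n) * (F n * G (n+1))

section
variable {F G : ℕ → Ent} {P Q : ℕ → Polynomial ℂ} {φ : ℕ → Ent}

theorem LG_ne (hd : DatR F G P Q φ) {n : ℕ} (hn : n ≤ 13) : LL G n ≠ 0 :=
  div_ne_zero (jj_ne (hd.hG0 (n+1) (by omega))) (jj_ne (hd.hG0 n (by omega)))

theorem LF_ne (hd : DatR F G P Q φ) {n : ℕ} (hn : n ≤ 13) : LL F n ≠ 0 :=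
  div_ne_zero (jj_ne (hd.hF0 (n+1) (by omega))) (jj_ne (hd.hF0 n (by omega)))

theorem quot_eqR (hd : DatR F G P Q φ) {n : ℕ} (hn : n ≤ 13) :
    LL F n / LL G n = jj (pE (Q n)) / jj (pE (P n)) * jj (expE (φ n)) := by
  have h1 := jj_ne (hd.hG0 n (by omega))
  have h2 := jj_ne (hd.hG0 (n+1) (by omega))
  have h3 := jj_ne (hd.hF0 n (by omega))
  have h4 := jj_ne (pE_ne (hd.hP n hn))
  have h5 := congrArg jj (hd.rel n hn)
  simp only [map_mul] at h5
  unfold LL
  field_simp
  linear_combination h5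

theorem swapR (hd : DatR F G P Q φ) : DatR G F Q P (fun n => - φ n) := by
  refine ⟨hd.hG, hd.hF, hd.hG0, hd.hF0, hd.hQ, hd.hP, fun n hn => ?_⟩
  have h1 := hd.rel n hn
  have h2 : expE (-φ n) * expE (φ n) = 1 := Ent.ext (fun z => by
    change Complex.exp (-(φ n).1 z) * Complex.exp ((φ n).1 z) = 1
    rw [← Complex.exp_add, neg_add_cancel, Complex.exp_zero])
  calc pE (Q n) * (G (n+1) * F n) = (expE (-φ n) * expE (φ n)) * (pE (Q n) * (G (n+1) * F n)) := by
        rw [h2, one_mul]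
    _ = expE (-φ n) * (pE (Q n) * expE (φ n) * (F n * G (n+1))) := by ring
    _ = expE (-φ n) * (pE (P n) * (F (n+1) * G n)) := by rw [h1]
    _ = _ := by ring

theorem ld_mem {R : Subring Om} (hR : GoodR DOm R) {x : Om} (hx : x ∈ acl R) : ld DOm x ∈ acl R := by
  unfold ld
  exact div_mem (acl_D DOm hR.stable x hx) hx

theorem windowR (hd : DatR F G P Q φ) (hne : ∀ n ≤ 13, LL F n ≠ LL G n) {k : ℕ} (hk : k ≤ 1) :
    (LL F k - LL G k ∈ acl Cz ∧ LL F k / LL G k ∈ acl Cz) ∨
      LL F (k+1) - LL G (k+1) = 2 * (LL F k - LL G k) := by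
  set ψ : Fin 13 → Ent := fun i => φ (i.1+k) with hψ
  by_cases hall : ∀ n ≤ 12, jj (expE (φ (n+k))) ∈ acl (Rphi ψ)
  · left
    have h1 := F1 ψ (fun i => hall i.1 (by have := i.2; omega))
    have h2 : ∀ n ≤ 12, LL F (n+k) / LL G (n+k) ∈ acl Cz := by
      intro n hn
      have h3 : dEnt (φ (n+k)) = 0 := h1 ⟨n, by omega⟩
      obtain ⟨c, hc⟩ := const_of_dEnt h3
      rw [quot_eqR hd (by omega), hc, expE_cst, ← pE_C]
      exact mul_mem (div_mem (le_acl _ (mem_Cz _)) (le_acl _ (mem_Cz _))) (le_acl _ (mem_Cz _))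
    refine ⟨?_, by simpa using h2 0 (by omega)⟩
    have h4 := part0_Cz (L := fun n => LL G (n+k)) (M := fun n => LL F (n+k))
      (fun n hn => LG_ne hd (by omega)) (fun n hn => LF_ne hd (by omega))
      (fun n hn => hne (n+k) (by omega))
      (fun n hn => by
        have := LL_step hd.hG (n := n+k) (hd.hG0 _ (by omega)) (hd.hG0 _ (by omega))
        rw [show n + 1 + k = n + k + 1 by ring]
        exact this)
      (fun n hn => by
        have := LL_step hd.hF (n := n+k) (hd.hF0 _ (by omega)) (hd.hF0 _ (by omega))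
        rw [show n + 1 + k = n + k + 1 by ring]
        exact this)
      (fun n hn => h2 n (by omega))
    simpa using h4
  · right
    push Not at hall
    obtain ⟨n₀, hn₀, hnot⟩ := hall
    set R' : Subring Om := (acl (Rphi ψ)).toSubring with hR'
    have hgood : GoodR DOm R' :=
      ⟨fun x hx => acl_D DOm (Rphi_good ψ).stable x hx,
        fun x hx => le_acl _ ((Rphi_good ψ).const x hx)⟩
    have hRR : acl R' ≤ acl (Rphi ψ) := acl_mono (fun x hx => hx)
    have hpm : ∀ p : Polynomial ℂ, jj (pE p) ∈ acl (Rphi ψ) := fun p => le_acl _ (pE_mem _ ψ p)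
    have key := alg_total (D := DOm) hgood (z := jj idE) (le_acl _ (id_mem ψ)) (by
        rw [D_jj, dEnt_id, map_one]) (N := 12) (by norm_num)
      (L := fun n => LL G (n+k)) (M := fun n => LL F (n+k))
      (fun n hn => LG_ne hd (by omega)) (fun n hn => LF_ne hd (by omega))
      (fun n hn => hne (n+k) (by omega))
      (fun n hn => by
        have := LL_step hd.hG (n := n+k) (hd.hG0 _ (by omega)) (hd.hG0 _ (by omega))
        rw [show n + 1 + k = n + k + 1 by ring]
        exact this)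
      (fun n hn => by
        have := LL_step hd.hF (n := n+k) (hd.hF0 _ (by omega)) (hd.hF0 _ (by omega))
        rw [show n + 1 + k = n + k + 1 by ring]
        exact this)
      (fun n hn => by
        have h1 := jj_ne (pE_ne (hd.hP (n+k) (by omega)))
        have h2 := jj_ne (pE_ne (hd.hQ (n+k) (by omega)))
        have h3 := jj_ne (expE_ne_zero (φ (n+k)))
        rw [quot_eqR hd (by omega), ld_mul DOm (div_ne_zero h2 h1) h3, ld_jj_exp]
        refine add_mem (ld_mem (Rphi_good ψ) (div_mem (hpm _) (hpm _)))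
          (le_acl _ (dphi_mem ψ ⟨n, by omega⟩)))
      ⟨n₀, hn₀, by
        intro hmem
        apply hnot
        have h1 := hRR hmem
        rw [quot_eqR hd (by omega)] at h1
        have h2 := jj_ne (pE_ne (hd.hP (n₀+k) (by omega)))
        have h3 := jj_ne (pE_ne (hd.hQ (n₀+k) (by omega)))
        have h4 : jj (expE (φ (n₀+k))) = (jj (pE (Q (n₀+k))) / jj (pE (P (n₀+k))) *
            jj (expE (φ (n₀+k)))) * (jj (pE (P (n₀+k))) / jj (pE (Q (n₀+k)))) := by
          field_simp
        rw [h4]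
        exact mul_mem h1 (div_mem (hpm _) (hpm _))⟩
    simp only [zero_add] at key
    rw [add_comm k 1, key]

end

end Pool.Agent.BcfFin
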