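import Pool.Agent.BcfFin.Forms

/-!
The case without exceptions.
-/

set_option autoImplicit false
set_option linter.unusedSectionVars false
set_option linter.unusedVariables false

open Complex
open Pool.Agent.Hhelper32.Bcf

namespace Pool.Agent.BcfFin

theorem poly_ratio {f g : ℂ → ℂ} (hf : Differentiable ℂ f) (hg : Differentiable ℂ g)
    {P p Q q : Polynomial ℂ} (h : ∀ z, f z = P.eval z * Complex.exp (p.eval z))
    (h' : ∀ z, g z = Q.eval z * Complex.exp (q.eval z)) (hf0 : ∃ z, f z ≠ 0) (hg0 : ∃ z, g z ≠ 0)
    (hord : ∀ z, analyticOrderAt f z = analyticOrderAt g z) :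
    P ≠ 0 ∧ Q ≠ 0 ∧ ∃ c : ℂ, c ≠ 0 ∧ P = Polynomial.C c * Q := by
  have hP : P ≠ 0 := by
    rintro rfl
    obtain ⟨z, hz⟩ := hf0
    rw [h] at hz
    simp at hz
  have hQ : Q ≠ 0 := by
    rintro rfl
    obtain ⟨z, hz⟩ := hg0
    rw [h'] at hz
    simp at hz
  obtain ⟨φ, hφ, hfg⟩ := div_unit hf hg hg0 hord
  have hcont : Continuous (fun z => Complex.exp (φ z + q.eval z - p.eval z)) :=
    Complex.continuous_exp.comp ((hφ.continuous.add q.continuous).sub p.continuous)
  obtain ⟨R, hR⟩ := poly_of_mul hcont _ Q P rfl hQ (fun z => by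
    have h1 := hfg z
    rw [h, h'] at h1
    have h2 : Complex.exp (φ z + q.eval z - p.eval z) * Complex.exp (p.eval z) =
        Complex.exp (φ z) * Complex.exp (q.eval z) := by
      rw [← Complex.exp_add, ← Complex.exp_add]
      congr 1
      ring
    apply mul_right_cancel₀ (Complex.exp_ne_zero (p.eval z))
    rw [h1, mul_assoc, h2]
    ring)
  have hdeg : R.degree = 0 := by
    by_contra hcon
    obtain ⟨z, hz⟩ := IsAlgClosed.exists_root R hcon
    have h1 := hR z
    rw [Polynomial.IsRoot.def] at hz
    rw [hz] at h1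
    exact Complex.exp_ne_zero _ h1
  rw [Polynomial.eq_C_of_degree_eq_zero hdeg] at hR
  refine ⟨hP, hQ, R.coeff 0, ?_, ?_⟩
  · intro h0
    have h1 := hR 0
    rw [h0, Polynomial.eval_C] at h1
    exact Complex.exp_ne_zero _ h1
  · apply Polynomial.funext
    intro z
    rw [Polynomial.eval_mul, ← hR]
    have h1 := hfg z
    rw [h, h'] at h1
    have h2 : Complex.exp (φ z + q.eval z - p.eval z) * Complex.exp (p.eval z) =
        Complex.exp (φ z) * Complex.exp (q.eval z) := by
      rw [← Complex.exp_add, ← Complex.exp_add]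
      congr 1
      ring
    apply mul_right_cancel₀ (Complex.exp_ne_zero (p.eval z))
    rw [h1]
    linear_combination -(Q.eval z) * h2

/-- first derivative -/
theorem d1 {f : ℂ → ℂ} {P p : Polynomial ℂ} {m : ℕ}
    (h : ∀ z, iteratedDeriv m f z = P.eval z * Complex.exp (p.eval z)) :
    ∀ z, iteratedDeriv (m+1) f z =
      (Polynomial.derivative P + P * Polynomial.derivative p).eval z * Complex.exp (p.eval z) := by
  intro z
  rw [iteratedDeriv_succ, funext h]
  have h1 : HasDerivAt (fun z => P.eval z * Complex.exp (p.eval z))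
      ((Polynomial.derivative P).eval z * Complex.exp (p.eval z) +
        P.eval z * (Complex.exp (p.eval z) * (Polynomial.derivative p).eval z)) z :=
    (P.hasDerivAt z).mul (p.hasDerivAt z).cexp
  rw [h1.deriv, Polynomial.eval_add, Polynomial.eval_mul]
  ring

/-- a degree argument: `a q'' = b q'^2` -/
theorem deg_arg {q : Polynomial ℂ} {a b : ℂ}
    (h : Polynomial.C a * Polynomial.derivative q = Polynomial.C b * q ^ 2)
    (hab : b = 0 → a ≠ 0) : Polynomial.derivative q = 0 := by
  by_contra hq
  have hq0 : q ≠ 0 := by rintro rfl; simp at hq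
  by_cases hb : b = 0
  · rw [hb, Polynomial.C_0, zero_mul] at h
    rcases mul_eq_zero.mp h with h1 | h1
    · exact hab hb (by simpa using h1)
    · exact hq h1
  · have hd : q.natDegree ≠ 0 := fun h0 => hq (Polynomial.derivative_eq_zero.mpr h0)
    have h1 : (Polynomial.C b * q ^ 2).natDegree = 2 * q.natDegree := by
      rw [Polynomial.natDegree_C_mul hb, Polynomial.natDegree_pow]
    have h2 : (Polynomial.C a * Polynomial.derivative q).natDegree ≤ q.natDegree := by
      refine (Polynomial.natDegree_C_mul_le _ _).trans ?_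
      exact (Polynomial.natDegree_derivative_le q).trans (Nat.sub_le _ _)
    rw [h, h1] at h2
    omega

theorem linear_of {q : Polynomial ℂ}
    (h : Polynomial.derivative (Polynomial.derivative q) = 0) :
    ∃ a b : ℂ, q = Polynomial.C a * Polynomial.X + Polynomial.C b := by
  have h1 : (Polynomial.derivative q).natDegree = 0 := Polynomial.derivative_eq_zero.mp h
  obtain ⟨a, ha⟩ := Polynomial.natDegree_eq_zero.mp h1
  have h2 : Polynomial.derivative (q - Polynomial.C a * Polynomial.X) = 0 := by
    rw [Polynomial.derivative_sub, Polynomial.derivative_C_mul, Polynomial.derivative_X, ← ha,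
      mul_one, sub_self]
  obtain ⟨b, hb⟩ := Polynomial.natDegree_eq_zero.mp (Polynomial.derivative_eq_zero.mp h2)
  exact ⟨a, b, by rw [hb]; ring⟩

theorem exact_of_fam {f g : ℂ → ℂ} (hf : Differentiable ℂ f) (hg : Differentiable ℂ g)
    (hf0 : ∀ n ≤ 2, ∃ z, iteratedDeriv n f z ≠ 0) (hg0 : ∀ n ≤ 2, ∃ z, iteratedDeriv n g z ≠ 0)
    (hord : ∀ n ≤ 2, ∀ z, analyticOrderAt (iteratedDeriv n f) z =
      analyticOrderAt (iteratedDeriv n g) z) (hfg : Fam f g) :
    (∃ c : ℂ, ∀ z : ℂ, f z = c * g z) ∨
    (∃ a b c d : ℂ, ∀ z : ℂ,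
        f z = Complex.exp (a * z + b) ∧ g z = Complex.exp (c * z + d)) ∨
    (∃ a b A B : ℂ, b ≠ 0 ∧ ∀ z : ℂ,
        f z = A * (Complex.exp (a * z) - b) ∧
        g z = B * (Complex.exp (-(a * z)) - b⁻¹)) := by
  have hdd : ∀ n, Differentiable ℂ (iteratedDeriv n f) := iter_diff hf
  have hdd' : ∀ n, Differentiable ℂ (iteratedDeriv n g) := iter_diff hg
  rcases hfg with ⟨c, hc⟩ | ⟨P, p, Q, q, h⟩ | ⟨A, B, p, h⟩
  · exact Or.inl ⟨c, hc⟩
  · have f0 : ∀ z, iteratedDeriv 0 f z = P.eval z * Complex.exp (p.eval z) := fun z => by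
      rw [iteratedDeriv_zero]; exact (h z).1
    have g0 : ∀ z, iteratedDeriv 0 g z = Q.eval z * Complex.exp (q.eval z) := fun z => by
      rw [iteratedDeriv_zero]; exact (h z).2
    have f1 := d1 f0
    have g1 := d1 g0
    have f2 := d1 f1
    have g2 := d1 g1
    obtain ⟨hP, hQ, c₀, hc₀, e0⟩ := poly_ratio (hdd 0) (hdd' 0) f0 g0 (hf0 0 (by omega))
      (hg0 0 (by omega)) (hord 0 (by omega))
    obtain ⟨_, _, c₁, hc₁, e1⟩ := poly_ratio (hdd 1) (hdd' 1) f1 g1 (hf0 1 (by omega))
      (hg0 1 (by omega)) (hord 1 (by omega))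
    obtain ⟨_, _, c₂, hc₂, e2⟩ := poly_ratio (hdd 2) (hdd' 2) f2 g2 (hf0 2 (by omega))
      (hg0 2 (by omega)) (hord 2 (by omega))
    subst e0
    by_cases hcc : c₀ = c₁
    · left
      have h1 : Polynomial.derivative (p - q) = 0 := by
        have h2 : Polynomial.C c₀ * Q * Polynomial.derivative (p - q) = 0 := by
          rw [← hcc] at e1
          simp only [Polynomial.derivative_mul, Polynomial.derivative_C, Polynomial.derivative_sub]
            at e1 ⊢
          linear_combination e1
        rcases mul_eq_zero.mp h2 with h3 | h3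
        · exact absurd h3 hP
        · exact h3
      obtain ⟨k, hk⟩ := Polynomial.natDegree_eq_zero.mp (Polynomial.derivative_eq_zero.mp h1)
      have hpq : p = q + Polynomial.C k := by rw [hk]; ring
      refine ⟨c₀ * Complex.exp k, fun z => ?_⟩
      rw [(h z).1, (h z).2, hpq, Polynomial.eval_add, Polynomial.eval_C, Polynomial.eval_mul,
        Polynomial.eval_C, Complex.exp_add]
      ring
    · right; left
      have h1 : Polynomial.C (c₀ - c₁) * Polynomial.derivative Q =
          Q * (Polynomial.C c₁ * Polynomial.derivative q - Polynomial.C c₀ * Polynomial.derivative p) := by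
        simp only [Polynomial.derivative_mul, Polynomial.derivative_C] at e1
        rw [Polynomial.C_sub]
        linear_combination e1
      have h2 : Polynomial.derivative Q = 0 := by
        by_contra hcon
        have h3 : Q ∣ Polynomial.C (c₀ - c₁) * Polynomial.derivative Q := ⟨_, h1⟩
        have h4 : Polynomial.C (c₀ - c₁) * Polynomial.derivative Q ≠ 0 :=
          mul_ne_zero (Polynomial.C_ne_zero.mpr (sub_ne_zero.mpr hcc)) hcon
        have h5 := Polynomial.natDegree_le_of_dvd h3 h4
        rw [Polynomial.natDegree_C_mul (sub_ne_zero.mpr hcc)] at h5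
        have h6 : Q.natDegree ≠ 0 := fun h0 => hcon (Polynomial.derivative_eq_zero.mpr h0)
        have h7 := Polynomial.natDegree_derivative_lt h6
        omega
      obtain ⟨s, rfl⟩ := Polynomial.natDegree_eq_zero.mp (Polynomial.derivative_eq_zero.mp h2)
      have hs : s ≠ 0 := by
        rintro rfl
        exact hQ Polynomial.C_0
      have hCs : (Polynomial.C s : Polynomial ℂ) ≠ 0 := hQ
      have h3 : Polynomial.C c₁ * Polynomial.derivative q = Polynomial.C c₀ * Polynomial.derivative p := by
        rw [h2, mul_zero] at h1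
        exact sub_eq_zero.mp ((mul_eq_zero.mp h1.symm).resolve_left hCs)
      set r := c₁ / c₀ with hr
      have hr0 : r ≠ 0 := div_ne_zero hc₁ hc₀
      have hr1 : r ≠ 1 := by
        intro h4
        apply hcc
        rw [hr, div_eq_one_iff_eq hc₀] at h4
        exact h4.symm
      have hp' : Polynomial.derivative p = Polynomial.C r * Polynomial.derivative q := by
        have hC0 : (Polynomial.C c₀ : Polynomial ℂ) ≠ 0 := by simpa using hc₀
        apply mul_left_cancel₀ hC0
        rw [← h3, ← mul_assoc, ← Polynomial.C_mul]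
        congr 2
        rw [hr]; field_simp
      have hp'' : Polynomial.derivative (Polynomial.derivative p) =
          Polynomial.C r * Polynomial.derivative (Polynomial.derivative q) := by
        rw [hp', Polynomial.derivative_C_mul]
      have h4 : Polynomial.C (c₀ * r - c₂) * Polynomial.derivative (Polynomial.derivative q) =
          Polynomial.C (c₂ - c₀ * r ^ 2) * (Polynomial.derivative q) ^ 2 := by
        apply mul_left_cancel₀ hCs
        simp only [Polynomial.derivative_mul, Polynomial.derivative_C,
          zero_mul, mul_zero, zero_add, add_zero, hp'] at e2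
        simp only [Polynomial.C_sub, Polynomial.C_mul, Polynomial.C_pow]
        linear_combination e2
      have h5 := deg_arg h4 (fun h6 h7 => by
        have h8 : c₂ = c₀ * r ^ 2 := sub_eq_zero.mp h6
        rw [h8] at h7
        have h9 : c₀ * (r * (1 - r)) = 0 := by linear_combination h7
        rcases mul_eq_zero.mp h9 with h10 | h10
        · exact hc₀ h10
        · rcases mul_eq_zero.mp h10 with h11 | h11
          · exact hr0 h11
          · exact hr1 (sub_eq_zero.mp h11).symm)
      obtain ⟨aq, bq, hq⟩ := linear_of h5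
      obtain ⟨ap, bp, hp⟩ := linear_of (q := p) (by rw [hp'', h5, mul_zero])
      refine ⟨ap, bp + Complex.log (c₀ * s), aq, bq + Complex.log s, fun z => ⟨?_, ?_⟩⟩
      · rw [(h z).1, hp, ← add_assoc, Complex.exp_add _ (Complex.log _),
          Complex.exp_log (mul_ne_zero hc₀ hs)]
        simp only [Polynomial.eval_mul, Polynomial.eval_add, Polynomial.eval_C, Polynomial.eval_X]
        ring
      · rw [(h z).2, hq, ← add_assoc, Complex.exp_add _ (Complex.log _), Complex.exp_log hs]
        simp only [Polynomial.eval_mul, Polynomial.eval_add, Polynomial.eval_C, Polynomial.eval_X]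
        ring
  · right; right
    have f1 : ∀ z, iteratedDeriv 1 f z =
        (Polynomial.C A * Polynomial.derivative p).eval z * Complex.exp (p.eval z) := fun z => by
      rw [iteratedDeriv_one, funext (fun z => (h z).1)]
      have h1 : HasDerivAt (fun z => A * (Complex.exp (p.eval z) - 1))
          (A * (Complex.exp (p.eval z) * (Polynomial.derivative p).eval z)) z :=
        ((p.hasDerivAt z).cexp.sub_const 1).const_mul A
      rw [h1.deriv, Polynomial.eval_mul, Polynomial.eval_C]
      ring
    have g1 : ∀ z, iteratedDeriv 1 g z =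
        (Polynomial.C (-B) * Polynomial.derivative p).eval z * Complex.exp ((-p).eval z) := fun z => by
      rw [iteratedDeriv_one, funext (fun z => (h z).2)]
      have h1 : HasDerivAt (fun z => B * (Complex.exp (-p.eval z) - 1))
          (B * (Complex.exp (-p.eval z) * (-(Polynomial.derivative p).eval z))) z :=
        ((p.hasDerivAt z).neg.cexp.sub_const 1).const_mul B
      rw [h1.deriv, Polynomial.eval_mul, Polynomial.eval_C, Polynomial.eval_neg]
      ring
    have f2 := d1 f1
    have g2 := d1 g1
    obtain ⟨hP, hQ, c₂, hc₂, e2⟩ := poly_ratio (hdd 2) (hdd' 2) f2 g2 (hf0 2 (by omega))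
      (hg0 2 (by omega)) (hord 2 (by omega))
    have hA0 : A ≠ 0 := by
      rintro rfl
      apply hP
      simp
    have h4 : Polynomial.C (A + c₂ * B) * Polynomial.derivative (Polynomial.derivative p) =
        Polynomial.C (c₂ * B - A) * (Polynomial.derivative p) ^ 2 := by
      simp only [Polynomial.derivative_mul, Polynomial.derivative_neg, Polynomial.derivative_C,
        zero_mul, zero_add, Polynomial.C_neg] at e2
      simp only [Polynomial.C_sub, Polynomial.C_mul, Polynomial.C_add]
      linear_combination e2
    have h5 := deg_arg h4 (fun h6 h7 => by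
      have h8 : (2:ℂ) * A = 0 := by linear_combination h7 - h6
      rcases mul_eq_zero.mp h8 with h9 | h9
      · exact two_ne_zero h9
      · exact hA0 h9)
    obtain ⟨a, b, hp⟩ := linear_of h5
    refine ⟨a, Complex.exp (-b), A * Complex.exp b, B * Complex.exp (-b), Complex.exp_ne_zero _,
      fun z => ⟨?_, ?_⟩⟩
    · rw [(h z).1, hp]
      simp only [Polynomial.eval_mul, Polynomial.eval_add, Polynomial.eval_C, Polynomial.eval_X]
      have h6 : Complex.exp b * Complex.exp (-b) = 1 := by
        rw [← Complex.exp_add, add_neg_cancel, Complex.exp_zero]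
      rw [Complex.exp_add]
      linear_combination A * h6
    · rw [(h z).2, hp]
      simp only [Polynomial.eval_mul, Polynomial.eval_add, Polynomial.eval_C, Polynomial.eval_X]
      rw [← Complex.exp_neg, neg_neg]
      have h6 : Complex.exp (-b) * Complex.exp b = 1 := by
        rw [← Complex.exp_add, neg_add_cancel, Complex.exp_zero]
      rw [neg_add, Complex.exp_add]
      linear_combination B * h6

end Pool.Agent.BcfFin
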