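import Pool.Agent.BcfFin.Main

/-!
From functions to the ring of entire functions; the explicit pairs.
-/

set_option autoImplicit false
set_option linter.unusedSectionVars false
set_option linter.unusedVariables false

open Complex
open Pool.Agent.Hhelper32.Bcf

namespace Pool.Agent.BcfFin

theorem iter_diff {f : ℂ → ℂ} (hf : Differentiable ℂ f) : ∀ n, Differentiable ℂ (iteratedDeriv n f) := by
  intro n
  induction n with
  | zero => rw [iteratedDeriv_zero]; exact hf
  | succ n ih => rw [iteratedDeriv_succ]; exact ih.contDiff.differentiable_deriv_two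

/-- the sequence of derivatives -/
noncomputable def sq (f : ℂ → ℂ) (hf : Differentiable ℂ f) (n : ℕ) : Ent :=
  ⟨iteratedDeriv n f, iter_diff hf n⟩

theorem sq_apply (f : ℂ → ℂ) (hf : Differentiable ℂ f) (n : ℕ) : (sq f hf n).1 = iteratedDeriv n f :=
  rfl

theorem d_sq (f : ℂ → ℂ) (hf : Differentiable ℂ f) (n : ℕ) : dEnt (sq f hf n) = sq f hf (n+1) :=
  Subtype.ext (by
    change deriv (iteratedDeriv n f) = iteratedDeriv (n+1) f
    rw [iteratedDeriv_succ])

theorem sq_ne {f : ℂ → ℂ} {hf : Differentiable ℂ f} {n : ℕ} (h : ∃ z, iteratedDeriv n f z ≠ 0) :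
    sq f hf n ≠ 0 := by
  rintro h0
  obtain ⟨z, hz⟩ := h
  exact hz (congrFun (congrArg Subtype.val h0) z)

/-- the three families -/
def Fam (f g : ℂ → ℂ) : Prop :=
  (∃ c : ℂ, ∀ z, f z = c * g z) ∨
  (∃ P p Q q : Polynomial ℂ, ∀ z, f z = P.eval z * Complex.exp (p.eval z) ∧
    g z = Q.eval z * Complex.exp (q.eval z)) ∨
  (∃ A B : ℂ, ∃ p : Polynomial ℂ, ∀ z, f z = A * (Complex.exp (p.eval z) - 1) ∧
    g z = B * (Complex.exp (-p.eval z) - 1))

/-- the weak hypothesis implies the classification -/
theorem fam_of_weak {f g : ℂ → ℂ} (hf : Differentiable ℂ f) (hg : Differentiable ℂ g)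
    (hf0 : ∀ n ≤ 14, ∃ z, iteratedDeriv n f z ≠ 0) (hg0 : ∀ n ≤ 14, ∃ z, iteratedDeriv n g z ≠ 0)
    (h : ∀ n ≤ 13, {z | analyticOrderAt (fun w => iteratedDeriv (n+1) f w * iteratedDeriv n g w) z ≠
      analyticOrderAt (fun w => iteratedDeriv n f w * iteratedDeriv (n+1) g w) z}.Finite) :
    Fam f g := by
  classical
  have hex : ∀ n, ∃ (P Q : Polynomial ℂ) (φ : Ent), n ≤ 13 → (P ≠ 0 ∧ Q ≠ 0 ∧
      pE P * (sq f hf (n+1) * sq g hg n) = pE Q * expE φ * (sq f hf n * sq g hg (n+1))) := by
    intro n
    by_cases hn : n ≤ 13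
    · have hF1 := sq_ne (hf := hf) (hf0 (n+1) (by omega))
      have hF0 := sq_ne (hf := hf) (hf0 n (by omega))
      have hG1 := sq_ne (hf := hg) (hg0 (n+1) (by omega))
      have hG0 := sq_ne (hf := hg) (hg0 n (by omega))
      obtain ⟨P, Q, hP, hQ, φ, hφ, hrel⟩ := exists_ratio
        (U := fun w => iteratedDeriv (n+1) f w * iteratedDeriv n g w)
        (V := fun w => iteratedDeriv n f w * iteratedDeriv (n+1) g w)
        ((iter_diff hf _).mul (iter_diff hg _)) ((iter_diff hf _).mul (iter_diff hg _))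
        (Ent_ne (mul_ne_zero hF1 hG0)) (Ent_ne (mul_ne_zero hF0 hG1)) (h n hn) (fun z hz => by
          by_contra hcon
          exact hz hcon)
      refine ⟨P, Q, ⟨φ, hφ⟩, fun _ => ⟨hP, hQ, Ent.ext (fun z => ?_)⟩⟩
      change (pE P).1 z * (iteratedDeriv (n+1) f z * iteratedDeriv n g z) =
        (pE Q).1 z * Complex.exp (φ z) * (iteratedDeriv n f z * iteratedDeriv (n+1) g z)
      rw [pE_apply, pE_apply]
      exact hrel z
    · exact ⟨0, 0, 0, fun h1 => absurd h1 hn⟩
  choose P Q φ hPQ using hex
  have hd : DatR (sq f hf) (sq g hg) P Q φ :=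
    ⟨d_sq f hf, d_sq g hg, fun n hn => sq_ne (hf0 n hn), fun n hn => sq_ne (hg0 n hn),
      fun n hn => (hPQ n hn).1, fun n hn => (hPQ n hn).2.1, fun n hn => (hPQ n hn).2.2⟩
  have e1 : ∀ z, (sq f hf 0).1 z = f z := fun z => by rw [sq_apply, iteratedDeriv_zero]
  have e2 : ∀ z, (sq g hg 0).1 z = g z := fun z => by rw [sq_apply, iteratedDeriv_zero]
  rcases main_R hd with ⟨c, hc⟩ | ⟨S, p, T, q, hS, hT⟩ | ⟨A, B, p, hA, hB⟩
  · left
    refine ⟨c, fun z => ?_⟩
    rw [← e1, ← e2, hc]
    rfl
  · right; left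
    refine ⟨S, p, T, q, fun z => ⟨?_, ?_⟩⟩
    · rw [← e1, hS]
      change (pE S).1 z * Complex.exp ((pE p).1 z) = _
      rw [pE_apply, pE_apply]
    · rw [← e2, hT]
      change (pE T).1 z * Complex.exp ((pE q).1 z) = _
      rw [pE_apply, pE_apply]
  · right; right
    refine ⟨A, B, p, fun z => ⟨?_, ?_⟩⟩
    · rw [← e1, hA]
      change A * (Complex.exp ((pE p).1 z) - 1) = _
      rw [pE_apply]
    · rw [← e2, hB]
      change B * (Complex.exp (-(pE p).1 z) - 1) = _
      rw [pE_apply]

/-- the strong hypothesis implies the weak one -/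
theorem weak_of_strong {f g : ℂ → ℂ} (hf : Differentiable ℂ f) (hg : Differentiable ℂ g) {n : ℕ}
    (h : {z | analyticOrderAt (iteratedDeriv n f) z ≠ analyticOrderAt (iteratedDeriv n g) z}.Finite)
    (h' : {z | analyticOrderAt (iteratedDeriv (n+1) f) z ≠
      analyticOrderAt (iteratedDeriv (n+1) g) z}.Finite) :
    {z | analyticOrderAt (fun w => iteratedDeriv (n+1) f w * iteratedDeriv n g w) z ≠
      analyticOrderAt (fun w => iteratedDeriv n f w * iteratedDeriv (n+1) g w) z}.Finite := by
  apply (h.union h').subset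
  intro z hz
  by_contra hcon
  apply hz
  rw [Set.mem_union, not_or] at hcon
  have h1 : analyticOrderAt (iteratedDeriv n f) z = analyticOrderAt (iteratedDeriv n g) z := by
    by_contra h2; exact hcon.1 h2
  have h2 : analyticOrderAt (iteratedDeriv (n+1) f) z = analyticOrderAt (iteratedDeriv (n+1) g) z := by
    by_contra h2; exact hcon.2 h2
  have e1 : analyticOrderAt (fun w => iteratedDeriv (n+1) f w * iteratedDeriv n g w) z =
      analyticOrderAt (iteratedDeriv (n+1) f) z + analyticOrderAt (iteratedDeriv n g) z :=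
    analyticOrderAt_mul ((iter_diff hf _).analyticAt z) ((iter_diff hg _).analyticAt z)
  have e2 : analyticOrderAt (fun w => iteratedDeriv n f w * iteratedDeriv (n+1) g w) z =
      analyticOrderAt (iteratedDeriv n f) z + analyticOrderAt (iteratedDeriv (n+1) g) z :=
    analyticOrderAt_mul ((iter_diff hf _).analyticAt z) ((iter_diff hg _).analyticAt z)
  rw [e1, e2, h1, h2, add_comm]

/-- derivatives of `P e^p` -/
theorem iter_exp {f : ℂ → ℂ} {P p : Polynomial ℂ} (m : ℕ)
    (h : ∀ z, iteratedDeriv m f z = P.eval z * Complex.exp (p.eval z)) : ∀ n, m ≤ n →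
    ∃ P' : Polynomial ℂ, ∀ z, iteratedDeriv n f z = P'.eval z * Complex.exp (p.eval z) := by
  intro n hn
  induction n, hn using Nat.le_induction with
  | base => exact ⟨P, h⟩
  | succ n hn ih =>
    obtain ⟨P', hP'⟩ := ih
    refine ⟨Polynomial.derivative P' + P' * Polynomial.derivative p, fun z => ?_⟩
    rw [iteratedDeriv_succ, funext hP']
    have h1 : HasDerivAt (fun z => P'.eval z * Complex.exp (p.eval z))
        ((Polynomial.derivative P').eval z * Complex.exp (p.eval z) +
          P'.eval z * (Complex.exp (p.eval z) * (Polynomial.derivative p).eval z)) z :=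
      (P'.hasDerivAt z).mul (p.hasDerivAt z).cexp
    rw [h1.deriv, Polynomial.eval_add, Polynomial.eval_mul]
    ring

theorem ord_exp {f : ℂ → ℂ} (hf : Differentiable ℂ f) {P p : Polynomial ℂ}
    (h : ∀ z, f z = P.eval z * Complex.exp (p.eval z)) {z : ℂ} (hz : P.eval z ≠ 0) :
    analyticOrderAt f z = 0 := by
  rw [(hf.analyticAt z).analyticOrderAt_eq_zero, h]
  exact mul_ne_zero hz (Complex.exp_ne_zero _)

theorem fin_exp {f g : ℂ → ℂ} (hf : Differentiable ℂ f) (hg : Differentiable ℂ g)
    {P p Q q : Polynomial ℂ} (h : ∀ z, f z = P.eval z * Complex.exp (p.eval z))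
    (h' : ∀ z, g z = Q.eval z * Complex.exp (q.eval z)) (hf0 : ∃ z, f z ≠ 0) (hg0 : ∃ z, g z ≠ 0) :
    {z | analyticOrderAt f z ≠ analyticOrderAt g z}.Finite := by
  have hP : P ≠ 0 := by
    rintro rfl
    obtain ⟨z, hz⟩ := hf0
    rw [h] at hz
    simp at hz
  have hQ : Q ≠ 0 := by
    rintro rfl
    obtain ⟨z, hz⟩ := hg0
    rw [h'] at hz
    simp at hz
  apply ((Polynomial.finite_setOfPred_isRoot hP).union (Polynomial.finite_setOfPred_isRoot hQ)).subset
  intro z hz
  by_contra hcon
  rw [Set.mem_union, not_or] at hcon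
  apply hz
  rw [ord_exp hf h hcon.1, ord_exp hg h' hcon.2]

/-- converse -/
theorem strong_of_fam {f g : ℂ → ℂ} (hf : Differentiable ℂ f) (hg : Differentiable ℂ g)
    (hfg : Fam f g) (n : ℕ) (hf0 : ∀ m ≤ n, ∃ z, iteratedDeriv m f z ≠ 0)
    (hg0 : ∀ m ≤ n, ∃ z, iteratedDeriv m g z ≠ 0) :
    {z | analyticOrderAt (iteratedDeriv n f) z ≠ analyticOrderAt (iteratedDeriv n g) z}.Finite := by
  rcases hfg with ⟨c, hc⟩ | ⟨P, p, Q, q, h⟩ | ⟨A, B, p, h⟩
  · have hc0 : c ≠ 0 := by
      rintro rfl
      obtain ⟨z, hz⟩ := hf0 0 (Nat.zero_le _)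
      rw [iteratedDeriv_zero, hc, zero_mul] at hz
      exact hz rfl
    convert Set.finite_empty
    apply Set.eq_empty_of_forall_notMem
    intro z hz
    apply hz
    have h1 : iteratedDeriv n f = fun z => c * iteratedDeriv n g z := by
      have : f = fun z => c * g z := funext hc
      rw [this]
      funext w
      exact iteratedDeriv_const_mul_field c g
    have h2 : analyticOrderAt (fun z => c * iteratedDeriv n g z) z =
        analyticOrderAt (fun _ : ℂ => c) z + analyticOrderAt (iteratedDeriv n g) z :=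
      analyticOrderAt_mul analyticAt_const ((iter_diff hg n).analyticAt z)
    rw [h1, h2, (analyticAt_const.analyticOrderAt_eq_zero).mpr hc0, zero_add]
  · obtain ⟨P', hP'⟩ := iter_exp (f := f) 0 (fun z => by rw [iteratedDeriv_zero]; exact (h z).1) n
      (Nat.zero_le _)
    obtain ⟨Q', hQ'⟩ := iter_exp (f := g) 0 (fun z => by rw [iteratedDeriv_zero]; exact (h z).2) n
      (Nat.zero_le _)
    exact fin_exp (iter_diff hf n) (iter_diff hg n) hP' hQ' (hf0 n le_rfl) (hg0 n le_rfl)
  · rcases Nat.eq_zero_or_pos n with rfl | hn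
    · rw [iteratedDeriv_zero, iteratedDeriv_zero]
      convert Set.finite_empty
      apply Set.eq_empty_of_forall_notMem
      intro z hz
      apply hz
      have hA0 : A ≠ 0 := by
        rintro rfl
        obtain ⟨z, hz⟩ := hf0 0 le_rfl
        rw [iteratedDeriv_zero, (h z).1, zero_mul] at hz
        exact hz rfl
      have hB0 : B ≠ 0 := by
        rintro rfl
        obtain ⟨z, hz⟩ := hg0 0 le_rfl
        rw [iteratedDeriv_zero, (h z).2, zero_mul] at hz
        exact hz rfl
      have h1 : g = fun z => (-(B / A) * Complex.exp (-p.eval z)) * f z := by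
        funext w
        rw [(h w).1, (h w).2]
        have h3 : Complex.exp (-p.eval w) * Complex.exp (p.eval w) = 1 := by
          rw [← Complex.exp_add, neg_add_cancel, Complex.exp_zero]
        field_simp
        linear_combination h3
      have hk : Differentiable ℂ (fun z => -(B / A) * Complex.exp (-p.eval z)) :=
        (p.differentiable.neg.cexp).const_mul _
      have h2 : analyticOrderAt (fun z => (-(B / A) * Complex.exp (-p.eval z)) * f z) z =
          analyticOrderAt (fun z => -(B / A) * Complex.exp (-p.eval z)) z + analyticOrderAt f z :=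
        analyticOrderAt_mul (hk.analyticAt z) (hf.analyticAt z)
      rw [h1, h2, ((hk.analyticAt z).analyticOrderAt_eq_zero).mpr (mul_ne_zero
        (neg_ne_zero.mpr (div_ne_zero hB0 hA0)) (Complex.exp_ne_zero _)), zero_add]
    · obtain ⟨P', hP'⟩ := iter_exp (f := f) (P := Polynomial.C A * Polynomial.derivative p) (p := p) 1
        (fun z => by
          rw [iteratedDeriv_one, funext (fun z => (h z).1)]
          have h1 : HasDerivAt (fun z => A * (Complex.exp (p.eval z) - 1))
              (A * (Complex.exp (p.eval z) * (Polynomial.derivative p).eval z)) z :=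
            ((p.hasDerivAt z).cexp.sub_const 1).const_mul A
          rw [h1.deriv, Polynomial.eval_mul, Polynomial.eval_C]
          ring) n hn
      obtain ⟨Q', hQ'⟩ := iter_exp (f := g) (P := Polynomial.C (-B) * Polynomial.derivative p)
        (p := -p) 1 (fun z => by
          rw [iteratedDeriv_one, funext (fun z => (h z).2)]
          have h1 : HasDerivAt (fun z => B * (Complex.exp (-p.eval z) - 1))
              (B * (Complex.exp (-p.eval z) * (-(Polynomial.derivative p).eval z))) z :=
            ((p.hasDerivAt z).neg.cexp.sub_const 1).const_mul B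
          rw [h1.deriv, Polynomial.eval_mul, Polynomial.eval_C, Polynomial.eval_neg]
          ring) n hn
      exact fin_exp (iter_diff hf n) (iter_diff hg n) hP' hQ' (hf0 n le_rfl) (hg0 n le_rfl)

end Pool.Agent.BcfFin
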