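import Pool.Agent.BcfFin.Rat

/-!
The main theorem in the ring of entire functions.
-/

set_option autoImplicit false
set_option linter.unusedSectionVars false
set_option linter.unusedVariables false

open Complex
open Pool.Agent.Hhelper32.Bcf

namespace Pool.Agent.BcfFin

/-- Borel type lemma: `a e^(-φ) - b e^(-k) = e` with nonzero polynomials `a, b, e`. -/
theorem borel2 {a b e : Polynomial ℂ} (ha : a ≠ 0) (hb : b ≠ 0) (he : e ≠ 0) {φ k : Ent}
    (h : pE a * expE k - pE b * expE φ = pE e * (expE φ * expE k)) :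
    dEnt φ = 0 ∧ dEnt k = 0 := by
  set f : Fin 2 → Ent := ![φ, k] with hf
  have hgood := Rphi_good f
  set x := jj (expE φ) with hx
  set y := jj (expE k) with hy
  have hx0 : x ≠ 0 := jj_ne (expE_ne_zero φ)
  have hy0 : y ≠ 0 := jj_ne (expE_ne_zero k)
  set a' := jj (pE a) with ha'
  set b' := jj (pE b) with hb'
  set e' := jj (pE e) with he'
  have ha0 : a' ≠ 0 := jj_ne (pE_ne ha)
  have hb0 : b' ≠ 0 := jj_ne (pE_ne hb)
  have he0 : e' ≠ 0 := jj_ne (pE_ne he)
  have ham : a' ∈ acl (Rphi f) := le_acl _ (pE_mem _ f a)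
  have hbm : b' ∈ acl (Rphi f) := le_acl _ (pE_mem _ f b)
  have hem : e' ∈ acl (Rphi f) := le_acl _ (pE_mem _ f e)
  have h1 : a' * y - b' * x = e' * (x * y) := by
    have := congrArg jj h
    simpa only [map_sub, map_mul] using this
  have h2 : a' * x⁻¹ - b' * y⁻¹ = e' := by
    field_simp
    linear_combination h1
  have hldx : ld DOm x⁻¹ = - jj (dEnt φ) := by rw [ld_inv DOm hx0, hx, ld_jj_exp]
  have hldy : ld DOm y⁻¹ = - jj (dEnt k) := by rw [ld_inv DOm hy0, hy, ld_jj_exp]
  have hφm : jj (dEnt φ) ∈ acl (Rphi f) := le_acl _ (dphi_mem f 0)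
  have hkm : jj (dEnt k) ∈ acl (Rphi f) := le_acl _ (dphi_mem f 1)
  have hX0 : x⁻¹ ≠ 0 := inv_ne_zero hx0
  have hY0 : y⁻¹ ≠ 0 := inv_ne_zero hy0
  have hlda : ld DOm (a' * x⁻¹) = ld DOm a' - jj (dEnt φ) := by
    rw [ld_mul DOm ha0 hX0, hldx]; ring
  have hldb : ld DOm (b' * y⁻¹) = ld DOm b' - jj (dEnt k) := by
    rw [ld_mul DOm hb0 hY0, hldy]; ring
  have hlae : ld DOm a' - jj (dEnt φ) ∈ acl (Rphi f) := sub_mem (ld_mem hgood ham) hφm
  have hlbe : ld DOm b' - jj (dEnt k) ∈ acl (Rphi f) := sub_mem (ld_mem hgood hbm) hkm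
  set α := ld DOm a' - jj (dEnt φ) with hα
  set β := ld DOm b' - jj (dEnt k) with hβ
  have hD : α * (a' * x⁻¹) - β * (b' * y⁻¹) = DOm e' := by
    rw [← h2, map_sub, ld_eq DOm (mul_ne_zero ha0 hX0), ld_eq DOm (mul_ne_zero hb0 hY0), hlda,
      hldb]
  have hDe : DOm e' ∈ acl (Rphi f) := acl_D DOm hgood.stable _ hem
  have hYm : y⁻¹ ∈ acl (Rphi f) ∧ x⁻¹ ∈ acl (Rphi f) := by
    by_cases hαβ : α - β = 0
    · -- then both are proportional to e
      have h3 : α * e' = DOm e' := by
        rw [← hD, ← h2]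
        linear_combination (-(b' * y⁻¹)) * hαβ
      have h4 : ld DOm (a' * x⁻¹ / e') = 0 := by
        rw [ld_div DOm (mul_ne_zero ha0 hX0) he0, hlda]
        have h5 : ld DOm e' = α := by unfold ld; rw [← h3]; field_simp
        rw [h5, sub_self]
      have hne : a' * x⁻¹ / e' ≠ 0 := div_ne_zero (mul_ne_zero ha0 hX0) he0
      obtain ⟨γ, hγ⟩ := Om_const' (x := a' * x⁻¹ / e') (by rw [ld_eq DOm hne, h4, zero_mul])
      have hγm : jj (cst γ) ∈ acl (Rphi f) := le_acl _ (mem_Rphi (GB.const Aphi_ge γ))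
      have hxm : x⁻¹ ∈ acl (Rphi f) := by
        have : x⁻¹ = jj (cst γ) * e' / a' := by rw [← hγ]; field_simp
        rw [this]
        exact div_mem (mul_mem hγm hem) ham
      refine ⟨?_, hxm⟩
      have : y⁻¹ = (a' * x⁻¹ - e') / b' := by rw [← h2]; field_simp; ring
      rw [this]
      exact div_mem (sub_mem (mul_mem ham hxm) hem) hbm
    · have h3 : b' * y⁻¹ * (α - β) = DOm e' - α * e' := by
        rw [← hD, ← h2]; ring
      have hym : y⁻¹ ∈ acl (Rphi f) := by
        have : y⁻¹ = (DOm e' - α * e') / ((α - β) * b') := by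
          rw [← h3]; field_simp
        rw [this]
        exact div_mem (sub_mem hDe (mul_mem hlae hem)) (mul_mem (sub_mem hlae hlbe) hbm)
      refine ⟨hym, ?_⟩
      have : x⁻¹ = (e' + b' * y⁻¹) / a' := by rw [← h2]; field_simp; ring
      rw [this]
      exact div_mem (add_mem hem (mul_mem hbm hym)) ham
  have hxm : x ∈ acl (Rphi f) := by
    have := inv_mem hYm.2
    rwa [inv_inv] at this
  have hym : y ∈ acl (Rphi f) := by
    have := inv_mem hYm.1
    rwa [inv_inv] at this
  have h6 := F1 f (fun i => by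
    fin_cases i
    · exact hxm
    · exact hym)
  exact ⟨h6 0, h6 1⟩

section
variable {F G : ℕ → Ent} {P Q : ℕ → Polynomial ℂ} {φ : ℕ → Ent}

theorem poly_down {F : ℕ → Ent} (hF : ∀ n, dEnt (F n) = F (n+1)) :
    ∀ n, (∃ p : Polynomial ℂ, F n = pE p) → ∃ p : Polynomial ℂ, F 0 = pE p := by
  intro n
  induction n with
  | zero => exact fun h => h
  | succ n ih =>
    rintro ⟨p, hp⟩
    exact ih (pE_of_dEnt (by rw [hF, hp]))

theorem cst_ne {c : ℂ} (hc : c ≠ 0) : cst c ≠ 0 := fun h =>
  hc (congrFun (congrArg Subtype.val h) 0)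

theorem caseA_R (hd : DatR F G P Q φ) : ∀ n ≤ 13, (∃ c : ℂ, c ≠ 0 ∧ F n = cst c * G n) →
    (∃ c : ℂ, F 0 = cst c * G 0) ∨ (∃ p q : Polynomial ℂ, F 0 = pE p ∧ G 0 = pE q) := by
  intro n
  induction n with
  | zero =>
    rintro _ ⟨c, _, hc⟩
    exact Or.inl ⟨c, hc⟩
  | succ n ih =>
    rintro hn ⟨c, hc, h1⟩
    have h2 : dEnt (F n - cst c * G n) = 0 := by
      rw [map_sub, Derivation.leibniz, dEnt_cst, hd.hF, hd.hG, h1]; simp
    obtain ⟨p, hp⟩ := const_of_dEnt h2
    by_cases hp0 : p = 0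
    · apply ih (by omega)
      refine ⟨c, hc, ?_⟩
      rw [hp0, map_zero] at hp
      exact sub_eq_zero.mp hp
    · right
      have hG1 : G (n+1) ≠ 0 := hd.hG0 (n+1) (by omega)
      have hFn : F n = cst c * G n + cst p := by rw [← hp]; ring
      have hrel : cst c * pE (P n) * G n = pE (Q n) * expE (φ n) * (cst c * G n + cst p) := by
        apply mul_right_cancel₀ hG1
        have h3 := hd.rel n (by omega)
        rw [h1, hFn] at h3
        linear_combination h3
      have hGn : G n ≠ 0 := hd.hG0 n (by omega)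
      have hQn := hd.hQ n (by omega)
      have hPn := hd.hP n (by omega)
      have hfin : {z | (G n).1 z = 0}.Finite := by
        apply (Polynomial.finite_setOfPred_isRoot hQn).subset
        intro z hz
        have hz' : (G n).1 z = 0 := hz
        have h4 := congrFun (congrArg Subtype.val hrel) z
        have h5 : c * (pE (P n)).1 z * (G n).1 z = (pE (Q n)).1 z * Complex.exp ((φ n).1 z) *
            (c * (G n).1 z + p) := h4
        rw [hz', mul_zero, mul_zero, zero_add] at h5
        have h6 : (pE (Q n)).1 z = 0 := by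
          rcases mul_eq_zero.mp h5.symm with h7 | h7
          · rcases mul_eq_zero.mp h7 with h8 | h8
            · exact h8
            · exact absurd h8 (Complex.exp_ne_zero _)
          · exact absurd h7 hp0
        rw [pE_apply] at h6
        exact h6
      obtain ⟨S, hS, k, hGS⟩ := fin_zeros hGn hfin
      have hCc : (Polynomial.C c : Polynomial ℂ) ≠ 0 := by simpa using hc
      have hCp : (Polynomial.C p : Polynomial ℂ) ≠ 0 := by simpa using hp0
      have hb := borel2 (a := Polynomial.C c * P n * S) (b := Polynomial.C p * Q n)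
        (e := Polynomial.C c * Q n * S) (φ := φ n) (k := k)
        (mul_ne_zero (mul_ne_zero hCc hPn) hS) (mul_ne_zero hCp hQn)
        (mul_ne_zero (mul_ne_zero hCc hQn) hS) (by
          rw [hGS] at hrel
          simp only [map_mul, pE_C]
          linear_combination hrel)
      obtain ⟨k₀, hk₀⟩ := const_of_dEnt hb.2
      have hGp : G n = pE (S * Polynomial.C (Complex.exp k₀)) := by
        rw [hGS, hk₀, expE_cst, map_mul, pE_C]
      have hFp : F n = pE (Polynomial.C c * (S * Polynomial.C (Complex.exp k₀)) + Polynomial.C p) := by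
        rw [hFn, hGp, map_add, map_mul (pE) (Polynomial.C c), pE_C, pE_C]
      obtain ⟨p₁, hp₁⟩ := poly_down hd.hF n ⟨_, hFp⟩
      obtain ⟨p₂, hp₂⟩ := poly_down hd.hG n ⟨_, hGp⟩
      exact ⟨p₁, p₂, hp₁, hp₂⟩

theorem expE_zero : expE 0 = 1 := Ent.ext (fun z => by
  change Complex.exp 0 = 1
  exact Complex.exp_zero)

theorem expE_neg (f : Ent) : expE (-f) * expE f = 1 := Ent.ext (fun z => by
  change Complex.exp (-f.1 z) * Complex.exp (f.1 z) = 1
  rw [← Complex.exp_add, neg_add_cancel, Complex.exp_zero])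

theorem DOm_one : DOm (1 : Om) = 0 := by
  have := D_jj 1
  rw [map_one] at this
  rw [this]
  have h2 : dEnt 1 = 0 := dEnt.map_one_eq_zero
  rw [h2, map_zero]

/-- **Main theorem in the ring of entire functions.** -/
theorem main_R (hd : DatR F G P Q φ) :
    (∃ c : ℂ, F 0 = cst c * G 0) ∨
    (∃ S p T q : Polynomial ℂ, F 0 = pE S * expE (pE p) ∧ G 0 = pE T * expE (pE q)) ∨
    (∃ A B : ℂ, ∃ p : Polynomial ℂ, F 0 = cst A * (expE (pE p) - 1) ∧
      G 0 = cst B * (expE (-pE p) - 1)) := by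
  by_cases hA : ∃ n ≤ 13, LL F n = LL G n
  · obtain ⟨n, hn, h0⟩ := hA
    have hF0 := jj_ne (hd.hF0 n (by omega))
    have hG0 := jj_ne (hd.hG0 n (by omega))
    have hne : jj (F n) / jj (G n) ≠ 0 := div_ne_zero hF0 hG0
    have h1 : ld DOm (jj (F n) / jj (G n)) = 0 := by
      rw [ld_div DOm hF0 hG0, ← LL_eq hd.hF, ← LL_eq hd.hG, h0, sub_self]
    obtain ⟨c, hc⟩ := Om_const' (x := jj (F n) / jj (G n)) (by rw [ld_eq DOm hne, h1, zero_mul])
    have hc0 : c ≠ 0 := by
      rintro rfl
      rw [map_zero, map_zero] at hc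
      exact hne hc
    rcases caseA_R hd n hn ⟨c, hc0, jj_inj (by rw [map_mul, ← hc]; field_simp)⟩ with h2 | ⟨p, q, hp, hq⟩
    · exact Or.inl h2
    · refine Or.inr (Or.inl ⟨p, 0, q, 0, ?_, ?_⟩)
      · rw [hp, map_zero, expE_zero, mul_one]
      · rw [hq, map_zero, expE_zero, mul_one]
  push Not at hA
  right
  have hjF := jj_ne (hd.hF0 0 (by omega))
  have hjG := jj_ne (hd.hG0 0 (by omega))
  have hL := LG_ne hd (n := 0) (by omega)
  have hM := LF_ne hd (n := 0) (by omega)
  set u := LL F 0 - LL G 0 with hu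
  have hu0 : u ≠ 0 := sub_ne_zero.mpr (hA 0 (by omega))
  set E := LL F 0 / LL G 0 with hE
  have hE0 : E ≠ 0 := div_ne_zero hM hL
  have hF : LL F 0 = E * LL G 0 := by rw [hE]; field_simp
  have hL1 : LL G 0 * (E - 1) = u := by rw [hu, hF]; ring
  have hE1 : E - 1 ≠ 0 := by
    intro h; rw [h, mul_zero] at hL1; exact hu0 hL1.symm
  have hLG : LL G 0 = u / (E - 1) := by field_simp; exact hL1
  rcases windowR hd hA (k := 0) (by norm_num) with ⟨hw1, hw2⟩ | h10
  · left
    have hLGm : LL G 0 ∈ acl Cz := by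
      rw [hLG]
      exact div_mem hw1 (sub_mem hw2 (one_mem _))
    have hLFm : LL F 0 ∈ acl Cz := by
      rw [hF]
      exact mul_mem hw2 hLGm
    have e1 : jj (dEnt (G 0)) / jj (G 0) ∈ acl Cz := by
      have : LL G 0 = jj (dEnt (G 0)) / jj (G 0) := by unfold LL; rw [hd.hG]
      rw [← this]; exact hLGm
    have e2 : jj (dEnt (F 0)) / jj (F 0) ∈ acl Cz := by
      have : LL F 0 = jj (dEnt (F 0)) / jj (F 0) := by unfold LL; rw [hd.hF]
      rw [← this]; exact hLFm
    obtain ⟨S, p, _, hS⟩ := exp_form (hd.hF0 0 (by omega)) e2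
    obtain ⟨T, q, _, hT⟩ := exp_form (hd.hG0 0 (by omega)) e1
    exact ⟨S, p, T, q, hS, hT⟩
  · right
    rw [zero_add, ← hu] at h10
    have hstepG := LL_step hd.hG (n := 0) (hd.hG0 _ (by omega)) (hd.hG0 _ (by omega))
    have hstepF := LL_step hd.hF (n := 0) (hd.hF0 _ (by omega)) (hd.hF0 _ (by omega))
    rw [zero_add] at hstepG hstepF
    have hldE : ld DOm E = u := by
      rw [hE, ld_div DOm hM hL]
      linear_combination h10 - hstepF + hstepG
    have hDE : DOm E = u * E := by rw [ld_eq DOm hE0, hldE]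
    have hldE1 : ld DOm (E - 1) = u * E / (E - 1) := by
      unfold ld
      rw [map_sub, hDE, DOm_one, sub_zero]
    obtain ⟨C, hC⟩ : ∃ C : ℂ, jj (G 0) * E = jj (cst C) * (E - 1) := by
      have hne : jj (G 0) * E / (E - 1) ≠ 0 := div_ne_zero (mul_ne_zero hjG hE0) hE1
      have h2 : ld DOm (jj (G 0) * E / (E - 1)) = 0 := by
        rw [ld_div DOm (mul_ne_zero hjG hE0) hE1, ld_mul DOm hjG hE0, ← LL_eq hd.hG, hLG, hldE,
          hldE1]
        field_simp
        ring
      obtain ⟨C, hC⟩ := Om_const' (x := jj (G 0) * E / (E - 1)) (by rw [ld_eq DOm hne, h2, zero_mul])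
      exact ⟨C, by rw [← hC]; field_simp⟩
    obtain ⟨C', hC'⟩ : ∃ C' : ℂ, jj (F 0) = jj (cst C') * (E - 1) := by
      have hne : jj (F 0) / (E - 1) ≠ 0 := div_ne_zero hjF hE1
      have h2 : ld DOm (jj (F 0) / (E - 1)) = 0 := by
        rw [ld_div DOm hjF hE1, ← LL_eq hd.hF, hF, hLG, hldE1]
        field_simp
        ring
      obtain ⟨C', hC'⟩ := Om_const' (x := jj (F 0) / (E - 1)) (by rw [ld_eq DOm hne, h2, zero_mul])
      exact ⟨C', by rw [← hC']; field_simp⟩
    have hC'0 : C' ≠ 0 := by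
      rintro rfl
      rw [map_zero, map_zero, zero_mul] at hC'
      exact hjF hC'
    have hC0 : C ≠ 0 := by
      rintro rfl
      rw [map_zero, map_zero, zero_mul] at hC
      exact mul_ne_zero hjG hE0 hC
    have hcc : cst C'⁻¹ * cst C' = 1 := by rw [← map_mul, inv_mul_cancel₀ hC'0, map_one]
    set e : Ent := 1 + cst C'⁻¹ * F 0 with he
    have hjcc : jj (cst C'⁻¹) * jj (cst C') = 1 := by rw [← map_mul, hcc, map_one]
    have hjE : jj e = E := by
      rw [he, map_add, map_mul, map_one, hC']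
      linear_combination (E - 1) * hjcc
    have hunit : e * (cst C - G 0) = cst C := by
      apply jj_inj
      rw [map_mul, map_sub, hjE]
      linear_combination -hC
    have hez : ∀ z, e.1 z ≠ 0 := by
      intro z hz
      have h1 : e.1 z * (C - (G 0).1 z) = C := congrFun (congrArg Subtype.val hunit) z
      rw [hz, zero_mul] at h1
      exact hC0 h1.symm
    obtain ⟨ψ, hψ⟩ := exists_log e hez
    have hEψ : E = jj (expE ψ) := by rw [← hjE, hψ]
    have huψ : u = jj (dEnt ψ) := by rw [← hldE, hEψ, ld_jj_exp]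
    have hFψ : F 0 = cst C' * (expE ψ - 1) := by
      apply jj_inj
      rw [hC', map_mul, map_sub, map_one, hEψ]
    have hGψ : G 0 = cst (-C) * (expE (-ψ) - 1) := by
      apply mul_right_cancel₀ (expE_ne_zero ψ)
      have h1 : G 0 * expE ψ = cst C * (expE ψ - 1) := by
        apply jj_inj
        rw [map_mul, map_mul, map_sub, map_one, ← hEψ, hC]
      rw [h1, mul_assoc, sub_mul, expE_neg, map_neg, one_mul]
      ring
    rcases windowR hd hA (k := 1) le_rfl with ⟨hw1, hw2⟩ | h21
    · rw [h10, huψ] at hw1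
      have h2m : (2 : Om) ∈ acl Cz := by exact_mod_cast natCast_mem (acl Cz) 2
      have hm : jj (dEnt ψ) / jj (1 : Ent) ∈ acl Cz := by
        rw [map_one, div_one]
        have : jj (dEnt ψ) = 2 * jj (dEnt ψ) / 2 := by ring
        rw [this]
        exact div_mem hw1 h2m
      obtain ⟨a, b, ha, hab⟩ := rat_of_alg one_ne_zero hm
      rw [mul_one] at hab
      obtain ⟨p', hp'⟩ := pE_of_mul ha hab
      obtain ⟨p, hp⟩ := pE_of_dEnt hp'
      exact ⟨C', -C, p, by rw [hFψ, hp], by rw [hGψ, hp]⟩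
    · exfalso
      norm_num at h21
      have hL1n := LG_ne hd (n := 1) (by omega)
      have hM1n := LF_ne hd (n := 1) (by omega)
      have hstepG1 := LL_step hd.hG (n := 1) (hd.hG0 _ (by omega)) (hd.hG0 _ (by omega))
      have hstepF1 := LL_step hd.hF (n := 1) (hd.hF0 _ (by omega)) (hd.hF0 _ (by omega))
      norm_num at hstepG1 hstepF1
      set E1 := LL F 1 / LL G 1 with hE1d
      have hE10 : E1 ≠ 0 := div_ne_zero hM1n hL1n
      have hldE1' : ld DOm E1 = 2 * u := by
        rw [hE1d, ld_div DOm hM1n hL1n]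
        linear_combination h21 + h10 - hstepF1 + hstepG1
      have hne : E1 / E ^ 2 ≠ 0 := div_ne_zero hE10 (pow_ne_zero _ hE0)
      obtain ⟨γ, hγ⟩ := Om_const' (x := E1 / E ^ 2) (by
        rw [ld_eq DOm hne, ld_div DOm hE10 (pow_ne_zero _ hE0), ld_pow DOm hE0, hldE, hldE1']
        push_cast
        ring)
      have hγ0 : jj (cst γ) ≠ 0 := by rw [← hγ]; exact hne
      have hldL : ld DOm (LL G 0) = ld DOm u - u * E / (E - 1) := by
        rw [hLG, ld_div DOm hu0 hE1, hldE1]
      have hL1' : LL G 1 = ld DOm u - u := by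
        rw [hstepG, hldL, hLG]
        field_simp
        ring
      have hF1' : LL F 1 = LL G 1 + 2 * u := by linear_combination h10
      set f : Fin 1 → Ent := ![ψ] with hf
      have hu' : u ∈ acl (Rphi f) := by
        have := le_acl _ (dphi_mem f 0)
        rw [huψ]
        exact this
      have hdu' : ld DOm u ∈ acl (Rphi f) := ld_mem (Rphi_good f) hu'
      have hLm : LL G 1 ∈ acl (Rphi f) := by rw [hL1']; exact sub_mem hdu' hu'
      have h2m : (2 : Om) ∈ acl (Rphi f) := by exact_mod_cast natCast_mem (acl (Rphi f)) 2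
      have hFm : LL F 1 ∈ acl (Rphi f) := by rw [hF1']; exact add_mem hLm (mul_mem h2m hu')
      have hE1m : E1 ∈ acl (Rphi f) := div_mem hFm hLm
      have hγm : jj (cst γ) ∈ acl (Rphi f) := le_acl _ (mem_Rphi (GB.const Aphi_ge γ))
      have hE2m : E ^ 2 ∈ acl (Rphi f) := by
        have : E ^ 2 = E1 / jj (cst γ) := by
          rw [← hγ]; field_simp
        rw [this]; exact div_mem hE1m hγm
      have hEm : E ∈ acl (Rphi f) := by
        apply alg_acl
        refine ⟨Polynomial.X ^ 2 - Polynomial.C ⟨E ^ 2, hE2m⟩,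
          Polynomial.X_pow_sub_C_ne_zero (by norm_num) _, ?_⟩
        rw [map_sub, map_pow, Polynomial.aeval_X, Polynomial.aeval_C]
        exact sub_self _
      have h3 := F1 f (fun i => by
        fin_cases i
        have : jj (expE ψ) ∈ acl (Rphi f) := by rw [← hEψ]; exact hEm
        exact this) 0
      have h4 : dEnt ψ = 0 := h3
      rw [h4, map_zero] at huψ
      exact hu0 huψ

end

end Pool.Agent.BcfFin
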