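import Pool.Agent.BcfFin.An

/-!
Analytic tools for quotients of entire functions.
-/

set_option autoImplicit false

open Complex Filter Topology

namespace Pool.Agent.BcfFin

/-- The order of the Wronskian `a' b - a b'` at a point where `a` and `b` have different orders. -/
theorem ord_wr {a b : ℂ → ℂ} (ha : Differentiable ℂ a) (hb : Differentiable ℂ b) {z₀ : ℂ} {m n : ℕ}
    (hm : analyticOrderAt a z₀ = m) (hn : analyticOrderAt b z₀ = n) (hmn : m ≠ n) :
    1 + analyticOrderAt (fun z => deriv a z * b z - a z * deriv b z) z₀ = ((m + n : ℕ) : ℕ∞) := by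
  obtain ⟨a₁, ha₁, ha₁0, haa⟩ := ((ha.analyticAt z₀).analyticOrderAt_eq_natCast).mp hm
  obtain ⟨b₁, hb₁, hb₁0, hbb⟩ := ((hb.analyticAt z₀).analyticOrderAt_eq_natCast).mp hn
  have hda : Differentiable ℂ (deriv a) := ha.contDiff.differentiable_deriv_two
  have hdb : Differentiable ℂ (deriv b) := hb.contDiff.differentiable_deriv_two
  have hW : AnalyticAt ℂ (fun z => deriv a z * b z - a z * deriv b z) z₀ :=
    ((hda.mul hb).sub (ha.mul hdb)).analyticAt z₀
  have key : ∀ {f f₁ : ℂ → ℂ} {k : ℕ}, AnalyticAt ℂ f₁ z₀ →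
      (∀ᶠ z in 𝓝 z₀, f z = (z - z₀) ^ k • f₁ z) →
      ∀ᶠ z in 𝓝 z₀, (z - z₀) * deriv f z = (z - z₀) ^ k * (k * f₁ z + (z - z₀) * deriv f₁ z) := by
    intro f f₁ k hf₁ hff
    filter_upwards [hff.eventually_nhds, hf₁.eventually_analyticAt] with w hw hw1
    have h1 : deriv f w = deriv (fun z => (z - z₀) ^ k • f₁ z) w := Filter.EventuallyEq.deriv_eq hw
    have h2 : HasDerivAt (fun z => (z - z₀) ^ k • f₁ z)
        ((k * (w - z₀) ^ (k - 1) * 1) • f₁ w + (w - z₀) ^ k • deriv f₁ w) w := by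
      have h3 := (((hasDerivAt_id w).sub_const z₀).pow k).smul hw1.differentiableAt.hasDerivAt
      refine h3.congr_deriv ?_
      simp only [id, smul_eq_mul, Pi.pow_apply]
      ring
    rw [h1, h2.deriv]
    simp only [smul_eq_mul, mul_one]
    rcases Nat.eq_zero_or_pos k with rfl | hk
    · simp
    · have h4 : (w - z₀) ^ k = (w - z₀) ^ (k - 1) * (w - z₀) := by
        rw [← pow_succ]; congr 1; omega
      rw [h4]; ring
  have h1 := key ha₁ haa
  have h2 := key hb₁ hbb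
  have hid : AnalyticAt ℂ (fun z : ℂ => z - z₀) z₀ := analyticAt_id.sub analyticAt_const
  have hord1 : analyticOrderAt (fun z : ℂ => z - z₀) z₀ = 1 := by
    have h3 : ((1:ℕ) : ℕ∞) = 1 := rfl
    rw [← h3, hid.analyticOrderAt_eq_natCast]
    exact ⟨fun _ => 1, analyticAt_const, one_ne_zero, Filter.Eventually.of_forall (fun z => by simp)⟩
  have hprod : analyticOrderAt ((fun z : ℂ => z - z₀) * (fun z => deriv a z * b z - a z * deriv b z)) z₀ =
      1 + analyticOrderAt (fun z => deriv a z * b z - a z * deriv b z) z₀ := by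
    rw [analyticOrderAt_mul hid hW, hord1]
  rw [← hprod, (hid.mul hW).analyticOrderAt_eq_natCast]
  refine ⟨fun z => ((m:ℂ) - n) * a₁ z * b₁ z + (z - z₀) * (deriv a₁ z * b₁ z - a₁ z * deriv b₁ z),
    ?_, ?_, ?_⟩
  · exact ((analyticAt_const.mul ha₁).mul hb₁).add (hid.mul ((ha₁.deriv.mul hb₁).sub (ha₁.mul hb₁.deriv)))
  · change ((m:ℂ) - n) * a₁ z₀ * b₁ z₀ + (z₀ - z₀) * (deriv a₁ z₀ * b₁ z₀ - a₁ z₀ * deriv b₁ z₀) ≠ 0
    rw [sub_self, zero_mul, add_zero]
    refine mul_ne_zero (mul_ne_zero ?_ ha₁0) hb₁0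
    rw [sub_ne_zero]
    exact_mod_cast hmn
  · filter_upwards [h1, h2, haa, hbb] with z e1 e2 e3 e4
    change (z - z₀) * (deriv a z * b z - a z * deriv b z) = _
    have e5 : (z - z₀) * (deriv a z * b z - a z * deriv b z) =
        ((z - z₀) * deriv a z) * b z - a z * ((z - z₀) * deriv b z) := by ring
    rw [e5, e1, e2, e3, e4]
    simp only [smul_eq_mul]
    rw [pow_add]
    ring

theorem poly_lower {M : Polynomial ℂ} (hM : M ≠ 0) :
    ∃ R δ : ℝ, 1 ≤ R ∧ 0 < δ ∧ ∀ z, R ≤ ‖z‖ → δ ≤ ‖M.eval z‖ := by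
  rcases Nat.eq_zero_or_pos M.natDegree with h | h
  · obtain ⟨c, rfl⟩ := Polynomial.natDegree_eq_zero.mp h
    have hc : c ≠ 0 := by rintro rfl; simp at hM
    exact ⟨1, ‖c‖, le_rfl, norm_pos_iff.mpr hc, fun z _ => by rw [Polynomial.eval_C]⟩
  · have h1 := Polynomial.tendsto_norm_atTop M (Polynomial.natDegree_pos_iff_degree_pos.mp h)
      (l := Filter.cocompact ℂ) (z := fun z => z) (tendsto_norm_cocompact_atTop)
    have h2 := h1.eventually_ge_atTop 1
    rw [← Metric.cobounded_eq_cocompact, ← comap_norm_atTop, Filter.eventually_comap] at h2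
    obtain ⟨R, hR⟩ := Filter.eventually_atTop.mp h2
    exact ⟨max R 1, 1, le_max_right _ _, one_pos, fun z hz => hR ‖z‖ ((le_max_left _ _).trans hz) z rfl⟩

/-- Entire solutions of `M Y' - M' Y = K` with polynomials are polynomials. -/
theorem ode_poly {Y : ℂ → ℂ} (hY : Differentiable ℂ Y) {M K : Polynomial ℂ} (hM : M ≠ 0)
    (h : ∀ z, M.eval z * deriv Y z - (Polynomial.derivative M).eval z * Y z = K.eval z) :
    ∃ p : Polynomial ℂ, ∀ z, Y z = p.eval z := by
  obtain ⟨R, δ, hR, hδ, hMδ⟩ := poly_lower hM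
  obtain ⟨C, k, hC, hK⟩ := PG.poly K
  obtain ⟨C', k', hC', hM'⟩ := PG.poly M
  have hR0 : 0 < R := by linarith
  have hMne : ∀ z, R ≤ ‖z‖ → M.eval z ≠ 0 := fun z hz h0 => by
    have := hMδ z hz
    rw [h0, norm_zero] at this
    linarith
  obtain ⟨D, hD⟩ := (isCompact_closedBall (0:ℂ) R).exists_bound_of_continuousOn
    hY.continuous.continuousOn
  have hD0 : 0 ≤ D := (norm_nonneg _).trans (hD 0 (by simp [hR0.le]))
  -- bound of Y / M
  have hbd : ∀ z, R ≤ ‖z‖ → ‖Y z / M.eval z‖ ≤ D / δ + C / δ ^ 2 * (1 + ‖z‖) ^ (k + 1) := by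
    intro z hz
    have hz0 : 0 < ‖z‖ := by linarith
    set z₁ : ℂ := ((R / ‖z‖ : ℝ) : ℂ) * z with hz₁
    have hz₁n : ‖z₁‖ = R := by
      rw [hz₁, norm_mul, Complex.norm_real, Real.norm_eq_abs, abs_of_pos (div_pos hR0 hz0)]
      field_simp
    have hseg : ∀ w ∈ segment ℝ z₁ z, R ≤ ‖w‖ ∧ ‖w‖ ≤ ‖z‖ := by
      rintro w ⟨s, t, hs, ht, hst, rfl⟩
      have e1 : s • z₁ + t • z = ((s * (R / ‖z‖) + t : ℝ) : ℂ) * z := by
        rw [hz₁]
        simp only [Complex.real_smul, Complex.ofReal_add, Complex.ofReal_mul]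
        ring
      have e2 : 0 ≤ s * (R / ‖z‖) + t := by positivity
      rw [e1, norm_mul, Complex.norm_real, Real.norm_eq_abs, abs_of_nonneg e2]
      have e3 : (s * (R / ‖z‖) + t) * ‖z‖ = s * R + t * ‖z‖ := by field_simp
      rw [e3]
      have e4 : t = 1 - s := by linarith
      constructor
      · rw [e4]; nlinarith
      · rw [e4]; nlinarith
    have hder : ∀ w, R ≤ ‖w‖ → HasDerivAt (fun z => Y z / M.eval z) (K.eval w / (M.eval w) ^ 2) w := by
      intro w hw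
      have h1 := ((hY w).hasDerivAt).div (M.hasDerivAt w) (hMne w hw)
      refine h1.congr_deriv ?_
      rw [← h w]
      ring
    have hmvt := Convex.norm_image_sub_le_of_norm_deriv_le (𝕜 := ℂ) (f := fun z => Y z / M.eval z)
      (C := C * (1 + ‖z‖) ^ k / δ ^ 2) (s := segment ℝ z₁ z) (x := z₁) (y := z)
      (fun w hw => (hder w (hseg w hw).1).differentiableAt)
      (fun w hw => by
        obtain ⟨h2, h3⟩ := hseg w hw
        rw [(hder w h2).deriv, norm_div, norm_pow]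
        have h4 : ‖K.eval w‖ ≤ C * (1 + ‖z‖) ^ k := by
          refine (hK w).trans (mul_le_mul_of_nonneg_left ?_ hC)
          exact pow_le_pow_left₀ (by positivity) (by linarith) k
        have h5 : δ ^ 2 ≤ ‖M.eval w‖ ^ 2 := pow_le_pow_left₀ hδ.le (hMδ w h2) 2
        exact div_le_div₀ (by positivity) h4 (by positivity) h5)
      (convex_segment _ _) (left_mem_segment ℝ z₁ z) (right_mem_segment ℝ z₁ z)
    have h6 : ‖Y z₁ / M.eval z₁‖ ≤ D / δ := by
      rw [norm_div]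
      exact div_le_div₀ hD0 (hD z₁ (by simp [hz₁n])) hδ (hMδ z₁ hz₁n.ge)
    have h7 : ‖z - z₁‖ ≤ 1 + ‖z‖ := by
      have e1 : z - z₁ = ((1 - R / ‖z‖ : ℝ) : ℂ) * z := by
        rw [hz₁]; push_cast; ring
      have e2 : 0 ≤ 1 - R / ‖z‖ := by
        rw [sub_nonneg, div_le_one hz0]; exact hz
      rw [e1, norm_mul, Complex.norm_real, Real.norm_eq_abs, abs_of_nonneg e2]
      have e3 : (1 - R / ‖z‖) * ‖z‖ = ‖z‖ - R := by field_simp
      rw [e3]; linarith
    calc ‖Y z / M.eval z‖ = ‖Y z₁ / M.eval z₁ + (Y z / M.eval z - Y z₁ / M.eval z₁)‖ := by ring_nf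
      _ ≤ ‖Y z₁ / M.eval z₁‖ + ‖Y z / M.eval z - Y z₁ / M.eval z₁‖ := norm_add_le _ _
      _ ≤ D / δ + C * (1 + ‖z‖) ^ k / δ ^ 2 * ‖z - z₁‖ := add_le_add h6 hmvt
      _ ≤ D / δ + C * (1 + ‖z‖) ^ k / δ ^ 2 * (1 + ‖z‖) := by gcongr
      _ = _ := by rw [pow_succ]; ring
  obtain ⟨p, hp⟩ := poly_of_growth (k' + (k + 1)) Y hY (D + C' * (D / δ + C / δ ^ 2)) (by positivity) (by
    intro z
    have h1z : (1:ℝ) ≤ 1 + ‖z‖ := by linarith [norm_nonneg z]
    rcases le_or_gt R ‖z‖ with hz | hz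
    · have h1 := hbd z hz
      have h2 := hMne z hz
      have h3 : Y z = M.eval z * (Y z / M.eval z) := by field_simp
      have h4 : (1:ℝ) ≤ (1 + ‖z‖) ^ (k + 1) := one_le_pow₀ h1z
      have h5 : ‖Y z / M.eval z‖ ≤ (D / δ + C / δ ^ 2) * (1 + ‖z‖) ^ (k + 1) := by
        refine h1.trans ?_
        have : D / δ ≤ D / δ * (1 + ‖z‖) ^ (k + 1) := le_mul_of_one_le_right (by positivity) h4
        rw [add_mul]
        linarith
      rw [h3, norm_mul]
      calc ‖M.eval z‖ * ‖Y z / M.eval z‖ ≤ (C' * (1 + ‖z‖) ^ k') *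
            ((D / δ + C / δ ^ 2) * (1 + ‖z‖) ^ (k + 1)) :=
            mul_le_mul (hM' z) h5 (norm_nonneg _) (by positivity)
        _ = C' * (D / δ + C / δ ^ 2) * (1 + ‖z‖) ^ (k' + (k + 1)) := by rw [pow_add]; ring
        _ ≤ (D + C' * (D / δ + C / δ ^ 2)) * (1 + ‖z‖) ^ (k' + (k + 1)) := by
            have : 0 ≤ D * (1 + ‖z‖) ^ (k' + (k + 1)) := by positivity
            nlinarith
    · have h4 : (1:ℝ) ≤ (1 + ‖z‖) ^ (k' + (k + 1)) := one_le_pow₀ h1z
      have h5 : 0 ≤ C' * (D / δ + C / δ ^ 2) := by positivity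
      calc ‖Y z‖ ≤ D := hD z (by simpa using hz.le)
        _ ≤ (D + C' * (D / δ + C / δ ^ 2)) * 1 := by linarith
        _ ≤ _ := mul_le_mul_of_nonneg_left h4 (by positivity))
  exact ⟨p, hp⟩

end Pool.Agent.BcfFin
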