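import Pool.Agent.BcfFin.MerMain
import Pool.Agent.BcfFin.Exact

/-!
From meromorphic functions to the field `Om`.
-/

set_option autoImplicit false
set_option linter.unusedSectionVars false
set_option linter.unusedVariables false

open Complex Filter Topology
open Pool.Agent.Hhelper32.Bcf

namespace Pool.Agent.BcfFin

/-- equality off a closed discrete set -/
def Same (f g : ℂ → ℂ) : Prop := ∀ z₀ : ℂ, ∀ᶠ z in 𝓝[≠] z₀, f z = g z

theorem Same.symm {f g : ℂ → ℂ} (h : Same f g) : Same g f := fun z₀ => (h z₀).mono (fun z hz => hz.symm)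

theorem Same.trans {f g k : ℂ → ℂ} (h : Same f g) (h' : Same g k) : Same f k := fun z₀ => by
  filter_upwards [h z₀, h' z₀] with z h1 h2
  rw [h1, h2]

theorem Same.near {f g : ℂ → ℂ} (h : Same f g) (z₀ : ℂ) : ∀ᶠ z in 𝓝[≠] z₀, f =ᶠ[𝓝 z] g := by
  have h1 := h z₀
  rw [eventually_nhdsWithin_iff, eventually_nhds_iff] at h1
  obtain ⟨U, hU, hUo, hz₀⟩ := h1
  rw [eventually_nhdsWithin_iff]
  filter_upwards [hUo.mem_nhds hz₀] with z hz hz'
  have h2 : U ∩ {z₀}ᶜ ∈ 𝓝 z := (hUo.inter isOpen_compl_singleton).mem_nhds ⟨hz, hz'⟩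
  filter_upwards [h2] with w hw
  exact hU w hw.1 hw.2

theorem Same.deriv {f g : ℂ → ℂ} (h : Same f g) : Same (deriv f) (deriv g) := fun z₀ =>
  (h.near z₀).mono (fun z hz => hz.deriv_eq)

/-- `x` represents `f` -/
def Rep (x : Om) (f : ℂ → ℂ) : Prop :=
  ∃ a b : Ent, b ≠ 0 ∧ x = jj a / jj b ∧ Same f (fun z => a.1 z / b.1 z)

theorem Rep.congr {x : Om} {f g : ℂ → ℂ} (h : Rep x f) (h' : Same g f) : Rep x g := by
  obtain ⟨a, b, hb, hx, hf⟩ := h
  exact ⟨a, b, hb, hx, h'.trans hf⟩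

theorem Rep.mer {x : Om} {f : ℂ → ℂ} (h : Rep x f) : IsMer x := by
  obtain ⟨a, b, hb, hx, hf⟩ := h
  exact ⟨a, b, hb, hx⟩

theorem nearE {b : Ent} (hb : b ≠ 0) (z₀ : ℂ) : ∀ᶠ z in 𝓝[≠] z₀, b.1 z ≠ 0 :=
  ne_near b.2 (Ent_ne hb) z₀

theorem Rep.unique {x : Om} {f g : ℂ → ℂ} (h : Rep x f) (h' : Rep x g) : Same f g := by
  obtain ⟨a, b, hb, hx, hf⟩ := h
  obtain ⟨c, d, hd, hx', hg⟩ := h'
  have h1 : a * d = c * b := by
    apply jj_inj
    have h2 := jj_ne hb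
    have h3 := jj_ne hd
    rw [hx] at hx'
    rw [map_mul, map_mul]
    field_simp at hx'
    linear_combination hx'
  intro z₀
  filter_upwards [hf z₀, hg z₀, nearE hb z₀, nearE hd z₀] with z e1 e2 e3 e4
  rw [e1, e2, div_eq_div_iff e3 e4]
  exact congrFun (congrArg Subtype.val h1) z

theorem ent_eq_of_near {u v : Ent} {z₀ : ℂ} (h : ∀ᶠ z in 𝓝[≠] z₀, u.1 z = v.1 z) : u = v := by
  have hd : Differentiable ℂ (fun z => u.1 z - v.1 z) := u.2.sub v.2
  apply Ent.ext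
  intro z
  have h1 : ∀ᶠ z in 𝓝 z₀, u.1 z - v.1 z = 0 := by
    rcases (hd.analyticAt z₀).eventually_eq_zero_or_eventually_ne_zero with h2 | h2
    · exact h2
    · obtain ⟨w, hw1, hw2⟩ := (h.and h2).exists
      exact absurd (sub_eq_zero.mpr hw1) hw2
  exact sub_eq_zero.mp (entire_zero hd h1 z)

theorem Rep.inj {x y : Om} {f g : ℂ → ℂ} (h : Rep x f) (h' : Rep y g) (hfg : Same f g) : x = y := by
  obtain ⟨a, b, hb, hx, hf⟩ := h
  obtain ⟨c, d, hd, hx', hg⟩ := h'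
  have h1 : a * d = c * b := by
    apply ent_eq_of_near (z₀ := 0)
    filter_upwards [hf 0, hg 0, hfg 0, nearE hb 0, nearE hd 0] with z e1 e2 e3 e4 e5
    rw [e1, e2, div_eq_div_iff e4 e5] at e3
    exact e3
  have h2 := jj_ne hb
  have h3 := jj_ne hd
  rw [hx, hx', div_eq_div_iff h2 h3, ← map_mul, ← map_mul, h1]

theorem Rep.ent (a : Ent) : Rep (jj a) a.1 :=
  ⟨a, 1, one_ne_zero, by rw [map_one, div_one], fun z₀ => Filter.Eventually.of_forall (fun z => by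
    change a.1 z = a.1 z / 1
    rw [div_one])⟩

theorem Rep.sub {x y : Om} {f g : ℂ → ℂ} (h : Rep x f) (h' : Rep y g) :
    Rep (x - y) (fun z => f z - g z) := by
  obtain ⟨a, b, hb, hx, hf⟩ := h
  obtain ⟨c, d, hd, hx', hg⟩ := h'
  have h2 := jj_ne hb
  have h3 := jj_ne hd
  refine ⟨a * d - b * c, b * d, mul_ne_zero hb hd, ?_, fun z₀ => ?_⟩
  · rw [hx, hx', map_sub, map_mul, map_mul, map_mul]
    field_simp
  · filter_upwards [hf z₀, hg z₀, nearE hb z₀, nearE hd z₀] with z e1 e2 e3 e4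
    change f z - g z = (a.1 z * d.1 z - b.1 z * c.1 z) / (b.1 z * d.1 z)
    rw [e1, e2]
    field_simp

theorem Rep.mul {x y : Om} {f g : ℂ → ℂ} (h : Rep x f) (h' : Rep y g) :
    Rep (x * y) (fun z => f z * g z) := by
  obtain ⟨a, b, hb, hx, hf⟩ := h
  obtain ⟨c, d, hd, hx', hg⟩ := h'
  have h2 := jj_ne hb
  have h3 := jj_ne hd
  refine ⟨a * c, b * d, mul_ne_zero hb hd, ?_, fun z₀ => ?_⟩
  · rw [hx, hx', map_mul, map_mul]
    field_simp
  · filter_upwards [hf z₀, hg z₀, nearE hb z₀, nearE hd z₀] with z e1 e2 e3 e4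
    change f z * g z = (a.1 z * c.1 z) / (b.1 z * d.1 z)
    rw [e1, e2]
    field_simp

theorem Rep.inv {y : Om} {g : ℂ → ℂ} (h' : Rep y g) (hy : y ≠ 0) :
    Rep y⁻¹ (fun z => (g z)⁻¹) := by
  obtain ⟨c, d, hd, hx', hg⟩ := h'
  have h3 := jj_ne hd
  have hc : c ≠ 0 := by
    rintro rfl
    rw [map_zero, zero_div] at hx'
    exact hy hx'
  refine ⟨d, c, hc, ?_, fun z₀ => ?_⟩
  · rw [hx', inv_div]
  · filter_upwards [hg z₀] with z e2
    rw [e2, inv_div]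

theorem Rep.div {x y : Om} {f g : ℂ → ℂ} (h : Rep x f) (h' : Rep y g) (hy : y ≠ 0) :
    Rep (x / y) (fun z => f z / g z) := by
  have := h.mul (h'.inv hy)
  rw [← div_eq_mul_inv] at this
  exact this.congr (fun z₀ => Filter.Eventually.of_forall (fun z => div_eq_mul_inv _ _))

theorem Rep.D {x : Om} {f : ℂ → ℂ} (h : Rep x f) : Rep (DOm x) (deriv f) := by
  obtain ⟨a, b, hb, hx, hf⟩ := h
  refine ⟨dEnt a * b - a * dEnt b, b ^ 2, pow_ne_zero 2 hb, by rw [hx, D_quot hb], fun z₀ => ?_⟩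
  filter_upwards [hf.deriv z₀, nearE hb z₀] with z e1 e2
  rw [e1]
  have h1 : HasDerivAt (fun z => a.1 z / b.1 z) ((deriv a.1 z * b.1 z - a.1 z * deriv b.1 z) / b.1 z ^ 2) z :=
    (a.2 z).hasDerivAt.div (b.2 z).hasDerivAt e2
  rw [h1.deriv]
  have h2 : ((b ^ 2 : Ent) : ℂ → ℂ) z = b.1 z ^ 2 := by
    rw [SubmonoidClass.coe_pow]; rfl
  rw [h2]
  rfl

/-- the derivatives in `Om` -/
noncomputable def dq (x : Om) : ℕ → Om
  | 0 => x
  | n + 1 => DOm (dq x n)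

theorem Rep.iter {x : Om} {f : ℂ → ℂ} (h : Rep x f) : ∀ n, Rep (dq x n) (iteratedDeriv n f) := by
  intro n
  induction n with
  | zero => rw [iteratedDeriv_zero]; exact h
  | succ n ih => rw [iteratedDeriv_succ]; exact ih.D

/-- orders -/
theorem quot_ord {a b : Ent} {f : ℂ → ℂ} (hb : b ≠ 0) (hf : Same f (fun z => a.1 z / b.1 z)) {z : ℂ}
    {m n : ℕ} (hm : analyticOrderAt a.1 z = m) (hn : analyticOrderAt b.1 z = n) :
    meromorphicOrderAt f z = ((m : ℤ) - n : ℤ) := by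
  obtain ⟨a₁, ha₁, ha₁0, haa⟩ := ((a.2.analyticAt z).analyticOrderAt_eq_natCast).mp hm
  obtain ⟨b₁, hb₁, hb₁0, hbb⟩ := ((b.2.analyticAt z).analyticOrderAt_eq_natCast).mp hn
  have hmer : MeromorphicAt (fun z => a.1 z / b.1 z) z :=
    (a.2.analyticAt z).meromorphicAt.div (b.2.analyticAt z).meromorphicAt
  rw [meromorphicOrderAt_congr (hf z), meromorphicOrderAt_eq_int_iff hmer]
  refine ⟨fun w => a₁ w / b₁ w, ha₁.div hb₁ hb₁0, div_ne_zero ha₁0 hb₁0, ?_⟩
  filter_upwards [nhdsWithin_le_nhds haa, nhdsWithin_le_nhds hbb, self_mem_nhdsWithin] with w e1 e2 e3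
  have h3 : w - z ≠ 0 := sub_ne_zero.mpr e3
  rw [e1, e2, zpow_sub₀ h3, zpow_natCast, zpow_natCast]
  simp only [smul_eq_mul]
  rw [mul_div_mul_comm]

theorem Rep.ne_zero {x : Om} {f : ℂ → ℂ} (h : Rep x f) (hf : ∃ z, meromorphicOrderAt f z ≠ ⊤) :
    x ≠ 0 := by
  obtain ⟨a, b, hb, hx, hfa⟩ := h
  rintro rfl
  obtain ⟨z, hz⟩ := hf
  apply hz
  have ha : a = 0 := by
    by_contra h1
    exact div_ne_zero (jj_ne h1) (jj_ne hb) hx.symm
  rw [meromorphicOrderAt_eq_top_iff]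
  filter_upwards [hfa z] with w e1
  rw [e1, ha]
  change (0:ℂ) / _ = 0
  rw [zero_div]

/-- the set of exceptional points -/
def ExcM (u v : ℂ → ℂ) : Set ℂ := {z | meromorphicOrderAt u z ≠ meromorphicOrderAt v z}

/-- the quotient is rational times `exp φ` -/
def SUP (x y : Om) : Prop := ∃ (P Q : Polynomial ℂ) (φ : Ent), P ≠ 0 ∧ Q ≠ 0 ∧
  jj (pE P) * x = jj (pE Q) * jj (expE φ) * y

theorem sup_iff {x y : Om} {f g : ℂ → ℂ} (h : Rep x f) (h' : Rep y g) (hx0 : x ≠ 0) (hy0 : y ≠ 0) :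
    (ExcM f g).Finite ↔ SUP x y := by
  obtain ⟨a, b, hb, hx, hf⟩ := h
  obtain ⟨c, d, hd, hy, hg⟩ := h'
  have ha : a ≠ 0 := by
    rintro rfl
    rw [map_zero, zero_div] at hx
    exact hx0 hx
  have hc : c ≠ 0 := by
    rintro rfl
    rw [map_zero, zero_div] at hy
    exact hy0 hy
  have hja := jj_ne ha
  have hjb := jj_ne hb
  have hjc := jj_ne hc
  have hjd := jj_ne hd
  constructor
  · intro hfin
    obtain ⟨P, Q, hP, hQ, φ, hφ, hrel⟩ := exists_ratio (U := (a * d).1) (V := (b * c).1)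
      (a * d).2 (b * c).2 (Ent_ne (mul_ne_zero ha hd)) (Ent_ne (mul_ne_zero hb hc)) hfin
      (fun z hz => by
        obtain ⟨m, hm⟩ := ord_pos_fin ha z
        obtain ⟨n, hn⟩ := ord_pos_fin hb z
        obtain ⟨m', hm'⟩ := ord_pos_fin hc z
        obtain ⟨n', hn'⟩ := ord_pos_fin hd z
        have h1 : meromorphicOrderAt f z = meromorphicOrderAt g z := by
          by_contra hcon
          exact hz hcon
        rw [quot_ord hb hf hm hn, quot_ord hd hg hm' hn'] at h1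
        have h2 : (m:ℤ) - n = m' - n' := by exact_mod_cast h1
        rw [ord_mulE, ord_mulE, hm, hn, hm', hn']
        have h3 : m + n' = n + m' := by omega
        exact_mod_cast h3)
    refine ⟨P, Q, ⟨φ, hφ⟩, hP, hQ, ?_⟩
    have h1 : pE P * (a * d) = pE Q * expE ⟨φ, hφ⟩ * (b * c) := Ent.ext (fun z => by
      have h2 := hrel z
      change (pE P).1 z * (a.1 z * d.1 z) = (pE Q).1 z * Complex.exp (φ z) * (b.1 z * c.1 z)
      rw [pE_apply, pE_apply]
      exact h2)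
    have h3 := congrArg jj h1
    simp only [map_mul] at h3
    rw [hx, hy]
    field_simp
    linear_combination h3
  · rintro ⟨P, Q, φ, hP, hQ, hrel⟩
    have h1 : pE P * (a * d) = pE Q * expE φ * (b * c) := by
      apply jj_inj
      simp only [map_mul]
      rw [hx, hy] at hrel
      field_simp at hrel
      linear_combination hrel
    apply ((Polynomial.finite_setOfPred_isRoot hP).union (Polynomial.finite_setOfPred_isRoot hQ)).subset
    intro z hz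
    by_contra hcon
    rw [Set.mem_union, not_or] at hcon
    apply hz
    obtain ⟨m, hm⟩ := ord_pos_fin ha z
    obtain ⟨n, hn⟩ := ord_pos_fin hb z
    obtain ⟨m', hm'⟩ := ord_pos_fin hc z
    obtain ⟨n', hn'⟩ := ord_pos_fin hd z
    rw [quot_ord hb hf hm hn, quot_ord hd hg hm' hn']
    have hPz : analyticOrderAt (pE P).1 z = 0 := by
      rw [((pE P).2.analyticAt z).analyticOrderAt_eq_zero, pE_apply]
      exact hcon.1
    have hQz : analyticOrderAt (pE Q).1 z = 0 := by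
      rw [((pE Q).2.analyticAt z).analyticOrderAt_eq_zero, pE_apply]
      exact hcon.2
    have hEz : analyticOrderAt (expE φ).1 z = 0 := by
      rw [((expE φ).2.analyticAt z).analyticOrderAt_eq_zero]
      exact expE_ne φ z
    have h2 := congrArg (fun u : Ent => analyticOrderAt u.1 z) h1
    rw [ord_mulE, ord_mulE, ord_mulE, ord_mulE, ord_mulE, hPz, hQz, hEz, hm, hn, hm', hn',
      zero_add, zero_add, zero_add] at h2
    have h3 : m + n' = n + m' := by exact_mod_cast h2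
    have h4 : (m:ℤ) - n = m' - n' := by omega
    rw [h4]

theorem SUP.div {x y x' y' : Om} (h : SUP x y) (h' : SUP x' y') (hx' : x' ≠ 0) (hy' : y' ≠ 0) :
    SUP (x / x') (y / y') := by
  obtain ⟨P, Q, φ, hP, hQ, h1⟩ := h
  obtain ⟨P', Q', φ', hP', hQ', h2⟩ := h'
  refine ⟨P * Q', Q * P', φ - φ', mul_ne_zero hP hQ', mul_ne_zero hQ hP', ?_⟩
  have h3 : jj (expE (φ - φ')) * jj (expE φ') = jj (expE φ) := by rw [← map_mul, expE_sub]
  have h4 := jj_ne (expE_ne_zero φ')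
  have h5 : jj (expE (φ - φ')) = jj (expE φ) / jj (expE φ') := by rw [← h3]; field_simp
  have h6 := jj_ne (pE_ne hP')
  have h7 := jj_ne (pE_ne hQ')
  rw [h5]
  simp only [map_mul]
  have h8 : x' = jj (pE Q') * jj (expE φ') * y' / jj (pE P') := by rw [← h2]; field_simp
  rw [h8]
  field_simp
  linear_combination h1

theorem dat_of_sup {x y : Om} (mx : IsMer x) (my : IsMer y) (hx : ∀ n ≤ 14, dq x n ≠ 0)
    (hy : ∀ n ≤ 14, dq y n ≠ 0)
    (h : ∀ n ≤ 13, SUP (dq x (n+1) / dq x n) (dq y (n+1) / dq y n)) :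
    ∃ (P Q : ℕ → Polynomial ℂ) (φ : ℕ → Ent), DatM (dq x) (dq y) P Q φ := by
  classical
  have hex : ∀ n, ∃ (P Q : Polynomial ℂ) (φ : Ent), n ≤ 13 → (P ≠ 0 ∧ Q ≠ 0 ∧
      jj (pE P) * (dq x (n+1) * dq y n) = jj (pE Q) * jj (expE φ) * (dq x n * dq y (n+1))) := by
    intro n
    by_cases hn : n ≤ 13
    · obtain ⟨P, Q, φ, hP, hQ, h1⟩ := h n hn
      refine ⟨P, Q, φ, fun _ => ⟨hP, hQ, ?_⟩⟩
      have h2 := hx n (by omega)
      have h3 := hy n (by omega)
      field_simp at h1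
      linear_combination h1
    · exact ⟨0, 0, 0, fun h1 => absurd h1 hn⟩
  choose P Q φ hPQ using hex
  exact ⟨P, Q, φ, ⟨fun n => rfl, fun n => rfl, mx, my, hx, hy, fun n hn => (hPQ n hn).1,
    fun n hn => (hPQ n hn).2.1, fun n hn => (hPQ n hn).2.2⟩⟩

/-- rational function times exponential -/
noncomputable def rx (P Q : Polynomial ℂ) (φ : ℂ → ℂ) : ℂ → ℂ := fun z =>
  P.eval z / Q.eval z * Complex.exp (φ z)

noncomputable def rX (P Q : Polynomial ℂ) (φ : Ent) : Om := jj (pE P) / jj (pE Q) * jj (expE φ)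

theorem rep_rx {P Q : Polynomial ℂ} (hQ : Q ≠ 0) (φ : Ent) : Rep (rX P Q φ) (rx P Q φ.1) := by
  refine ⟨pE P * expE φ, pE Q, pE_ne hQ, ?_, fun z₀ => Filter.Eventually.of_forall (fun z => ?_)⟩
  · unfold rX
    rw [map_mul]
    ring
  · change P.eval z / Q.eval z * Complex.exp (φ.1 z) = (pE P).1 z * Complex.exp (φ.1 z) / (pE Q).1 z
    rw [pE_apply, pE_apply]
    ring

theorem rX_ne {P Q : Polynomial ℂ} (hP : P ≠ 0) (hQ : Q ≠ 0) (φ : Ent) : rX P Q φ ≠ 0 :=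
  mul_ne_zero (div_ne_zero (jj_ne (pE_ne hP)) (jj_ne (pE_ne hQ))) (jj_ne (expE_ne_zero φ))

theorem rep_cst (c : ℂ) : Rep (jj (cst c)) (fun _ => c) := Rep.ent (cst c)

/-- the four families of pairs of meromorphic functions -/
def FamM (f g : ℂ → ℂ) : Prop :=
  (∃ c : ℂ, Same f (fun z => c * g z)) ∨
  (∃ P Q p S T q : Polynomial ℂ, Q ≠ 0 ∧ T ≠ 0 ∧
    Same f (rx P Q (fun z => p.eval z)) ∧ Same g (rx S T (fun z => q.eval z))) ∨
  (∃ (A B : ℂ) (P Q p : Polynomial ℂ), P ≠ 0 ∧ Q ≠ 0 ∧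
    Same f (fun z => A * (rx P Q (fun z => p.eval z) z - 1)) ∧
    Same g (fun z => B * ((rx P Q (fun z => p.eval z) z)⁻¹ - 1))) ∨
  (∃ (A B : ℂ) (P Q : Polynomial ℂ) (φ : ℂ → ℂ), P ≠ 0 ∧ Q ≠ 0 ∧ Differentiable ℂ φ ∧
    Same f (fun z => A / (rx P Q φ z - 1)) ∧ Same g (fun z => B / ((rx P Q φ z)⁻¹ - 1)))

/-- the same families in the field `Om` -/
def FamO (x y : Om) : Prop :=
  (∃ c : ℂ, x = jj (cst c) * y) ∨
  (∃ P Q p S T q : Polynomial ℂ, Q ≠ 0 ∧ T ≠ 0 ∧ x = rX P Q (pE p) ∧ y = rX S T (pE q)) ∨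
  (∃ (A B : ℂ) (P Q p : Polynomial ℂ), P ≠ 0 ∧ Q ≠ 0 ∧
    x = jj (cst A) * (rX P Q (pE p) - 1) ∧ y = jj (cst B) * ((rX P Q (pE p))⁻¹ - 1)) ∨
  (∃ (A B : ℂ) (P Q : Polynomial ℂ) (φ : Ent), P ≠ 0 ∧ Q ≠ 0 ∧ rX P Q φ ≠ 1 ∧
    x = jj (cst A) / (rX P Q φ - 1) ∧ y = jj (cst B) / ((rX P Q φ)⁻¹ - 1))

theorem pE_fun (p : Polynomial ℂ) : (pE p).1 = fun z => p.eval z := funext (pE_apply p)

theorem Rep.one : Rep 1 (fun _ => (1:ℂ)) := by
  have := rep_cst 1
  rwa [map_one, map_one] at this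

theorem fam_iff {x y : Om} {f g : ℂ → ℂ} (h : Rep x f) (h' : Rep y g) (hx0 : x ≠ 0) (hy0 : y ≠ 0) :
    FamM f g ↔ FamO x y := by
  have key : ∀ {P Q : Polynomial ℂ} (hP : P ≠ 0) (hQ : Q ≠ 0) (φ : Ent) (A B : ℂ),
      Rep (jj (cst A) * (rX P Q φ - 1)) (fun z => A * (rx P Q φ.1 z - 1)) ∧
      Rep (jj (cst B) * ((rX P Q φ)⁻¹ - 1)) (fun z => B * ((rx P Q φ.1 z)⁻¹ - 1)) := by
    intro P Q hP hQ φ A B
    exact ⟨(rep_cst A).mul ((rep_rx hQ φ).sub Rep.one),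
      (rep_cst B).mul (((rep_rx hQ φ).inv (rX_ne hP hQ φ)).sub Rep.one)⟩
  have key2 : ∀ {P Q : Polynomial ℂ} (hP : P ≠ 0) (hQ : Q ≠ 0) (φ : Ent) (A B : ℂ),
      rX P Q φ ≠ 1 →
      Rep (jj (cst A) / (rX P Q φ - 1)) (fun z => A / (rx P Q φ.1 z - 1)) ∧
      Rep (jj (cst B) / ((rX P Q φ)⁻¹ - 1)) (fun z => B / ((rx P Q φ.1 z)⁻¹ - 1)) := by
    intro P Q hP hQ φ A B hne
    have h1 : rX P Q φ - 1 ≠ 0 := sub_ne_zero.mpr hne
    have h2 : (rX P Q φ)⁻¹ - 1 ≠ 0 := by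
      rw [sub_ne_zero]
      intro h3
      exact hne (inv_eq_one.mp h3)
    exact ⟨(rep_cst A).div ((rep_rx hQ φ).sub Rep.one) h1,
      (rep_cst B).div (((rep_rx hQ φ).inv (rX_ne hP hQ φ)).sub Rep.one) h2⟩
  constructor
  · rintro (⟨c, hc⟩ | ⟨P, Q, p, S, T, q, hQ, hT, h1, h2⟩ | ⟨A, B, P, Q, p, hP, hQ, h1, h2⟩ |
      ⟨A, B, P, Q, φ, hP, hQ, hφ, h1, h2⟩)
    · exact Or.inl ⟨c, h.inj ((rep_cst c).mul h') hc⟩
    · refine Or.inr (Or.inl ⟨P, Q, p, S, T, q, hQ, hT, h.inj (rep_rx hQ (pE p)) ?_,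
        h'.inj (rep_rx hT (pE q)) ?_⟩)
      · rw [pE_fun]; exact h1
      · rw [pE_fun]; exact h2
    · obtain ⟨k1, k2⟩ := key hP hQ (pE p) A B
      refine Or.inr (Or.inr (Or.inl ⟨A, B, P, Q, p, hP, hQ, h.inj k1 ?_, h'.inj k2 ?_⟩))
      · rw [pE_fun]; exact h1
      · rw [pE_fun]; exact h2
    · have hne : rX P Q ⟨φ, hφ⟩ ≠ 1 := by
        intro h3
        apply hx0
        have h4 : Same (rx P Q φ) (fun _ => 1) := by
          have h5 := rep_rx (P := P) hQ (⟨φ, hφ⟩ : Ent)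
          rw [h3] at h5
          exact h5.unique Rep.one
        have h6 : Same f (fun _ => 0) := by
          refine h1.trans (fun z₀ => ?_)
          filter_upwards [h4 z₀] with z hz
          rw [hz, sub_self, div_zero]
        have h7 : Rep (0:Om) (fun _ => (0:ℂ)) := by
          have := rep_cst 0
          rwa [map_zero, map_zero] at this
        exact h.inj h7 h6
      obtain ⟨k1, k2⟩ := key2 hP hQ ⟨φ, hφ⟩ A B hne
      exact Or.inr (Or.inr (Or.inr ⟨A, B, P, Q, ⟨φ, hφ⟩, hP, hQ, hne, h.inj k1 h1, h'.inj k2 h2⟩))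
  · rintro (⟨c, hc⟩ | ⟨P, Q, p, S, T, q, hQ, hT, h1, h2⟩ | ⟨A, B, P, Q, p, hP, hQ, h1, h2⟩ |
      ⟨A, B, P, Q, φ, hP, hQ, hne, h1, h2⟩)
    · rw [hc] at h
      exact Or.inl ⟨c, h.unique ((rep_cst c).mul h')⟩
    · rw [h1] at h
      rw [h2] at h'
      have e1 := h.unique (rep_rx hQ (pE p))
      have e2 := h'.unique (rep_rx hT (pE q))
      rw [pE_fun] at e1 e2
      exact Or.inr (Or.inl ⟨P, Q, p, S, T, q, hQ, hT, e1, e2⟩)
    · obtain ⟨k1, k2⟩ := key hP hQ (pE p) A B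
      rw [h1] at h
      rw [h2] at h'
      have e1 := h.unique k1
      have e2 := h'.unique k2
      rw [pE_fun] at e1 e2
      exact Or.inr (Or.inr (Or.inl ⟨A, B, P, Q, p, hP, hQ, e1, e2⟩))
    · obtain ⟨k1, k2⟩ := key2 hP hQ φ A B hne
      rw [h1] at h
      rw [h2] at h'
      exact Or.inr (Or.inr (Or.inr ⟨A, B, P, Q, φ.1, hP, hQ, φ.2, h.unique k1, h'.unique k2⟩))

theorem famO_of_weak {x y : Om} (mx : IsMer x) (my : IsMer y) (hx : ∀ n ≤ 14, dq x n ≠ 0)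
    (hy : ∀ n ≤ 14, dq y n ≠ 0)
    (h : ∀ n ≤ 13, SUP (dq x (n+1) / dq x n) (dq y (n+1) / dq y n)) : FamO x y := by
  obtain ⟨P, Q, φ, hd⟩ := dat_of_sup mx my hx hy h
  rcases main_M hd with h1 | ⟨P₁, Q₁, p, P₂, Q₂, q, hQ₁, hQ₂, e1, e2⟩ |
    ⟨A, B, P₁, Q₁, p, hP₁, hQ₁, e1, e2⟩ | ⟨A, B, P₁, Q₁, φ, hP₁, hQ₁, hne, e1, e2⟩
  · exact Or.inl h1
  · exact Or.inr (Or.inl ⟨P₁, Q₁, p, P₂, Q₂, q, hQ₁, hQ₂, e1, e2⟩)
  · exact Or.inr (Or.inr (Or.inl ⟨A, B, P₁, Q₁, p, hP₁, hQ₁, e1, e2⟩))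
  · exact Or.inr (Or.inr (Or.inr ⟨A, B, P₁, Q₁, φ, hP₁, hQ₁, hne, e1, e2⟩))

/-! ### the converse -/

theorem dOm_rX {P Q : Polynomial ℂ} (hQ : Q ≠ 0) (p : Polynomial ℂ) :
    DOm (rX P Q (pE p)) = rX (Polynomial.derivative P * Q - P * Polynomial.derivative Q +
      P * Q * Polynomial.derivative p) (Q ^ 2) (pE p) := by
  unfold rX
  have h1 := jj_ne (pE_ne hQ)
  rw [D_mul, D_div DOm h1, D_jj, D_jj, D_jj, dEnt_pE, dEnt_pE, dEnt_exp, dEnt_pE]
  simp only [map_mul, map_add, map_sub, map_pow]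
  field_simp

theorem dq_rX {x : Om} {m : ℕ} {P Q p : Polynomial ℂ} (hQ : Q ≠ 0) (h : dq x m = rX P Q (pE p)) :
    ∀ n, m ≤ n → ∃ P' Q' : Polynomial ℂ, Q' ≠ 0 ∧ dq x n = rX P' Q' (pE p) := by
  intro n hn
  induction n, hn using Nat.le_induction with
  | base => exact ⟨P, Q, hQ, h⟩
  | succ n hn ih =>
    obtain ⟨P', Q', hQ', h1⟩ := ih
    exact ⟨_, _, pow_ne_zero 2 hQ', by
      change DOm (dq x n) = _
      rw [h1, dOm_rX hQ']⟩

theorem sup_rX {P Q S T : Polynomial ℂ} (hQ : Q ≠ 0) (hT : T ≠ 0) {φ ψ : Ent}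
    (h1 : rX P Q φ ≠ 0) (h2 : rX S T ψ ≠ 0) : SUP (rX P Q φ) (rX S T ψ) := by
  have hP : P ≠ 0 := by
    rintro rfl
    apply h1
    unfold rX
    rw [map_zero, map_zero, zero_div, zero_mul]
  have hS : S ≠ 0 := by
    rintro rfl
    apply h2
    unfold rX
    rw [map_zero, map_zero, zero_div, zero_mul]
  refine ⟨S * Q, P * T, φ - ψ, mul_ne_zero hS hQ, mul_ne_zero hP hT, ?_⟩
  have h3 : jj (expE (φ - ψ)) * jj (expE ψ) = jj (expE φ) := by rw [← map_mul, expE_sub]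
  have e1 := jj_ne (pE_ne hQ)
  have e2 := jj_ne (pE_ne hT)
  unfold rX
  simp only [map_mul]
  rw [← h3]
  field_simp

theorem sup_cst {x y : Om} {c : ℂ} (hc : c ≠ 0) (h : x = jj (cst c) * y) : SUP x y := by
  refine ⟨1, Polynomial.C c, 0, one_ne_zero, by simpa using hc, ?_⟩
  rw [map_one, map_one, one_mul, expE_zero, map_one, mul_one, pE_C, h]

theorem strong_of_famO {x y : Om} (h : FamO x y) (n : ℕ) (hx : ∀ m ≤ n, dq x m ≠ 0)
    (hy : ∀ m ≤ n, dq y m ≠ 0) : SUP (dq x n) (dq y n) := by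
  have hDc : ∀ c : ℂ, DOm (jj (cst c)) = 0 := fun c => by rw [D_jj, dEnt_cst, map_zero]
  have hx0 : x ≠ 0 := hx 0 (Nat.zero_le _)
  have hy0 : y ≠ 0 := hy 0 (Nat.zero_le _)
  have hlin : ∀ {c : ℂ} {m : ℕ}, dq x m = jj (cst c) * dq y m → ∀ k, m ≤ k →
      dq x k = jj (cst c) * dq y k := by
    intro c m hm k hk
    induction k, hk using Nat.le_induction with
    | base => exact hm
    | succ k hk ih =>
      change DOm (dq x k) = jj (cst c) * DOm (dq y k)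
      rw [ih, D_mul, hDc]; ring
  rcases h with ⟨c, hc⟩ | ⟨P, Q, p, S, T, q, hQ, hT, h1, h2⟩ | ⟨A, B, P, Q, p, hP, hQ, h1, h2⟩ |
      ⟨A, B, P, Q, φ, hP, hQ, hne, h1, h2⟩
  · have hc0 : c ≠ 0 := by
      rintro rfl
      rw [map_zero, map_zero, zero_mul] at hc
      exact hx0 hc
    exact sup_cst hc0 (hlin (m := 0) hc n (Nat.zero_le _))
  · obtain ⟨P', Q', hQ', e1⟩ := dq_rX (x := x) (m := 0) hQ h1 n (Nat.zero_le _)
    obtain ⟨S', T', hT', e2⟩ := dq_rX (x := y) (m := 0) hT h2 n (Nat.zero_le _)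
    have n1 := hx n le_rfl
    have n2 := hy n le_rfl
    rw [e1] at n1 ⊢
    rw [e2] at n2 ⊢
    exact sup_rX hQ' hT' n1 n2
  · set w := rX P Q (pE p) with hw
    have hw0 : w ≠ 0 := rX_ne hP hQ _
    have hA0 : A ≠ 0 := by
      rintro rfl
      rw [map_zero, map_zero, zero_mul] at h1
      exact hx0 h1
    have hB0 : B ≠ 0 := by
      rintro rfl
      rw [map_zero, map_zero, zero_mul] at h2
      exact hy0 h2
    have hjA := jj_ne (cst_ne hA0)
    have hjB := jj_ne (cst_ne hB0)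
    rcases Nat.eq_zero_or_pos n with rfl | hn
    · change SUP x y
      refine ⟨Q * Polynomial.C B, Polynomial.C (-A) * P, pE p,
        mul_ne_zero hQ (by simpa using hB0), mul_ne_zero (by simpa using hA0) hP, ?_⟩
      have e1 := jj_ne (pE_ne hQ)
      have h3 : jj (pE Q) * w = jj (pE P) * jj (expE (pE p)) := by
        rw [hw]; unfold rX; field_simp
      rw [h1, h2]
      simp only [map_mul, pE_C, map_neg]
      have h4 : jj (cst B) * (w⁻¹ - 1) = jj (cst B) * (1 - w) / w := by field_simp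
      rw [h4]
      have h5 : jj (pE P) * jj (expE (pE p)) = jj (pE Q) * w := h3.symm
      field_simp
      linear_combination (1 - w) * h5
    · -- first derivatives
      obtain ⟨R, hR0, hR⟩ : ∃ R : Polynomial ℂ, True ∧
          DOm w = rX R (Q ^ 2) (pE p) := ⟨_, trivial, dOm_rX hQ p⟩
      have d1x : dq x 1 = rX (Polynomial.C A * R) (Q ^ 2) (pE p) := by
        change DOm x = _
        rw [h1, D_mul, hDc, map_sub, DOm_one, hR]
        unfold rX
        rw [map_mul pE (Polynomial.C A), map_mul, pE_C]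
        ring
      have d1y : dq y 1 = rX (Polynomial.C (-B) * R) (P ^ 2) (pE (-p)) := by
        change DOm y = _
        rw [h2, D_mul, hDc, map_sub, DOm_one, D_inv DOm hw0, hR, hw]
        unfold rX
        have e1 := jj_ne (pE_ne hQ)
        have e2 := jj_ne (pE_ne hP)
        have e3 := jj_ne (expE_ne_zero (pE p))
        have e4 : jj (expE (pE (-p))) * jj (expE (pE p)) = 1 := by
          rw [← map_mul, map_neg pE p, expE_neg, map_one]
        have e5 : jj (expE (pE (-p))) = (jj (expE (pE p)))⁻¹ := by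
          field_simp
          exact e4
        rw [e5]
        simp only [map_mul, map_pow, pE_C, map_neg]
        field_simp
        ring
      obtain ⟨P', Q', hQ', e1⟩ := dq_rX (x := x) (m := 1) (pow_ne_zero 2 hQ) d1x n hn
      obtain ⟨S', T', hT', e2⟩ := dq_rX (x := y) (m := 1) (pow_ne_zero 2 hP) d1y n hn
      have n1 := hx n le_rfl
      have n2 := hy n le_rfl
      rw [e1] at n1 ⊢
      rw [e2] at n2 ⊢
      exact sup_rX hQ' hT' n1 n2
  · set w := rX P Q φ with hw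
    have hw0 : w ≠ 0 := rX_ne hP hQ _
    have hw1 : w - 1 ≠ 0 := sub_ne_zero.mpr hne
    have hw1' : 1 - w ≠ 0 := fun h0 => hw1 (by linear_combination -h0)
    have hiw : w⁻¹ - 1 = (1 - w) / w := by field_simp
    have hA0 : A ≠ 0 := by
      rintro rfl
      rw [map_zero, map_zero, zero_div] at h1
      exact hx0 h1
    have hB0 : B ≠ 0 := by
      rintro rfl
      rw [map_zero, map_zero, zero_div] at h2
      exact hy0 h2
    have hjA := jj_ne (cst_ne hA0)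
    have hjB := jj_ne (cst_ne hB0)
    rcases Nat.eq_zero_or_pos n with rfl | hn
    · change SUP x y
      have h3 : jj (cst B) * w * x = - jj (cst A) * y := by
        rw [h1, h2, hiw]
        field_simp
        ring
      refine ⟨Polynomial.C B * P, Polynomial.C (-A) * Q, -φ,
        mul_ne_zero (by simpa using hB0) hP, mul_ne_zero (by simpa using hA0) hQ, ?_⟩
      have e1 := jj_ne (pE_ne hQ)
      have e3 := jj_ne (expE_ne_zero φ)
      have h4 : jj (pE P) * jj (expE φ) = jj (pE Q) * w := by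
        rw [hw]; unfold rX; field_simp
      have e4 : jj (expE (-φ)) * jj (expE φ) = 1 := by
        rw [← map_mul, expE_neg, map_one]
      simp only [map_mul, pE_C, map_neg]
      apply mul_right_cancel₀ e3
      linear_combination (jj (cst B) * x) * h4 + jj (pE Q) * h3 + (jj (cst A) * jj (pE Q) * y) * e4
    · have h3 : x = jj (cst (-(A / B))) * y - jj (cst A) := by
        have h4 : jj (cst (A / B)) * jj (cst B) = jj (cst A) := by
          rw [← map_mul, ← map_mul, div_mul_cancel₀ _ hB0]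
        rw [h1, h2, hiw, map_neg, map_neg, ← h4]
        field_simp
        ring
      have h5 : dq x 1 = jj (cst (-(A / B))) * dq y 1 := by
        change DOm x = jj (cst (-(A / B))) * DOm y
        rw [h3, map_sub, D_mul, hDc, hDc]; ring
      exact sup_cst (neg_ne_zero.mpr (div_ne_zero hA0 hB0)) (hlin h5 n hn)

end Pool.Agent.BcfFin
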