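import Pool.Agent.BcfFin.TwoExp

/-!
The main theorem for quotients of entire functions.
-/

set_option autoImplicit false
set_option linter.unusedSectionVars false
set_option linter.unusedVariables false

open Complex
open Pool.Agent.Hhelper32.Bcf

namespace Pool.Agent.BcfFin

/-- quotients of entire functions -/
def IsMer (x : Om) : Prop := ∃ a b : Ent, b ≠ 0 ∧ x = jj a / jj b

theorem D_quot {a b : Ent} (hb : b ≠ 0) :
    DOm (jj a / jj b) = jj (dEnt a * b - a * dEnt b) / jj (b ^ 2) := by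
  rw [D_div DOm (jj_ne hb), D_jj, D_jj, map_sub, map_mul, map_mul, map_pow]

theorem IsMer.D {x : Om} (h : IsMer x) : IsMer (DOm x) := by
  obtain ⟨a, b, hb, rfl⟩ := h
  exact ⟨_, _, pow_ne_zero 2 hb, D_quot hb⟩

theorem val_mul (a b : Ent) : (a * b).1 = fun z => a.1 z * b.1 z := rfl

theorem ord_pos_fin {a : Ent} (ha : a ≠ 0) (z : ℂ) : ∃ m : ℕ, analyticOrderAt a.1 z = m :=
  ⟨analyticOrderNatAt a.1 z, (Nat.cast_analyticOrderNatAt (ord_ne_top a.2 (Ent_ne ha) z)).symm⟩

theorem ord_mulE (a b : Ent) (z : ℂ) :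
    analyticOrderAt (a * b).1 z = analyticOrderAt a.1 z + analyticOrderAt b.1 z :=
  analyticOrderAt_mul (a.2.analyticAt z) (b.2.analyticAt z)

theorem ord_wrE {a b : Ent} {z : ℂ} {m n : ℕ} (hm : analyticOrderAt a.1 z = m)
    (hn : analyticOrderAt b.1 z = n) (hmn : m ≠ n) :
    ∃ w : ℕ, analyticOrderAt (dEnt a * b - a * dEnt b).1 z = w ∧ 1 + w = m + n := by
  have h1 := ord_wr a.2 b.2 hm hn hmn
  have h2 : (fun z => deriv a.1 z * b.1 z - a.1 z * deriv b.1 z) = (dEnt a * b - a * dEnt b).1 := rfl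
  rw [h2] at h1
  have h3 : analyticOrderAt (dEnt a * b - a * dEnt b).1 z ≠ ⊤ := by
    intro h4
    rw [h4, add_top] at h1
    exact ENat.natCast_ne_top _ h1.symm
  refine ⟨_, (Nat.cast_analyticOrderNatAt h3).symm, ?_⟩
  rw [← Nat.cast_analyticOrderNatAt h3] at h1
  exact_mod_cast h1

/-- A quotient of entire functions whose derivative is algebraic over `ℂ(z)` is rational. -/
theorem anti_rat {x : Om} (hx : IsMer x) (h : DOm x ∈ acl Cz) : x ∈ acl Cz := by
  obtain ⟨a, b, hb, rfl⟩ := hx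
  by_cases ha : a = 0
  · rw [ha, map_zero, zero_div]; exact zero_mem _
  rw [D_quot hb] at h
  obtain ⟨M, N, hM, hMN⟩ := rat_of_alg (pow_ne_zero 2 hb) h
  -- orders
  have hord : ∀ z, analyticOrderAt b.1 z ≤ analyticOrderAt (pE M * a).1 z := by
    intro z
    obtain ⟨m, hm⟩ := ord_pos_fin ha z
    obtain ⟨n, hn⟩ := ord_pos_fin hb z
    obtain ⟨k, hk⟩ := ord_pos_fin (pE_ne hM) z
    rw [ord_mulE, hm, hn, hk]
    by_contra hcon
    push Not at hcon
    have hcon' : k + m < n := by exact_mod_cast hcon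
    obtain ⟨w, hw, hw1⟩ := ord_wrE hm hn (by omega)
    have h1 := congrArg (fun f : Ent => analyticOrderAt f.1 z) hMN
    rw [ord_mulE, ord_mulE, hk, hw, pow_two, ord_mulE, hn] at h1
    have h2 : ((n + n : ℕ) : ℕ∞) ≤ ((k + w : ℕ) : ℕ∞) := by
      push_cast
      rw [h1]
      exact le_add_self
    have h3 : n + n ≤ k + w := by exact_mod_cast h2
    omega
  obtain ⟨Y, hY, hYab⟩ := div_entire (pE M * a).2 b.2 (Ent_ne hb) hord
  set Y' : Ent := ⟨Y, hY⟩ with hY'
  have hab : pE M * a = Y' * b := Ent.ext hYab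
  have hd : dEnt (pE M * a) = dEnt (Y' * b) := by rw [hab]
  rw [Derivation.leibniz, Derivation.leibniz, dEnt_pE] at hd
  simp only [smul_eq_mul] at hd
  have hode : pE M * dEnt Y' - pE (Polynomial.derivative M) * Y' = pE (M * N) := by
    have hb2 : b ^ 2 ≠ 0 := pow_ne_zero 2 hb
    apply mul_right_cancel₀ hb2
    rw [map_mul]
    linear_combination (-(pE M) * b) * hd + (pE M) * hMN +
      (pE (Polynomial.derivative M) * b + pE M * dEnt b) * hab
  obtain ⟨p, hp⟩ := ode_poly hY (M := M) (K := M * N) hM (fun z => by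
    have h1 := congrFun (congrArg Subtype.val hode) z
    have h2 : (pE M).1 z * deriv Y z - (pE (Polynomial.derivative M)).1 z * Y z = (pE (M * N)).1 z := h1
    rw [pE_apply, pE_apply, pE_apply] at h2
    exact h2)
  have hYp : Y' = pE p := Ent.ext (fun z => by rw [pE_apply]; exact hp z)
  have hfin : jj a / jj b = jj (pE p) / jj (pE M) := by
    have h1 := jj_ne hb
    have h2 := jj_ne (pE_ne hM)
    have h3 := congrArg jj hab
    rw [hYp, map_mul, map_mul] at h3
    field_simp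
    linear_combination h3
  rw [hfin]
  exact div_mem (le_acl _ (mem_Cz _)) (le_acl _ (mem_Cz _))

/-- rational functions -/
theorem rat_form {x : Om} (hx : IsMer x) (h : x ∈ acl Cz) :
    ∃ P Q : Polynomial ℂ, Q ≠ 0 ∧ x = jj (pE P) / jj (pE Q) := by
  obtain ⟨a, b, hb, rfl⟩ := hx
  obtain ⟨M, N, hM, hMN⟩ := rat_of_alg hb h
  refine ⟨N, M, hM, ?_⟩
  have h1 := jj_ne hb
  have h2 := jj_ne (pE_ne hM)
  have h3 := congrArg jj hMN
  rw [map_mul, map_mul] at h3
  field_simp
  linear_combination h3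

/-- Algebraic logarithmic derivative. -/
theorem exp_formM {x : Om} (hx : IsMer x) (hx0 : x ≠ 0) (h : ld DOm x ∈ acl Cz) :
    ∃ P Q p : Polynomial ℂ, Q ≠ 0 ∧ x = jj (pE P) / jj (pE Q) * jj (expE (pE p)) := by
  obtain ⟨a, b, hb, rfl⟩ := hx
  have ha : a ≠ 0 := by
    rintro rfl
    rw [map_zero, zero_div] at hx0
    exact hx0 rfl
  have hja := jj_ne ha
  have hjb := jj_ne hb
  have hld : ld DOm (jj a / jj b) = jj (dEnt a * b - a * dEnt b) / jj (a * b) := by
    unfold ld
    rw [D_quot hb, map_pow, map_mul]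
    field_simp
  rw [hld] at h
  obtain ⟨M, N, hM, hMN⟩ := rat_of_alg (mul_ne_zero ha hb) h
  have hord : ∀ z, z ∉ {z | M.IsRoot z} → analyticOrderAt a.1 z = analyticOrderAt b.1 z := by
    intro z hz
    obtain ⟨m, hm⟩ := ord_pos_fin ha z
    obtain ⟨n, hn⟩ := ord_pos_fin hb z
    rw [hm, hn]
    by_contra hcon
    have hmn : m ≠ n := fun h0 => hcon (by rw [h0])
    obtain ⟨w, hw, hw1⟩ := ord_wrE hm hn hmn
    have hM0 : analyticOrderAt (pE M).1 z = 0 := by
      rw [((pE M).2.analyticAt z).analyticOrderAt_eq_zero, pE_apply]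
      exact hz
    have h1 := congrArg (fun f : Ent => analyticOrderAt f.1 z) hMN
    rw [ord_mulE, ord_mulE, hM0, hw, ord_mulE, hm, hn, zero_add] at h1
    have h2 : ((m + n : ℕ) : ℕ∞) ≤ ((w : ℕ) : ℕ∞) := by
      push_cast
      rw [h1]
      exact le_add_self
    have h3 : m + n ≤ w := by exact_mod_cast h2
    omega
  obtain ⟨P, Q, hP, hQ, φ, hφ, hrel⟩ := exists_ratio a.2 b.2 (Ent_ne ha) (Ent_ne hb)
    (Polynomial.finite_setOfPred_isRoot hM) hord
  set φ' : Ent := ⟨φ, hφ⟩ with hφ'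
  have hab : pE P * a = pE Q * expE φ' * b := Ent.ext (fun z => by
    change (pE P).1 z * a.1 z = (pE Q).1 z * Complex.exp (φ z) * b.1 z
    rw [pE_apply, pE_apply]
    exact hrel z)
  have hjP := jj_ne (pE_ne hP)
  have hjQ := jj_ne (pE_ne hQ)
  have hjE := jj_ne (expE_ne_zero φ')
  have hx1 : jj a / jj b = jj (pE Q) / jj (pE P) * jj (expE φ') := by
    have h3 := congrArg jj hab
    simp only [map_mul] at h3
    field_simp
    linear_combination h3
  have hφm : jj (dEnt φ') ∈ acl Cz := by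
    rw [← hld, hx1, ld_mul DOm (div_ne_zero hjQ hjP) hjE, ld_jj_exp] at h
    have h4 : ld DOm (jj (pE Q) / jj (pE P)) ∈ acl Cz :=
      ld_mem Cz_good (div_mem (le_acl _ (mem_Cz _)) (le_acl _ (mem_Cz _)))
    have h5 := sub_mem h h4
    rwa [add_sub_cancel_left] at h5
  obtain ⟨M', N', hM', hMN'⟩ := rat_of_alg (A := dEnt φ') (B := 1) one_ne_zero (by
    rw [map_one, div_one]; exact hφm)
  rw [mul_one] at hMN'
  obtain ⟨p', hp'⟩ := pE_of_mul hM' hMN'
  obtain ⟨p, hp⟩ := pE_of_dEnt hp'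
  exact ⟨Q, P, p, hP, by rw [hx1, hp]⟩

/-! ### the data -/

noncomputable def LM (F : ℕ → Om) (n : ℕ) : Om := F (n+1) / F n

structure DatM (F G : ℕ → Om) (P Q : ℕ → Polynomial ℂ) (φ : ℕ → Ent) : Prop where
  hF : ∀ n, DOm (F n) = F (n+1)
  hG : ∀ n, DOm (G n) = G (n+1)
  mF : IsMer (F 0)
  mG : IsMer (G 0)
  hF0 : ∀ n ≤ 14, F n ≠ 0
  hG0 : ∀ n ≤ 14, G n ≠ 0
  hP : ∀ n ≤ 13, P n ≠ 0
  hQ : ∀ n ≤ 13, Q n ≠ 0
  rel : ∀ n ≤ 13, jj (pE (P n)) * (F (n+1) * G n) =
    jj (pE (Q n)) * jj (expE (φ n)) * (F n * G (n+1))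

theorem LM_eq {G : ℕ → Om} (hG : ∀ n, DOm (G n) = G (n+1)) (n : ℕ) : LM G n = ld DOm (G n) := by
  unfold LM ld
  rw [hG]

theorem LM_step {G : ℕ → Om} (hG : ∀ n, DOm (G n) = G (n+1)) {n : ℕ} (h0 : G n ≠ 0)
    (h1 : G (n+1) ≠ 0) : LM G (n+1) = LM G n + ld DOm (LM G n) := by
  have h2 : ld DOm (LM G n) = LM G (n+1) - LM G n := by
    conv_lhs => unfold LM
    rw [ld_div DOm h1 h0, ← LM_eq hG, ← LM_eq hG]
  rw [h2]; ring

theorem mer_all {F : ℕ → Om} (hF : ∀ n, DOm (F n) = F (n+1)) (h : IsMer (F 0)) : ∀ n, IsMer (F n) := by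
  intro n
  induction n with
  | zero => exact h
  | succ n ih => rw [← hF]; exact ih.D

theorem rat_down {F : ℕ → Om} (hF : ∀ n, DOm (F n) = F (n+1)) (h : IsMer (F 0)) :
    ∀ n, F n ∈ acl Cz → F 0 ∈ acl Cz := by
  intro n
  induction n with
  | zero => exact fun h => h
  | succ n ih =>
    intro hn
    apply ih
    apply anti_rat (mer_all hF h n)
    rw [hF]; exact hn

section
variable {F G : ℕ → Om} {P Q : ℕ → Polynomial ℂ} {φ : ℕ → Ent}

theorem LG_neM (hd : DatM F G P Q φ) {n : ℕ} (hn : n ≤ 13) : LM G n ≠ 0 :=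
  div_ne_zero (hd.hG0 (n+1) (by omega)) (hd.hG0 n (by omega))

theorem LF_neM (hd : DatM F G P Q φ) {n : ℕ} (hn : n ≤ 13) : LM F n ≠ 0 :=
  div_ne_zero (hd.hF0 (n+1) (by omega)) (hd.hF0 n (by omega))

theorem quot_eqM (hd : DatM F G P Q φ) {n : ℕ} (hn : n ≤ 13) :
    LM F n / LM G n = jj (pE (Q n)) / jj (pE (P n)) * jj (expE (φ n)) := by
  have h1 := hd.hG0 n (by omega)
  have h2 := hd.hG0 (n+1) (by omega)
  have h3 := hd.hF0 n (by omega)
  have h4 := jj_ne (pE_ne (hd.hP n hn))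
  have h5 := hd.rel n hn
  unfold LM
  field_simp
  linear_combination h5

theorem windowM (hd : DatM F G P Q φ) (hne : ∀ n ≤ 13, LM F n ≠ LM G n) {k : ℕ} (hk : k ≤ 1) :
    (LM F k - LM G k ∈ acl Cz ∧ LM F k / LM G k ∈ acl Cz) ∨
      LM F (k+1) - LM G (k+1) = 2 * (LM F k - LM G k) := by
  set ψ : Fin 13 → Ent := fun i => φ (i.1+k) with hψ
  by_cases hall : ∀ n ≤ 12, jj (expE (φ (n+k))) ∈ acl (Rphi ψ)
  · left
    have h1 := F1 ψ (fun i => hall i.1 (by have := i.2; omega))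
    have h2 : ∀ n ≤ 12, LM F (n+k) / LM G (n+k) ∈ acl Cz := by
      intro n hn
      have h3 : dEnt (φ (n+k)) = 0 := h1 ⟨n, by omega⟩
      obtain ⟨c, hc⟩ := const_of_dEnt h3
      rw [quot_eqM hd (by omega), hc, expE_cst, ← pE_C]
      exact mul_mem (div_mem (le_acl _ (mem_Cz _)) (le_acl _ (mem_Cz _))) (le_acl _ (mem_Cz _))
    refine ⟨?_, by simpa using h2 0 (by omega)⟩
    have h4 := part0_Cz (L := fun n => LM G (n+k)) (M := fun n => LM F (n+k))
      (fun n hn => LG_neM hd (by omega)) (fun n hn => LF_neM hd (by omega))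
      (fun n hn => hne (n+k) (by omega))
      (fun n hn => by
        have := LM_step hd.hG (n := n+k) (hd.hG0 _ (by omega)) (hd.hG0 _ (by omega))
        rw [show n + 1 + k = n + k + 1 by ring]
        exact this)
      (fun n hn => by
        have := LM_step hd.hF (n := n+k) (hd.hF0 _ (by omega)) (hd.hF0 _ (by omega))
        rw [show n + 1 + k = n + k + 1 by ring]
        exact this)
      (fun n hn => h2 n (by omega))
    simpa using h4
  · right
    push Not at hall
    obtain ⟨n₀, hn₀, hnot⟩ := hall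
    set R' : Subring Om := (acl (Rphi ψ)).toSubring with hR'
    have hgood : GoodR DOm R' :=
      ⟨fun x hx => acl_D DOm (Rphi_good ψ).stable x hx,
        fun x hx => le_acl _ ((Rphi_good ψ).const x hx)⟩
    have hRR : acl R' ≤ acl (Rphi ψ) := acl_mono (fun x hx => hx)
    have hpm : ∀ p : Polynomial ℂ, jj (pE p) ∈ acl (Rphi ψ) := fun p => le_acl _ (pE_mem _ ψ p)
    have key := alg_total (D := DOm) hgood (z := jj idE) (le_acl _ (id_mem ψ)) (by
        rw [D_jj, dEnt_id, map_one]) (N := 12) (by norm_num)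
      (L := fun n => LM G (n+k)) (M := fun n => LM F (n+k))
      (fun n hn => LG_neM hd (by omega)) (fun n hn => LF_neM hd (by omega))
      (fun n hn => hne (n+k) (by omega))
      (fun n hn => by
        have := LM_step hd.hG (n := n+k) (hd.hG0 _ (by omega)) (hd.hG0 _ (by omega))
        rw [show n + 1 + k = n + k + 1 by ring]
        exact this)
      (fun n hn => by
        have := LM_step hd.hF (n := n+k) (hd.hF0 _ (by omega)) (hd.hF0 _ (by omega))
        rw [show n + 1 + k = n + k + 1 by ring]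
        exact this)
      (fun n hn => by
        have h1 := jj_ne (pE_ne (hd.hP (n+k) (by omega)))
        have h2 := jj_ne (pE_ne (hd.hQ (n+k) (by omega)))
        have h3 := jj_ne (expE_ne_zero (φ (n+k)))
        rw [quot_eqM hd (by omega), ld_mul DOm (div_ne_zero h2 h1) h3, ld_jj_exp]
        refine add_mem (ld_mem (Rphi_good ψ) (div_mem (hpm _) (hpm _)))
          (le_acl _ (dphi_mem ψ ⟨n, by omega⟩)))
      ⟨n₀, hn₀, by
        intro hmem
        apply hnot
        have h1 := hRR hmem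
        rw [quot_eqM hd (by omega)] at h1
        have h2 := jj_ne (pE_ne (hd.hP (n₀+k) (by omega)))
        have h3 := jj_ne (pE_ne (hd.hQ (n₀+k) (by omega)))
        have h4 : jj (expE (φ (n₀+k))) = (jj (pE (Q (n₀+k))) / jj (pE (P (n₀+k))) *
            jj (expE (φ (n₀+k)))) * (jj (pE (P (n₀+k))) / jj (pE (Q (n₀+k)))) := by
          field_simp
        rw [h4]
        exact mul_mem h1 (div_mem (hpm _) (hpm _))⟩
    simp only [zero_add] at key
    rw [add_comm k 1, key]

/-- the fourth family -/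
def FamIV (x y : Om) : Prop :=
  ∃ (A B : ℂ) (P Q : Polynomial ℂ) (φ : Ent), P ≠ 0 ∧ Q ≠ 0 ∧
    jj (pE P) / jj (pE Q) * jj (expE φ) ≠ 1 ∧
    x = jj (cst A) / (jj (pE P) / jj (pE Q) * jj (expE φ) - 1) ∧
    y = jj (cst B) / ((jj (pE P) / jj (pE Q) * jj (expE φ))⁻¹ - 1)

theorem caseA_M (hd : DatM F G P Q φ) (h : ∃ n ≤ 13, LM F n = LM G n) :
    (∃ c : ℂ, F 0 = jj (cst c) * G 0) ∨ (F 0 ∈ acl Cz ∧ G 0 ∈ acl Cz) ∨ FamIV (F 0) (G 0) := by
  classical
  set n := Nat.find h with hn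
  obtain ⟨hn13, h0⟩ := Nat.find_spec h
  have hmin : ∀ k < n, LM F k ≠ LM G k := fun k hk h1 =>
    Nat.find_min h hk ⟨by omega, h1⟩
  rw [← hn] at hn13 h0
  have hFn := hd.hF0 n (by omega)
  have hGn := hd.hG0 n (by omega)
  obtain ⟨c, hc⟩ : ∃ c : ℂ, F n = jj (cst c) * G n := by
    have hne : F n / G n ≠ 0 := div_ne_zero hFn hGn
    have h1 : ld DOm (F n / G n) = 0 := by
      rw [ld_div DOm hFn hGn, ← LM_eq hd.hF, ← LM_eq hd.hG, h0, sub_self]
    obtain ⟨c, hc⟩ := Om_const' (x := F n / G n) (by rw [ld_eq DOm hne, h1, zero_mul])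
    exact ⟨c, by rw [← hc]; field_simp⟩
  have hc0 : jj (cst c) ≠ 0 := by
    intro h1; rw [h1, zero_mul] at hc; exact hFn hc
  have hDc : ∀ c : ℂ, DOm (jj (cst c)) = 0 := fun c => by rw [D_jj, dEnt_cst, map_zero]
  rcases Nat.eq_zero_or_pos n with hn0 | hn0
  · left
    rw [hn0] at hc
    exact ⟨c, hc⟩
  right
  obtain ⟨m, hm⟩ : ∃ m, n = m + 1 := ⟨n - 1, by omega⟩
  rw [hm] at hc hmin hn13
  have hFm := hd.hF0 m (by omega)
  have hGm := hd.hG0 m (by omega)
  have hFm1 := hd.hF0 (m+1) (by omega)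
  have hGm1 := hd.hG0 (m+1) (by omega)
  obtain ⟨p, hp⟩ : ∃ p : ℂ, F m - jj (cst c) * G m = jj (cst p) := Om_const' (by
    rw [map_sub, D_mul, hDc, hd.hF, hd.hG, hc]; ring)
  have hp0 : jj (cst p) ≠ 0 := by
    intro h1
    rw [h1] at hp
    apply hmin m (by omega)
    unfold LM
    rw [hc, sub_eq_zero.mp hp]
    field_simp
  set w := LM F m / LM G m with hw
  have hw' : w = jj (cst c) * G m / F m := by
    rw [hw]
    unfold LM
    rw [hc]
    field_simp
  have hw0 : w ≠ 0 := div_ne_zero (LF_neM hd (by omega)) (LG_neM hd (by omega))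
  have hFw : F m * (1 - w) = jj (cst p) := by
    rw [hw', ← hp]; field_simp
  have hw1 : 1 - w ≠ 0 := by
    intro h1; rw [h1, mul_zero] at hFw; exact hp0 hFw.symm
  have hw1' : w - 1 ≠ 0 := fun h1 => hw1 (by linear_combination -h1)
  have hGw : jj (cst c) * G m = w * F m := by rw [hw']; field_simp
  have hwq := quot_eqM hd (n := m) (by omega)
  rw [← hw] at hwq
  clear_value w
  rcases Nat.eq_zero_or_pos m with hm0 | hm0
  · right
    rw [hm0] at hFw hGw hwq
    have hiw : w⁻¹ - 1 ≠ 0 := by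
      intro h1
      apply hw1
      field_simp at h1
      simpa using h1
    refine ⟨-p, p / c, Q 0, P 0, φ 0, hd.hQ 0 (by omega), hd.hP 0 (by omega), ?_, ?_, ?_⟩
    · rw [← hwq]
      intro h1; exact hw1' (by rw [h1, sub_self])
    · rw [← hwq, eq_div_iff hw1', map_neg, map_neg, ← hFw]; ring
    · rw [← hwq, eq_div_iff hiw]
      have h1 : jj (cst (p / c)) * jj (cst c) = jj (cst p) := by
        rw [← map_mul, ← map_mul, div_mul_cancel₀]
        rintro rfl
        apply hc0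
        rw [map_zero, map_zero]
      apply mul_left_cancel₀ hc0
      have h2 : jj (cst c) * (G 0 * (w⁻¹ - 1)) = (jj (cst c) * G 0) * (w⁻¹ - 1) := by ring
      rw [h2, hGw, mul_comm (jj (cst c)), h1, ← hFw]
      field_simp
  · left
    obtain ⟨l, hl⟩ : ∃ l, m = l + 1 := ⟨m - 1, by omega⟩
    rw [hl] at hFw hGw hwq hp hFm hGm hw
    have hFl := hd.hF0 l (by omega)
    have hGl := hd.hG0 l (by omega)
    -- G l in terms of F l
    obtain ⟨q, hq⟩ : ∃ q : ℂ, F l - jj (cst c) * G l - jj (cst p) * jj idE = jj (cst q) := Om_const' (by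
      rw [map_sub, map_sub, D_mul, D_mul, hDc, hDc, hd.hF, hd.hG, D_jj idE, dEnt_id, map_one]
      linear_combination hp)
    set ℓ : Polynomial ℂ := Polynomial.C p * Polynomial.X + Polynomial.C q with hℓ
    have hℓE : pE ℓ = cst p * idE + cst q := by
      rw [hℓ, map_add, map_mul, pE_C, pE_C]
      have : pE Polynomial.X = idE := Polynomial.aeval_X idE
      rw [this]
    have hp00 : p ≠ 0 := by
      rintro rfl
      apply hp0
      rw [map_zero, map_zero]
    have hℓ0 : ℓ ≠ 0 := by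
      intro h1
      have h2 := congrArg (fun r => Polynomial.coeff r 1) h1
      simp [hℓ] at h2
      exact hp00 h2
    have hjℓ : jj (pE ℓ) = jj (cst p) * jj idE + jj (cst q) := by rw [hℓE, map_add, map_mul]
    have hGl' : jj (cst c) * G l = F l - jj (pE ℓ) := by rw [hjℓ]; linear_combination -hq
    set E' := LM F l / LM G l with hE'
    have hE'0 : E' ≠ 0 := div_ne_zero (LF_neM hd (by omega)) (LG_neM hd (by omega))
    have hEq : E' = jj (pE (Q l)) / jj (pE (P l)) * jj (expE (φ l)) := quot_eqM hd (by omega)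
    have hE'' : E' * (F l * w) = F l - jj (pE ℓ) := by
      rw [← hGl', hE']
      unfold LM
      have h1 : w * F (l+1) = jj (cst c) * G (l+1) := hGw.symm
      field_simp
      linear_combination h1
    set v := w * E' with hv
    have hv0 : v ≠ 0 := mul_ne_zero hw0 hE'0
    have hFv : F l * (1 - v) = jj (pE ℓ) := by rw [hv]; linear_combination -hE''
    have hjℓ0 : jj (pE ℓ) ≠ 0 := jj_ne (pE_ne hℓ0)
    have hv1 : v ≠ 1 := by
      intro h1; rw [h1, sub_self, mul_zero] at hFv; exact hjℓ0 hFv.symm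
    have hv1' : 1 - v ≠ 0 := fun h1 => hv1 (by linear_combination -h1)
    set f : Fin 2 → Ent := ![φ (l+1), φ l] with hf
    have hgood := Rphi_good f
    have hpm : ∀ p : Polynomial ℂ, jj (pE p) ∈ acl (Rphi f) := fun p => le_acl _ (pE_mem _ f p)
    have hcm : ∀ c : ℂ, jj (cst c) ∈ acl (Rphi f) := fun c => by rw [← pE_C]; exact hpm _
    have hP1 := jj_ne (pE_ne (hd.hP (l+1) (by omega)))
    have hQ1 := jj_ne (pE_ne (hd.hQ (l+1) (by omega)))
    have hP0 := jj_ne (pE_ne (hd.hP l (by omega)))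
    have hQ0 := jj_ne (pE_ne (hd.hQ l (by omega)))
    have hX1 := jj_ne (expE_ne_zero (φ (l+1)))
    have hX0 := jj_ne (expE_ne_zero (φ l))
    have hldw : ld DOm w ∈ acl (Rphi f) := by
      rw [hwq, ld_mul DOm (div_ne_zero hQ1 hP1) hX1, ld_jj_exp]
      exact add_mem (ld_mem hgood (div_mem (hpm _) (hpm _))) (le_acl _ (dphi_mem f 0))
    have hldE' : ld DOm E' ∈ acl (Rphi f) := by
      rw [hEq, ld_mul DOm (div_ne_zero hQ0 hP0) hX0, ld_jj_exp]
      exact add_mem (ld_mem hgood (div_mem (hpm _) (hpm _))) (le_acl _ (dphi_mem f 1))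
    have hldv : ld DOm v ∈ acl (Rphi f) := by
      rw [hv, ld_mul DOm hw0 hE'0]
      exact add_mem hldw hldE'
    -- the relation
    have hDv : DOm v = ld DOm v * v := ld_eq DOm hv0
    have hDℓ : DOm (jj (pE ℓ)) = jj (cst p) := by
      rw [hjℓ, map_add, D_mul, hDc, hDc, D_jj idE, dEnt_id, map_one]; ring
    have hD1 : F (l+1) * (1 - v) - F l * (ld DOm v * v) = jj (cst p) := by
      have h1 := congrArg DOm hFv
      rw [hDℓ, D_mul, map_sub, DOm_one, hd.hF, hDv] at h1
      linear_combination h1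
    have hR : jj (cst p) * (1 - v) * (w - v) = (jj (pE ℓ) * ld DOm v) * v * (1 - w) := by
      linear_combination ((1 - v) * (1 - w)) * hD1 - ((1 - v) ^ 2) * hFw +
        (ld DOm v * v * (1 - w)) * hFv
    set S := dext DOm (Rphi f) hgood with hS
    obtain ⟨⟨w', hw''⟩, ⟨v', hv''⟩⟩ := two_exp (S := S) (K := acl (Rphi f)) hw0 hv0 hv1
      (β := ⟨ld DOm w, hldw⟩) (ρ := ⟨ld DOm v, hldv⟩) (p := ⟨jj (cst p), hcm p⟩)
      (l := ⟨jj (pE ℓ), hpm ℓ⟩) rfl rfl (fun h1 => hp0 (congrArg Subtype.val h1))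
      (fun h1 => hjℓ0 (congrArg Subtype.val h1)) hR
    have hwm : w ∈ acl (Rphi f) := by rw [← hw'']; exact w'.2
    have hvm : v ∈ acl (Rphi f) := by rw [← hv'']; exact v'.2
    have hE'm : E' ∈ acl (Rphi f) := by
      have : E' = v / w := by rw [hv]; field_simp
      rw [this]; exact div_mem hvm hwm
    have hx1 : jj (expE (φ (l+1))) ∈ acl (Rphi f) := by
      have : jj (expE (φ (l+1))) = w * (jj (pE (P (l+1))) / jj (pE (Q (l+1)))) := by
        rw [hwq]; field_simp
      rw [this]; exact mul_mem hwm (div_mem (hpm _) (hpm _))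
    have hx0 : jj (expE (φ l)) ∈ acl (Rphi f) := by
      have : jj (expE (φ l)) = E' * (jj (pE (P l)) / jj (pE (Q l))) := by
        rw [hEq]; field_simp
      rw [this]; exact mul_mem hE'm (div_mem (hpm _) (hpm _))
    have hF1 := F1 f (fun i => by
      fin_cases i
      · exact hx1
      · exact hx0)
    have e1 : dEnt (φ (l+1)) = 0 := hF1 0
    have e0 : dEnt (φ l) = 0 := hF1 1
    obtain ⟨c1, hc1⟩ := const_of_dEnt e1
    obtain ⟨c0, hc0'⟩ := const_of_dEnt e0
    have hCz : ∀ p : Polynomial ℂ, jj (pE p) ∈ acl Cz := fun p => le_acl _ (mem_Cz p)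
    have hwCz : w ∈ acl Cz := by
      rw [hwq, hc1, expE_cst, ← pE_C]
      exact mul_mem (div_mem (hCz _) (hCz _)) (hCz _)
    have hE'Cz : E' ∈ acl Cz := by
      rw [hEq, hc0', expE_cst, ← pE_C]
      exact mul_mem (div_mem (hCz _) (hCz _)) (hCz _)
    have hvCz : v ∈ acl Cz := mul_mem hwCz hE'Cz
    have hFlCz : F l ∈ acl Cz := by
      have : F l = jj (pE ℓ) / (1 - v) := by rw [← hFv]; field_simp
      rw [this]
      exact div_mem (hCz _) (sub_mem (one_mem _) hvCz)
    have hGlCz : G l ∈ acl Cz := by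
      have : G l = (F l - jj (pE ℓ)) / jj (cst c) := by rw [← hGl']; field_simp
      rw [this, ← pE_C]
      exact div_mem (sub_mem hFlCz (hCz _)) (hCz _)
    exact ⟨rat_down hd.hF hd.mF l hFlCz, rat_down hd.hG hd.mG l hGlCz⟩

/-- **Main theorem for quotients of entire functions.** -/
theorem main_M (hd : DatM F G P Q φ) :
    (∃ c : ℂ, F 0 = jj (cst c) * G 0) ∨
    (∃ P₁ Q₁ p P₂ Q₂ q : Polynomial ℂ, Q₁ ≠ 0 ∧ Q₂ ≠ 0 ∧
      F 0 = jj (pE P₁) / jj (pE Q₁) * jj (expE (pE p)) ∧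
      G 0 = jj (pE P₂) / jj (pE Q₂) * jj (expE (pE q))) ∨
    (∃ (A B : ℂ) (P₁ Q₁ p : Polynomial ℂ), P₁ ≠ 0 ∧ Q₁ ≠ 0 ∧
      F 0 = jj (cst A) * (jj (pE P₁) / jj (pE Q₁) * jj (expE (pE p)) - 1) ∧
      G 0 = jj (cst B) * ((jj (pE P₁) / jj (pE Q₁) * jj (expE (pE p)))⁻¹ - 1)) ∨
    FamIV (F 0) (G 0) := by
  by_cases hA : ∃ n ≤ 13, LM F n = LM G n
  · rcases caseA_M hd hA with h | ⟨h1, h2⟩ | h
    · exact Or.inl h
    · right; left
      obtain ⟨P₁, Q₁, hQ₁, e1⟩ := rat_form hd.mF h1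
      obtain ⟨P₂, Q₂, hQ₂, e2⟩ := rat_form hd.mG h2
      refine ⟨P₁, Q₁, 0, P₂, Q₂, 0, hQ₁, hQ₂, ?_, ?_⟩
      · rw [e1, map_zero, expE_zero, map_one, mul_one]
      · rw [e2, map_zero, expE_zero, map_one, mul_one]
    · exact Or.inr (Or.inr (Or.inr h))
  push Not at hA
  right
  have hjF := hd.hF0 0 (by omega)
  have hjG := hd.hG0 0 (by omega)
  have hL := LG_neM hd (n := 0) (by omega)
  have hM := LF_neM hd (n := 0) (by omega)
  set u := LM F 0 - LM G 0 with hu
  have hu0 : u ≠ 0 := sub_ne_zero.mpr (hA 0 (by omega))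
  set E := LM F 0 / LM G 0 with hE
  have hE0 : E ≠ 0 := div_ne_zero hM hL
  have hF : LM F 0 = E * LM G 0 := by rw [hE]; field_simp
  have hL1 : LM G 0 * (E - 1) = u := by rw [hu, hF]; ring
  have hE1 : E - 1 ≠ 0 := by
    intro h; rw [h, mul_zero] at hL1; exact hu0 hL1.symm
  have hLG : LM G 0 = u / (E - 1) := by field_simp; exact hL1
  have hEq : E = jj (pE (Q 0)) / jj (pE (P 0)) * jj (expE (φ 0)) := quot_eqM hd (by omega)
  have hP0 := jj_ne (pE_ne (hd.hP 0 (by omega)))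
  have hQ0 := jj_ne (pE_ne (hd.hQ 0 (by omega)))
  have hX0 := jj_ne (expE_ne_zero (φ 0))
  have hCz : ∀ p : Polynomial ℂ, jj (pE p) ∈ acl Cz := fun p => le_acl _ (mem_Cz p)
  rcases windowM hd hA (k := 0) (by norm_num) with ⟨hw1, hw2⟩ | h10
  · left
    have hLGm : LM G 0 ∈ acl Cz := by
      rw [hLG]
      exact div_mem hw1 (sub_mem hw2 (one_mem _))
    have hLFm : LM F 0 ∈ acl Cz := by
      rw [hF]
      exact mul_mem hw2 hLGm
    rw [LM_eq hd.hG] at hLGm
    rw [LM_eq hd.hF] at hLFm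
    obtain ⟨P₁, Q₁, p, hQ₁, e1⟩ := exp_formM hd.mF hjF hLFm
    obtain ⟨P₂, Q₂, q, hQ₂, e2⟩ := exp_formM hd.mG hjG hLGm
    exact ⟨P₁, Q₁, p, P₂, Q₂, q, hQ₁, hQ₂, e1, e2⟩
  · right; left
    rw [zero_add, ← hu] at h10
    have hstepG := LM_step hd.hG (n := 0) (hd.hG0 _ (by omega)) (hd.hG0 _ (by omega))
    have hstepF := LM_step hd.hF (n := 0) (hd.hF0 _ (by omega)) (hd.hF0 _ (by omega))
    rw [zero_add] at hstepG hstepF
    have hldE : ld DOm E = u := by
      rw [hE, ld_div DOm hM hL]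
      linear_combination h10 - hstepF + hstepG
    have hDE : DOm E = u * E := by rw [ld_eq DOm hE0, hldE]
    have hldE1 : ld DOm (E - 1) = u * E / (E - 1) := by
      unfold ld
      rw [map_sub, hDE, DOm_one, sub_zero]
    obtain ⟨C, hC⟩ : ∃ C : ℂ, G 0 * E = jj (cst C) * (E - 1) := by
      have hne : G 0 * E / (E - 1) ≠ 0 := div_ne_zero (mul_ne_zero hjG hE0) hE1
      have h2 : ld DOm (G 0 * E / (E - 1)) = 0 := by
        rw [ld_div DOm (mul_ne_zero hjG hE0) hE1, ld_mul DOm hjG hE0, ← LM_eq hd.hG, hLG, hldE,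
          hldE1]
        field_simp
        ring
      obtain ⟨C, hC⟩ := Om_const' (x := G 0 * E / (E - 1)) (by rw [ld_eq DOm hne, h2, zero_mul])
      exact ⟨C, by rw [← hC]; field_simp⟩
    obtain ⟨C', hC'⟩ : ∃ C' : ℂ, F 0 = jj (cst C') * (E - 1) := by
      have hne : F 0 / (E - 1) ≠ 0 := div_ne_zero hjF hE1
      have h2 : ld DOm (F 0 / (E - 1)) = 0 := by
        rw [ld_div DOm hjF hE1, ← LM_eq hd.hF, hF, hLG, hldE1]
        field_simp
        ring
      obtain ⟨C', hC'⟩ := Om_const' (x := F 0 / (E - 1)) (by rw [ld_eq DOm hne, h2, zero_mul])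
      exact ⟨C', by rw [← hC']; field_simp⟩
    have hG0' : G 0 = jj (cst (-C)) * (E⁻¹ - 1) := by
      rw [map_neg, map_neg]
      apply mul_right_cancel₀ hE0
      rw [hC]
      field_simp
      ring
    -- the exponent is a polynomial
    have hpoly : jj (dEnt (φ 0)) ∈ acl Cz := by
      have hldR : ld DOm (jj (pE (Q 0)) / jj (pE (P 0))) ∈ acl Cz :=
        ld_mem Cz_good (div_mem (hCz _) (hCz _))
      have huφ : u = ld DOm (jj (pE (Q 0)) / jj (pE (P 0))) + jj (dEnt (φ 0)) := by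
        rw [← hldE, hEq, ld_mul DOm (div_ne_zero hQ0 hP0) hX0, ld_jj_exp]
      rcases windowM hd hA (k := 1) le_rfl with ⟨hw1, hw2⟩ | h21
      · rw [h10] at hw1
        have h2m : (2 : Om) ∈ acl Cz := by exact_mod_cast natCast_mem (acl Cz) 2
        have hum : u ∈ acl Cz := by
          have : u = 2 * u / 2 := by ring
          rw [this]
          exact div_mem hw1 h2m
        have : jj (dEnt (φ 0)) = u - ld DOm (jj (pE (Q 0)) / jj (pE (P 0))) := by rw [huφ]; ring
        rw [this]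
        exact sub_mem hum hldR
      · norm_num at h21
        have hL1n := LG_neM hd (n := 1) (by omega)
        have hM1n := LF_neM hd (n := 1) (by omega)
        have hstepG1 := LM_step hd.hG (n := 1) (hd.hG0 _ (by omega)) (hd.hG0 _ (by omega))
        have hstepF1 := LM_step hd.hF (n := 1) (hd.hF0 _ (by omega)) (hd.hF0 _ (by omega))
        norm_num at hstepG1 hstepF1
        set E1 := LM F 1 / LM G 1 with hE1d
        have hE10 : E1 ≠ 0 := div_ne_zero hM1n hL1n
        have hldE1' : ld DOm E1 = 2 * u := by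
          rw [hE1d, ld_div DOm hM1n hL1n]
          linear_combination h21 + h10 - hstepF1 + hstepG1
        have hne : E1 / E ^ 2 ≠ 0 := div_ne_zero hE10 (pow_ne_zero _ hE0)
        obtain ⟨γ, hγ⟩ := Om_const' (x := E1 / E ^ 2) (by
          rw [ld_eq DOm hne, ld_div DOm hE10 (pow_ne_zero _ hE0), ld_pow DOm hE0, hldE, hldE1']
          push_cast
          ring)
        have hγ0 : jj (cst γ) ≠ 0 := by rw [← hγ]; exact hne
        have hldL : ld DOm (LM G 0) = ld DOm u - u * E / (E - 1) := by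
          rw [hLG, ld_div DOm hu0 hE1, hldE1]
        have hL1' : LM G 1 = ld DOm u - u := by
          rw [hstepG, hldL, hLG]
          field_simp
          ring
        have hF1' : LM F 1 = LM G 1 + 2 * u := by linear_combination h10
        set f : Fin 1 → Ent := ![φ 0] with hf
        have hpm : ∀ p : Polynomial ℂ, jj (pE p) ∈ acl (Rphi f) := fun p => le_acl _ (pE_mem _ f p)
        have hu' : u ∈ acl (Rphi f) := by
          rw [huφ]
          exact add_mem (ld_mem (Rphi_good f) (div_mem (hpm _) (hpm _))) (le_acl _ (dphi_mem f 0))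
        have hdu' : ld DOm u ∈ acl (Rphi f) := ld_mem (Rphi_good f) hu'
        have hLm : LM G 1 ∈ acl (Rphi f) := by rw [hL1']; exact sub_mem hdu' hu'
        have h2m : (2 : Om) ∈ acl (Rphi f) := by exact_mod_cast natCast_mem (acl (Rphi f)) 2
        have hFm : LM F 1 ∈ acl (Rphi f) := by rw [hF1']; exact add_mem hLm (mul_mem h2m hu')
        have hE1m : E1 ∈ acl (Rphi f) := div_mem hFm hLm
        have hγm : jj (cst γ) ∈ acl (Rphi f) := by rw [← pE_C]; exact hpm _
        have hE2m : E ^ 2 ∈ acl (Rphi f) := by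
          have : E ^ 2 = E1 / jj (cst γ) := by
            rw [← hγ]; field_simp
          rw [this]; exact div_mem hE1m hγm
        have hEm : E ∈ acl (Rphi f) := by
          apply alg_acl
          refine ⟨Polynomial.X ^ 2 - Polynomial.C ⟨E ^ 2, hE2m⟩,
            Polynomial.X_pow_sub_C_ne_zero (by norm_num) _, ?_⟩
          rw [map_sub, map_pow, Polynomial.aeval_X, Polynomial.aeval_C]
          exact sub_self _
        have hXm : jj (expE (φ 0)) ∈ acl (Rphi f) := by
          have : jj (expE (φ 0)) = E * (jj (pE (P 0)) / jj (pE (Q 0))) := by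
            rw [hEq]; field_simp
          rw [this]; exact mul_mem hEm (div_mem (hpm _) (hpm _))
        have h3 := F1 f (fun i => by
          fin_cases i
          exact hXm) 0
        have h4 : dEnt (φ 0) = 0 := h3
        rw [h4, map_zero]
        exact zero_mem _
    obtain ⟨M', N', hM', hMN'⟩ := rat_of_alg (A := dEnt (φ 0)) (B := 1) one_ne_zero (by
      rw [map_one, div_one]; exact hpoly)
    rw [mul_one] at hMN'
    obtain ⟨p', hp'⟩ := pE_of_mul hM' hMN'
    obtain ⟨p, hp⟩ := pE_of_dEnt hp'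
    rw [hp] at hEq
    exact ⟨C', -C, Q 0, P 0, p, hd.hQ 0 (by omega), hd.hP 0 (by omega), by rw [hC', hEq],
      by rw [hG0', hEq]⟩

end

end Pool.Agent.BcfFin
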