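import Pool.Agent.BcfFin.Alg

/-!
Meromorphic functions algebraic over `ℂ(z)` are rational; entire functions whose logarithmic
derivative is algebraic are `S e^p`.
-/

set_option autoImplicit false
set_option linter.unusedSectionVars false
set_option linter.unusedVariables false

open Complex
open Pool.Agent.Hhelper32.Bcf

namespace Pool.Agent.BcfFin

theorem Ent_ne {f : Ent} (h : f ≠ 0) : ∃ z, f.1 z ≠ 0 := by
  by_contra hcon
  push Not at hcon
  exact h (Ent.ext hcon)

theorem root_bound {d : ℕ} (hd : 0 < d) {W B : ℂ} {c : ℕ → ℂ}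
    (h : W ^ d + ∑ j ∈ Finset.range d, c j * W ^ j * B ^ (d - j) = 0) :
    ‖W‖ ≤ (1 + ∑ j ∈ Finset.range d, ‖c j‖) * ‖B‖ := by
  by_contra hcon
  push Not at hcon
  set σ := ∑ j ∈ Finset.range d, ‖c j‖ with hσ
  have hσ0 : 0 ≤ σ := Finset.sum_nonneg (fun j _ => norm_nonneg _)
  have hB0 := norm_nonneg B
  have hBW : ‖B‖ ≤ ‖W‖ := by nlinarith
  have hW0 : 0 < ‖W‖ := lt_of_le_of_lt (by positivity) hcon
  have h1 : ‖W‖ ^ d ≤ σ * (‖W‖ ^ (d - 1) * ‖B‖) := by
    have h2 : W ^ d = - ∑ j ∈ Finset.range d, c j * W ^ j * B ^ (d - j) := by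
      linear_combination h
    rw [← norm_pow, h2, norm_neg, hσ, Finset.sum_mul]
    refine (norm_sum_le _ _).trans (Finset.sum_le_sum (fun j hj => ?_))
    rw [Finset.mem_range] at hj
    rw [norm_mul, norm_mul, norm_pow, norm_pow, mul_assoc]
    apply mul_le_mul_of_nonneg_left _ (norm_nonneg _)
    have e1 : d - j = (d - 1 - j) + 1 := by omega
    have e2 : d - 1 = j + (d - 1 - j) := by omega
    rw [e1, pow_succ]
    conv_rhs => rw [e2, pow_add]
    have h3 : ‖B‖ ^ (d - 1 - j) ≤ ‖W‖ ^ (d - 1 - j) := pow_le_pow_left₀ hB0 hBW _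
    have h4 : 0 ≤ ‖W‖ ^ j := pow_nonneg hW0.le _
    calc ‖W‖ ^ j * (‖B‖ ^ (d - 1 - j) * ‖B‖) = (‖W‖ ^ j * ‖B‖) * ‖B‖ ^ (d - 1 - j) := by ring
      _ ≤ (‖W‖ ^ j * ‖B‖) * ‖W‖ ^ (d - 1 - j) :=
          mul_le_mul_of_nonneg_left h3 (mul_nonneg h4 hB0)
      _ = _ := by ring
  have h5 : σ * (‖W‖ ^ (d - 1) * ‖B‖) < ‖W‖ ^ d := by
    have e3 : ‖W‖ ^ d = ‖W‖ ^ (d - 1) * ‖W‖ := by
      rw [← pow_succ]; congr 1; omega
    rw [e3]
    have h6 : 0 < ‖W‖ ^ (d - 1) := pow_pos hW0 _
    have h7 : σ * ‖B‖ < ‖W‖ := by nlinarith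
    calc σ * (‖W‖ ^ (d - 1) * ‖B‖) = ‖W‖ ^ (d - 1) * (σ * ‖B‖) := by ring
      _ < _ := mul_lt_mul_of_pos_left h7 h6
  linarith

/-- A meromorphic function algebraic over `ℂ(z)` is rational. -/
theorem rat_of_alg {A B : Ent} (hB : B ≠ 0) (h : jj A / jj B ∈ acl Cz) :
    ∃ a b : Polynomial ℂ, a ≠ 0 ∧ pE a * A = pE b * B := by
  obtain ⟨p, hp, hpx⟩ := h
  have hc : ∀ j, ∃ P : Polynomial ℂ, jj (pE P) = (p.coeff j).1 := by
    intro j
    obtain ⟨P, hP⟩ := (p.coeff j).2
    exact ⟨P, hP⟩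
  choose P hP using hc
  set d := p.natDegree with hd
  have hPd : P d ≠ 0 := by
    intro h0
    have h1 := hP d
    rw [h0, map_zero, map_zero] at h1
    have h2 : p.coeff d = 0 := Subtype.ext h1.symm
    exact hp (Polynomial.leadingCoeff_eq_zero.mp h2)
  have hjB := jj_ne hB
  have hrel : ∑ j ∈ Finset.range (d + 1), pE (P j) * (A ^ j * B ^ (d - j)) = 0 := by
    apply jj_inj
    rw [map_zero, map_sum]
    have h0 : Polynomial.aeval (jj A / jj B) p =
        ∑ j ∈ Finset.range (d + 1), jj (pE (P j)) * (jj A / jj B) ^ j := by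
      rw [Polynomial.aeval_eq_sum_range]
      apply Finset.sum_congr rfl
      intro j _
      rw [hP, Algebra.smul_def]; rfl
    have h1 : (jj B) ^ d * Polynomial.aeval (jj A / jj B) p = 0 := by rw [hpx, mul_zero]
    rw [← h1, h0, Finset.mul_sum]
    apply Finset.sum_congr rfl
    intro j hj
    have hj' : j ≤ d := by have := Finset.mem_range.mp hj; omega
    have e1 : d = j + (d - j) := by omega
    rw [map_mul, map_mul, map_pow, map_pow, div_pow]
    conv_rhs => rw [e1, pow_add]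
    have e3 : (jj B) ^ j ≠ 0 := pow_ne_zero _ hjB
    field_simp
  have hd0 : 0 < d := by
    rcases Nat.eq_zero_or_pos d with h0 | h0
    · exfalso
      rw [h0] at hrel hPd
      simp only [zero_add, Finset.range_one, Finset.sum_singleton, pow_zero, Nat.sub_self,
        mul_one] at hrel
      exact pE_ne hPd hrel
    · exact h0
  have hpt : ∀ z, ∑ j ∈ Finset.range (d + 1), (P j).eval z * ((A.1 z) ^ j * (B.1 z) ^ (d - j)) = 0 := by
    intro z
    have h1 := congrFun (congrArg Subtype.val hrel) z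
    have h2 : ((∑ j ∈ Finset.range (d + 1), pE (P j) * (A ^ j * B ^ (d - j)) : Ent) : ℂ → ℂ) z =
        ∑ j ∈ Finset.range (d + 1), (P j).eval z * ((A.1 z) ^ j * (B.1 z) ^ (d - j)) := by
      have h3 : ∀ j, (P j).eval z = (pE (P j)).1 z := fun j => (pE_apply _ _).symm
      simp only [h3]
      simp
    rw [← h2]
    exact h1
  set c : ℕ → Polynomial ℂ := fun j => P j * (P d) ^ (d - 1 - j) with hc
  have hpt2 : ∀ z, ((P d).eval z * A.1 z) ^ d +
      ∑ j ∈ Finset.range d, (c j).eval z * ((P d).eval z * A.1 z) ^ j * (B.1 z) ^ (d - j) = 0 := by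
    intro z
    have h1 := hpt z
    rw [Finset.sum_range_succ, Nat.sub_self, pow_zero, mul_one] at h1
    have h2 : ((P d).eval z) ^ (d - 1) * (∑ j ∈ Finset.range d,
        (P j).eval z * ((A.1 z) ^ j * (B.1 z) ^ (d - j)) + (P d).eval z * (A.1 z) ^ d) = 0 := by
      rw [h1, mul_zero]
    rw [mul_add, Finset.mul_sum] at h2
    have e1 : ((P d).eval z * A.1 z) ^ d = ((P d).eval z) ^ (d - 1) * ((P d).eval z * (A.1 z) ^ d) := by
      rw [mul_pow, ← mul_assoc, ← pow_succ]
      congr 2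
      omega
    rw [e1, add_comm, ← h2]
    congr 1
    apply Finset.sum_congr rfl
    intro j hj
    have hj' : j < d := Finset.mem_range.mp hj
    simp only [hc, Polynomial.eval_mul, Polynomial.eval_pow]
    have e2 : d - 1 = (d - 1 - j) + j := by omega
    conv_rhs => rw [e2, pow_add]
    rw [mul_pow]
    ring
  obtain ⟨b, hb⟩ := poly_quot (A := fun z => (P d).eval z * A.1 z) (B := B.1)
    ((poly_diff _).mul A.2) B.2 (Ent_ne hB)
    (M := fun z => 1 + ∑ j ∈ Finset.range d, ‖(c j).eval z‖)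
    ((PG.const 1 zero_le_one).add (PG.sum _ (fun j _ => PG.poly (c j))))
    (continuous_const.add (continuous_finsetSum _ (fun j _ => (c j).continuous.norm)))
    (fun z => root_bound hd0 (hpt2 z))
  refine ⟨P d, b, hPd, Ent.ext (fun z => ?_)⟩
  have h1 := hb z
  change (pE (P d)).1 z * A.1 z = (pE b).1 z * B.1 z
  rw [pE_apply, pE_apply]
  exact h1

/-- An entire function with finitely many zeros. -/
theorem fin_zeros {G : Ent} (hG : G ≠ 0) (h : {z | G.1 z = 0}.Finite) :
    ∃ S : Polynomial ℂ, S ≠ 0 ∧ ∃ φ : Ent, G = pE S * expE φ := by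
  obtain ⟨P, Q, hP, hQ, φ, hφ, hrel⟩ := exists_ratio (U := G.1) (V := fun _ => 1) G.2
    (differentiable_const 1) (Ent_ne hG) ⟨0, one_ne_zero⟩ h (fun z hz => by
      have h1 : analyticOrderAt G.1 z = 0 := ((G.2.analyticAt z).analyticOrderAt_eq_zero).mpr hz
      have h2 : analyticOrderAt (fun _ : ℂ => (1:ℂ)) z = 0 :=
        (analyticAt_const.analyticOrderAt_eq_zero).mpr one_ne_zero
      rw [h1, h2])
  have hq : Differentiable ℂ (fun z => G.1 z * Complex.exp (-φ z)) := G.2.mul hφ.neg.cexp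
  obtain ⟨S, hS⟩ := poly_of_mul hq.continuous _ P Q rfl hP (fun z => by
    have h1 := hrel z
    rw [mul_one] at h1
    rw [← mul_assoc, h1, mul_assoc, ← Complex.exp_add, add_neg_cancel, Complex.exp_zero, mul_one])
  have hGS : G = pE S * expE ⟨φ, hφ⟩ := Ent.ext (fun z => by
    change G.1 z = (pE S).1 z * Complex.exp (φ z)
    rw [pE_apply, ← hS z, mul_assoc, ← Complex.exp_add, neg_add_cancel, Complex.exp_zero, mul_one])
  refine ⟨S, ?_, ⟨φ, hφ⟩, hGS⟩
  rintro rfl
  rw [map_zero, zero_mul] at hGS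
  exact hG hGS

/-- an entire function with polynomial derivative -/
theorem pE_of_dEnt {f : Ent} {p : Polynomial ℂ} (h : dEnt f = pE p) :
    ∃ P : Polynomial ℂ, f = pE P := by
  obtain ⟨P, hP⟩ := poly_of_deriv (f := f.1) f.2 (p := p) (fun z => by
    have h1 := congrFun (congrArg Subtype.val h) z
    rw [pE_apply] at h1
    exact h1)
  exact ⟨P, Ent.ext (fun z => by rw [pE_apply]; exact hP z)⟩

/-- an entire quotient of polynomials -/
theorem pE_of_mul {f : Ent} {a b : Polynomial ℂ} (ha : a ≠ 0) (h : pE a * f = pE b) :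
    ∃ P : Polynomial ℂ, f = pE P := by
  obtain ⟨P, hP⟩ := poly_of_mul f.2.continuous _ a b rfl ha (fun z => by
    have h1 := congrFun (congrArg Subtype.val h) z
    rw [pE_apply] at h1
    rw [← h1, ← pE_apply]
    rfl)
  exact ⟨P, Ent.ext (fun z => by rw [pE_apply]; exact hP z)⟩

/-- Algebraic logarithmic derivative. -/
theorem exp_form {G : Ent} (hG : G ≠ 0) (h : jj (dEnt G) / jj G ∈ acl Cz) :
    ∃ S p : Polynomial ℂ, S ≠ 0 ∧ G = pE S * expE (pE p) := by
  obtain ⟨a, b, ha, hab⟩ := rat_of_alg hG h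
  have hfin : {z | G.1 z = 0}.Finite := by
    apply (Polynomial.finite_setOfPred_isRoot ha).subset
    intro z hz
    by_contra hcon
    have hz' : G.1 z = 0 := hz
    have ha0 : a.eval z ≠ 0 := hcon
    have h1 : (fun w => a.eval w) * deriv G.1 = (fun w => b.eval w) * G.1 := by
      funext w
      have h2 := congrFun (congrArg Subtype.val hab) w
      change a.eval w * deriv G.1 w = b.eval w * G.1 w
      rw [← pE_apply, ← pE_apply]
      exact h2
    have hGd : Differentiable ℂ (deriv G.1) := (dEnt G).2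
    have h3 : analyticOrderAt ((fun w => a.eval w) * deriv G.1) z =
        analyticOrderAt (fun w => a.eval w) z + analyticOrderAt (deriv G.1) z :=
      analyticOrderAt_mul ((poly_diff a).analyticAt z) (hGd.analyticAt z)
    have h4 : analyticOrderAt ((fun w => b.eval w) * G.1) z =
        analyticOrderAt (fun w => b.eval w) z + analyticOrderAt G.1 z :=
      analyticOrderAt_mul ((poly_diff b).analyticAt z) (G.2.analyticAt z)
    have h5 : analyticOrderAt (fun w => a.eval w) z = 0 :=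
      (((poly_diff a).analyticAt z).analyticOrderAt_eq_zero).mpr ha0
    have h6 := (G.2.analyticAt z).analyticOrderAt_deriv_add_one
    rw [hz'] at h6
    simp only [sub_zero] at h6
    have h7 : analyticOrderAt (fun w => G.1 w) z = analyticOrderAt G.1 z := rfl
    rw [h7] at h6
    have htop := ord_ne_top G.2 (Ent_ne hG) z
    rw [h1, h4, h5, zero_add] at h3
    have h8 : analyticOrderAt (deriv G.1) z ≠ ⊤ := by
      intro h9
      rw [h9] at h6
      exact htop (by rw [← h6]; rfl)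
    have h9 : analyticOrderAt G.1 z ≤ analyticOrderAt (deriv G.1) z := by
      rw [← h3]; exact le_add_self
    rw [← h6] at h9
    exact absurd ((ENat.add_one_le_iff h8).mp h9) (lt_irrefl _)
  obtain ⟨S, hS, φ, hGS⟩ := fin_zeros hG hfin
  have hE := expE_ne_zero φ
  have h1 : pE (a * S) * dEnt φ = pE (b * S - a * Polynomial.derivative S) := by
    apply mul_right_cancel₀ hE
    rw [hGS, Derivation.leibniz, dEnt_pE, dEnt_exp] at hab
    simp only [smul_eq_mul] at hab
    simp only [map_sub, map_mul]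
    linear_combination hab
  obtain ⟨p', hp'⟩ := pE_of_mul (mul_ne_zero ha hS) h1
  obtain ⟨p, hp⟩ := pE_of_dEnt hp'
  exact ⟨S, p, hS, by rw [hGS, hp]⟩

end Pool.Agent.BcfFin
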