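import Pool.Agent.BcfFin.Main
import Pool.Agent.BcfFin.MerAn

/-!
Algebra for the meromorphic case.
-/

set_option autoImplicit false
set_option linter.unusedSectionVars false
set_option linter.unusedVariables false

open Complex
open Pool.Agent.Hhelper32.Bcf

namespace Pool.Agent.BcfFin

section abs
variable {K Ω : Type*} [Field K] [Field Ω] [Algebra K Ω] [IsAlgClosed K] [CharZero K]
  {S : DExt K Ω} {s : Ω} {β : K}

/-- comparison of coefficients -/
theorem coeff_cmp (hs : IsT S s β) {ι : Type*} (I : Finset ι) (e : ι → ℤ) (k : ι → K)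
    (h : ∑ i ∈ I, algebraMap K Ω (k i) * s ^ (e i) = 0) (x : ℤ) :
    ∑ i ∈ I, (if e i = x then k i else 0) = 0 := by
  classical
  set N : ℤ := x.natAbs + ∑ i ∈ I, ((e i).natAbs : ℤ) with hN
  have hNi : ∀ i ∈ I, 0 ≤ e i + N := by
    intro i hi
    have h1 : ((e i).natAbs : ℤ) ≤ ∑ i ∈ I, ((e i).natAbs : ℤ) :=
      Finset.single_le_sum (f := fun i => ((e i).natAbs : ℤ)) (fun j _ => by positivity) hi
    omega
  have hNx : 0 ≤ x + N := by
    have h1 : 0 ≤ ∑ i ∈ I, ((e i).natAbs : ℤ) := Finset.sum_nonneg (fun j _ => by positivity)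
    omega
  set P : Polynomial K := ∑ i ∈ I, Polynomial.monomial (e i + N).toNat (k i) with hP
  have h1 : Polynomial.aeval s P = 0 := by
    have h2 : Polynomial.aeval s P = s ^ N * ∑ i ∈ I, algebraMap K Ω (k i) * s ^ (e i) := by
      rw [hP, map_sum, Finset.mul_sum]
      apply Finset.sum_congr rfl
      intro i hi
      rw [Polynomial.aeval_monomial]
      have h3 : s ^ (e i + N).toNat = s ^ (e i + N) := by
        rw [← zpow_natCast, Int.toNat_of_nonneg (hNi i hi)]
      rw [h3, zpow_add₀ hs.ne_zero]
      ring
    rw [h2, h, mul_zero]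
  have h2 : P = 0 := by
    by_contra hne
    exact hs.aeval_ne hne h1
  have h3 := congrArg (fun p => Polynomial.coeff p (x + N).toNat) h2
  simp only [hP, Polynomial.finsetSum_coeff, Polynomial.coeff_monomial, Polynomial.coeff_zero] at h3
  refine Eq.trans ?_ h3
  apply Finset.sum_congr rfl
  intro i hi
  have h4 := hNi i hi
  by_cases h5 : e i = x
  · rw [if_pos h5, if_pos (by rw [h5])]
  · rw [if_neg h5, if_neg (by omega)]

theorem coeff_cmp4 (hs : IsT S s β) (k₀ k₁ k₂ k₃ : K) (e₀ e₁ e₂ e₃ : ℤ)
    (h : algebraMap K Ω k₀ * s ^ e₀ + algebraMap K Ω k₁ * s ^ e₁ + algebraMap K Ω k₂ * s ^ e₂ +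
      algebraMap K Ω k₃ * s ^ e₃ = 0) (x : ℤ) :
    (if e₀ = x then k₀ else 0) + (if e₁ = x then k₁ else 0) + (if e₂ = x then k₂ else 0) +
      (if e₃ = x then k₃ else 0) = 0 := by
  have h1 := coeff_cmp hs (Finset.univ : Finset (Fin 4)) ![e₀, e₁, e₂, e₃] ![k₀, k₁, k₂, k₃] (by
    rw [Fin.sum_univ_four]
    exact h) x
  rw [Fin.sum_univ_four] at h1
  exact h1

/-- the relation between two exponentials which occurs when a derivative is `p / (1 - w)`. -/
theorem two_exp [IsAlgClosed Ω] {w v : Ω} (hw0 : w ≠ 0) (hv0 : v ≠ 0) (hv1 : v ≠ 1)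
    {β ρ p l : K} (hβ : ld S.D w = algebraMap K Ω β) (hρ : ld S.D v = algebraMap K Ω ρ)
    (hp : p ≠ 0) (hl : l ≠ 0)
    (hR : algebraMap K Ω p * (1 - v) * (w - v) = algebraMap K Ω (l * ρ) * v * (1 - w)) :
    (∃ c : K, algebraMap K Ω c = w) ∧ (∃ c : K, algebraMap K Ω c = v) := by
  have hpΩ : algebraMap K Ω p ≠ 0 := (map_ne_zero _).mpr hp
  -- v is algebraic over any field containing K and w
  have hw : ∃ c : K, algebraMap K Ω c = w := by
    by_contra hcon
    push Not at hcon
    have ht : IsT S w β := ⟨by rw [ld_eq S.D hw0, hβ], hcon⟩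
    have halg : IsAlgebraic (Kt K w) v := by
      set p' : Kt K w := ⟨algebraMap K Ω p, alg_mem_Kt p⟩ with hp'
      set w' : Kt K w := ⟨w, t_mem_Kt⟩ with hw'
      set r' : Kt K w := ⟨algebraMap K Ω (l * ρ), alg_mem_Kt _⟩ with hr'
      refine ⟨Polynomial.C p' * Polynomial.X ^ 2 + Polynomial.C (-(p' + p' * w' + r' * (1 - w'))) *
        Polynomial.X + Polynomial.C (p' * w'), ?_, ?_⟩
      · intro h0
        have h1 := congrArg (fun q => Polynomial.coeff q 2) h0
        simp only [Polynomial.coeff_add, Polynomial.coeff_C_mul, Polynomial.coeff_X_pow,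
          Polynomial.coeff_X, Polynomial.coeff_C, Polynomial.coeff_zero] at h1
        norm_num at h1
        apply hpΩ
        have h2 := congrArg Subtype.val h1
        exact h2
      · simp only [map_add, map_mul, Polynomial.aeval_C, Polynomial.aeval_X, map_pow, map_neg]
        have e1 : algebraMap (Kt K w) Ω p' = algebraMap K Ω p := rfl
        have e2 : algebraMap (Kt K w) Ω w' = w := rfl
        have e3 : algebraMap (Kt K w) Ω r' = algebraMap K Ω (l * ρ) := rfl
        simp only [map_sub, map_one, e1, e2, e3]
        linear_combination hR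
    have hk := kolchin ht hv0 hρ halg
    obtain ⟨s, β', hsT, hsE⟩ := roots ht (N := 1) (E := fun n => if n = 0 then w else v)
      (fun n hn => by
        rcases Nat.lt_or_ge n 1 with h0 | h0
        · have : n = 0 := by omega
          subst this
          exact ⟨1, one_pos, 1, one_ne_zero, 1, by simp⟩
        · have : n = 1 := by omega
          subst this
          simpa using hk)
      (fun n hn => by
        rcases Nat.lt_or_ge n 1 with h0 | h0
        · have : n = 0 := by omega
          subst this
          simpa using hw0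
        · have : n = 1 := by omega
          subst this
          simpa using hv0)
    obtain ⟨cw, hcw, a, ha⟩ := hsE 0 (by omega)
    obtain ⟨cv, hcv, b, hb⟩ := hsE 1 (by omega)
    simp only [if_true] at ha
    simp only [one_ne_zero, if_false] at hb
    have ha0 : a ≠ 0 := by
      rintro rfl
      rw [zpow_zero, mul_one] at ha
      exact hcon cw ha.symm
    have hs0 := hsT.ne_zero
    -- the relation
    have hrel : algebraMap K Ω (p * cw) * s ^ a + algebraMap K Ω (-((p + l * ρ) * cv)) * s ^ b +
        algebraMap K Ω (-((p - l * ρ) * (cv * cw))) * s ^ (a + b) +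
        algebraMap K Ω (p * cv ^ 2) * s ^ (2 * b) = 0 := by
      rw [zpow_add₀ hs0, show (2:ℤ) * b = b + b by ring, zpow_add₀ hs0]
      simp only [map_mul, map_neg, map_add, map_sub, map_pow]
      rw [ha, hb] at hR
      simp only [map_mul] at hR
      linear_combination hR
    have hc := coeff_cmp4 hsT _ _ _ _ _ _ _ _ hrel
    have hρ0 : l * ρ * (l * ρ) = 0 → ρ = 0 := by
      intro h0
      have h1 := mul_self_eq_zero.mp h0
      exact (mul_eq_zero.mp h1).resolve_left hl
    by_cases hb0 : b = 0
    · have e0 := hc 0
      have ea := hc a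
      rw [if_neg (show ¬ a = 0 from ha0), if_pos (show b = 0 from hb0),
        if_neg (show ¬ a + b = 0 by omega), if_pos (show 2 * b = 0 by omega)] at e0
      rw [if_pos (show a = a from rfl), if_neg (show ¬ b = a by omega),
        if_pos (show a + b = a by omega), if_neg (show ¬ 2 * b = a by omega)] at ea
      have h1 : p * cv = p + l * ρ := by
        apply mul_left_cancel₀ hcv
        linear_combination e0
      have h2 : p = (p - l * ρ) * cv := by
        apply mul_left_cancel₀ hcw
        linear_combination ea
      have h3 : ρ = 0 := hρ0 (by linear_combination p * h2 + (p - l * ρ) * h1)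
      rw [h3, mul_zero, add_zero] at h1
      have h4 : cv = 1 := mul_left_cancel₀ hp (by rw [h1, mul_one])
      apply hv1
      rw [hb, hb0, h4, zpow_zero, map_one, mul_one]
    · by_cases hab : b = a
      · have ea := hc a
        have e2 := hc (2 * a)
        rw [if_pos (show a = a from rfl), if_pos (show b = a from hab),
          if_neg (show ¬ a + b = a by omega), if_neg (show ¬ 2 * b = a by omega)] at ea
        rw [if_neg (show ¬ a = 2 * a by omega), if_neg (show ¬ b = 2 * a by omega),
          if_pos (show a + b = 2 * a by omega), if_pos (show 2 * b = 2 * a by omega)] at e2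
        have h1 : p * cw = (p + l * ρ) * cv := by linear_combination ea
        have h2 : p * cv = (p - l * ρ) * cw := by
          apply mul_left_cancel₀ hcv
          linear_combination e2
        have h3 : ρ = 0 := hρ0 (by
          apply mul_left_cancel₀ hcw
          linear_combination p * h1 + (p + l * ρ) * h2)
        have h4 : S.D v = 0 := by rw [ld_eq S.D hv0, hρ, h3, map_zero, zero_mul]
        obtain ⟨c, hcc⟩ := S.const _ h4
        exact mono_notMem hsT hcv hb0 c (by rw [hcc, hb])
      · by_cases h2b : 2 * b = a
        · have eb := hc b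
          have e3 := hc (a + b)
          rw [if_neg (show ¬ a = b by omega), if_pos (show b = b from rfl),
            if_neg (show ¬ a + b = b by omega), if_neg (show ¬ 2 * b = b by omega)] at eb
          rw [if_neg (show ¬ a = a + b by omega), if_neg (show ¬ b = a + b by omega),
            if_pos (show a + b = a + b from rfl), if_neg (show ¬ 2 * b = a + b by omega)] at e3
          have h1 : p + l * ρ = 0 := by
            have : (p + l * ρ) * cv = 0 := by linear_combination -eb
            exact (mul_eq_zero.mp this).resolve_right hcv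
          have h2 : p - l * ρ = 0 := by
            have : (p - l * ρ) * (cv * cw) = 0 := by linear_combination -e3
            exact (mul_eq_zero.mp this).resolve_right (mul_ne_zero hcv hcw)
          apply hp
          have : (2:K) * p = 0 := by linear_combination h1 + h2
          exact (mul_eq_zero.mp this).resolve_left two_ne_zero
        · have ea := hc a
          rw [if_pos (show a = a from rfl), if_neg (show ¬ b = a from hab),
            if_neg (show ¬ a + b = a by omega), if_neg (show ¬ 2 * b = a from h2b)] at ea
          apply mul_ne_zero hp hcw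
          linear_combination ea
  refine ⟨hw, ?_⟩
  obtain ⟨w', hw'⟩ := hw
  apply mem_of_isAlgebraic
  refine ⟨Polynomial.C p * Polynomial.X ^ 2 + Polynomial.C (-(p + p * w' + l * ρ * (1 - w'))) *
    Polynomial.X + Polynomial.C (p * w'), ?_, ?_⟩
  · intro h0
    have h1 := congrArg (fun q => Polynomial.coeff q 2) h0
    simp only [Polynomial.coeff_add, Polynomial.coeff_C_mul, Polynomial.coeff_X_pow,
      Polynomial.coeff_X, Polynomial.coeff_C, Polynomial.coeff_zero] at h1
    norm_num at h1
    exact hp h1
  · simp only [map_add, map_mul, Polynomial.aeval_C, Polynomial.aeval_X, map_pow, map_neg,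
      map_sub, map_one, hw']
    simp only [map_mul] at hR
    linear_combination hR

end abs

end Pool.Agent.BcfFin
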